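import Mathlib

set_option autoImplicit false

/-!
# Definitions: BMO of the line, the Hilbert transform on BMO, BMOA, the group `G`, property (L)
-/

namespace Pool.Agent.TH244.L

open MeasureTheory Set Filter Topology Complex
open scoped Real ENNReal

/-- The mean of `f` over `[a,b]`. -/
noncomputable def mean (f : ℝ → ℂ) (a b : ℝ) : ℂ := ((b - a : ℝ) : ℂ)⁻¹ * ∫ x in a..b, f x

/-- The mean oscillation of `f` over `[a,b]`. -/
noncomputable def osc (f : ℝ → ℂ) (a b : ℝ) : ℝ := (b - a)⁻¹ * ∫ x in a..b, ‖f x - mean f a b‖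

/-- The BMO (semi)norm: the supremum of the mean oscillations over all bounded intervals. -/
noncomputable def bmoNorm (f : ℝ → ℂ) : ℝ≥0∞ :=
  ⨆ (a : ℝ) (b : ℝ) (_ : a < b), ENNReal.ofReal (osc f a b)

/-- `f` belongs to `BMO(ℝ)`. -/
def InBMO (f : ℝ → ℂ) : Prop := LocallyIntegrable f ∧ bmoNorm f < ⊤

/-- The truncated Hilbert transform
`π⁻¹ ∫_{|x-t|>ε} f(t) (1/(x-t) + t/(1+t²)) dt`; the term `t/(1+t²)` makes the integral converge at
infinity for `f` in `BMO` and only changes the Hilbert transform by a constant. -/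
noncomputable def truncH (f : ℝ → ℂ) (ε x : ℝ) : ℂ :=
  ((1 / π : ℝ) : ℂ) * ∫ t in {t : ℝ | ε < |x - t|}, f t * ((1 / (x - t) + t / (1 + t ^ 2) : ℝ) : ℂ)

/-- `g` is the Hilbert transform of `f` (principal value, almost everywhere; modulo constants the
normalisation is the one with symbol `-i sgn ξ`). -/
def IsHilbert (f g : ℝ → ℂ) : Prop :=
  ∀ᵐ x : ℝ, Tendsto (fun ε => truncH f ε x) (𝓝[>] 0) (𝓝 (g x))

/-- `q` is the projection `P f = (f + i H f) / 2`, modulo constants. -/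
def IsProj (f q : ℝ → ℂ) : Prop :=
  ∃ g : ℝ → ℂ, IsHilbert f g ∧ ∃ c : ℂ, ∀ᵐ x : ℝ, q x = (f x + I * g x) / 2 + c

/-- `BMOA = P(BMO)`. -/
def InBMOA (f : ℝ → ℂ) : Prop := InBMO f ∧ ∃ v : ℝ → ℂ, InBMO v ∧ IsProj v f

/-- The class `A^∞` of Muckenhoupt. -/
def IsAInfty (w : ℝ → ℝ) : Prop :=
  (∀ x, 0 ≤ w x) ∧ LocallyIntegrable w ∧ ∃ C δ : ℝ, 0 < C ∧ 0 < δ ∧
    ∀ a b : ℝ, a < b → ∀ E : Set ℝ, MeasurableSet E → E ⊆ Icc a b →
      ∫ x in E, w x ≤ C * ((volume E).toReal / (b - a)) ^ δ * ∫ x in Icc a b, w x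

/-- The group `G`: increasing homeomorphisms of the line onto itself which are locally absolutely
continuous with derivative in `A^∞`. -/
def InG (h : ℝ → ℝ) : Prop :=
  StrictMono h ∧ Continuous h ∧ Function.Surjective h ∧
    ∃ w : ℝ → ℝ, IsAInfty w ∧ ∀ a b : ℝ, h b - h a = ∫ x in a..b, w x

/-- Property (L): `‖P V_h f‖ ≥ c ‖f‖` for all `f` in `BMOA`. -/
def PropertyL (h : ℝ → ℝ) : Prop :=
  ∃ c : ℝ, 0 < c ∧ ∀ f q : ℝ → ℂ, InBMOA f → IsProj (f ∘ h) q →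
    ENNReal.ofReal c * bmoNorm f ≤ bmoNorm q

end Pool.Agent.TH244.L
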