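import Mathlib

set_option autoImplicit false

/-!
# The Moebius lift, periodic functions
-/

namespace Pool.Agent.TH244.L

open MeasureTheory Set Filter Topology
open scoped Real ContDiff

noncomputable def uu (θ : ℝ) : ℝ := θ + 2 * Real.arctan (Real.sin θ / (2 - Real.cos θ))

noncomputable def ell (E : ℝ → ℂ) : ℂ :=
  (1 / (2 * π : ℝ) : ℂ) * ∫ θ in (0:ℝ)..(2 * π), E θ / (1 - (1 / 2) * Complex.exp (-(Complex.I * θ)))

noncomputable def ell1 (E : ℝ → ℂ) : ℂ :=
  (1 / (2 * π : ℝ) : ℂ) * ∫ θ in (0:ℝ)..(2 * π), E θ * Complex.exp (-(Complex.I * θ)) /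
    (1 - (1 / 2) * Complex.exp (-(Complex.I * θ))) ^ 2

/-- The periodic part of `uu`. -/
noncomputable def eta (θ : ℝ) : ℝ := 2 * Real.arctan (Real.sin θ / (2 - Real.cos θ))

theorem uu_eq (θ : ℝ) : uu θ = θ + eta θ := rfl

theorem den_pos (θ : ℝ) : 0 < 2 - Real.cos θ := by linarith [Real.cos_le_one θ]

theorem den5_pos (θ : ℝ) : 0 < 5 - 4 * Real.cos θ := by linarith [Real.cos_le_one θ]

theorem eta_smooth : ContDiff ℝ ∞ eta := by
  unfold eta
  refine contDiff_const.mul (Real.contDiff_arctan.comp ?_)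
  exact Real.contDiff_sin.div (contDiff_const.sub Real.contDiff_cos) fun θ => (den_pos θ).ne'

theorem uu_smooth : ContDiff ℝ ∞ uu := contDiff_id.add eta_smooth

theorem eta_per (θ : ℝ) : eta (θ + 2 * π) = eta θ := by
  unfold eta
  rw [Real.sin_add_two_pi, Real.cos_add_two_pi]

theorem uu_per (θ : ℝ) : uu (θ + 2 * π) = uu θ + 2 * π := by
  rw [uu_eq, uu_eq, eta_per]; ring

theorem eta_abs (θ : ℝ) : |eta θ| ≤ π := by
  unfold eta
  rw [abs_mul, abs_two]
  have h1 := Real.arctan_lt_pi_div_two (Real.sin θ / (2 - Real.cos θ))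
  have h2 := Real.neg_pi_div_two_lt_arctan (Real.sin θ / (2 - Real.cos θ))
  have h3 : |Real.arctan (Real.sin θ / (2 - Real.cos θ))| ≤ π / 2 :=
    abs_le.2 ⟨by linarith, by linarith⟩
  linarith

theorem eta_hasDeriv (θ : ℝ) :
    HasDerivAt eta ((4 * Real.cos θ - 2) / (5 - 4 * Real.cos θ)) θ := by
  unfold eta
  have h1 : HasDerivAt (fun θ => Real.sin θ / (2 - Real.cos θ))
      ((Real.cos θ * (2 - Real.cos θ) - Real.sin θ * (Real.sin θ)) / (2 - Real.cos θ) ^ 2) θ := by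
    have h2 : HasDerivAt (fun θ => 2 - Real.cos θ) (Real.sin θ) θ := by
      have := (Real.hasDerivAt_cos θ).const_sub 2
      rwa [neg_neg] at this
    exact (Real.hasDerivAt_sin θ).fun_div h2 (den_pos θ).ne'
  have h4 : HasDerivAt (fun θ => 2 * Real.arctan (Real.sin θ / (2 - Real.cos θ)))
      (2 * (1 / (1 + (Real.sin θ / (2 - Real.cos θ)) ^ 2) * ((Real.cos θ * (2 - Real.cos θ)
        - Real.sin θ * Real.sin θ) / (2 - Real.cos θ) ^ 2))) θ :=
    ((Real.hasDerivAt_arctan _).comp θ h1).const_mul 2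
  refine h4.congr_deriv ?_
  have n1 := (den_pos θ).ne'
  have n2 := (den5_pos θ).ne'
  have n3 : (2 - Real.cos θ) ^ 2 + Real.sin θ ^ 2 = 5 - 4 * Real.cos θ := by
    nlinarith [Real.sin_sq_add_cos_sq θ]
  have n4 : 1 + (Real.sin θ / (2 - Real.cos θ)) ^ 2
      = (5 - 4 * Real.cos θ) / (2 - Real.cos θ) ^ 2 := by
    rw [← n3]; field_simp
  rw [n4]
  field_simp
  nlinarith [Real.sin_sq_add_cos_sq θ]

theorem deriv_eta (θ : ℝ) : deriv eta θ = (4 * Real.cos θ - 2) / (5 - 4 * Real.cos θ) :=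
  (eta_hasDeriv θ).deriv

theorem deriv_eta_ge (θ : ℝ) : -(2 / 3) ≤ deriv eta θ := by
  rw [deriv_eta, le_div_iff₀ (den5_pos θ)]
  linarith [Real.neg_one_le_cos θ]

theorem deriv_eta_le (θ : ℝ) : deriv eta θ ≤ 2 := by
  rw [deriv_eta, div_le_iff₀ (den5_pos θ)]
  linarith [Real.cos_le_one θ]

theorem uu_hasDeriv (θ : ℝ) : HasDerivAt uu (1 + deriv eta θ) θ := by
  have h := (hasDerivAt_id θ).add (eta_hasDeriv θ)
  rw [deriv_eta]
  exact h

theorem deriv_uu (θ : ℝ) : deriv uu θ = 1 + deriv eta θ := (uu_hasDeriv θ).deriv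

theorem deriv_eta_cont : Continuous (deriv eta) := eta_smooth.continuous_deriv (by norm_num)

theorem deriv_eta_per (θ : ℝ) : deriv eta (θ + 2 * π) = deriv eta θ := by
  rw [deriv_eta, deriv_eta, Real.cos_add_two_pi]

/-- A continuous periodic function is uniformly continuous. -/
theorem per_unif {α : Type*} [PseudoMetricSpace α] {f : ℝ → α} (hf : Continuous f)
    (hp : ∀ x, f (x + 2 * π) = f x) {ε : ℝ} (hε : 0 < ε) :
    ∃ δ : ℝ, 0 < δ ∧ ∀ x y, |x - y| ≤ δ → dist (f x) (f y) ≤ ε := by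
  have hper : Function.Periodic f (2 * π) := hp
  have huc := (isCompact_Icc (a := (-1:ℝ)) (b := 2 * π + 1)).uniformContinuousOn_of_continuous
    hf.continuousOn
  rw [Metric.uniformContinuousOn_iff] at huc
  obtain ⟨δ, hδ, h⟩ := huc ε hε
  refine ⟨min (δ / 2) 1, by positivity, fun x y hxy => ?_⟩
  have h2π : (0:ℝ) < 2 * π := by positivity
  set n := ⌊x / (2 * π)⌋ with hn
  have hx1 : 0 ≤ x - n * (2 * π) := by
    have := Int.floor_le (x / (2 * π))
    rw [← hn, le_div_iff₀ h2π] at this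
    linarith
  have hx2 : x - n * (2 * π) < 2 * π := by
    have := Int.lt_floor_add_one (x / (2 * π))
    rw [← hn, div_lt_iff₀ h2π] at this
    linarith
  have hxy1 : |x - y| ≤ δ / 2 := hxy.trans (min_le_left _ _)
  have hxy2 : |x - y| ≤ 1 := hxy.trans (min_le_right _ _)
  rw [abs_le] at hxy2
  have e1 : f (x - n * (2 * π)) = f x := hper.sub_int_mul_eq n
  have e2 : f (y - n * (2 * π)) = f y := hper.sub_int_mul_eq n
  rw [← e1, ← e2]
  refine (h _ ⟨by linarith, by linarith⟩ _ ⟨by linarith [hxy2.2], by linarith [hxy2.1]⟩ ?_).le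
  rw [Real.dist_eq, show x - n * (2 * π) - (y - n * (2 * π)) = x - y by ring]
  linarith

/-- A continuous periodic function is bounded. -/
theorem per_bdd {F : Type*} [SeminormedAddCommGroup F] {f : ℝ → F} (hf : Continuous f)
    (hp : ∀ x, f (x + 2 * π) = f x) : ∃ B : ℝ, 0 < B ∧ ∀ x, ‖f x‖ ≤ B := by
  have hper : Function.Periodic f (2 * π) := hp
  have h := hper.isBounded_of_continuous (by positivity) hf
  obtain ⟨B, hB⟩ := h.exists_norm_le
  refine ⟨|B| + 1, by positivity, fun x => ?_⟩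
  have := hB (f x) (mem_range_self x)
  linarith [le_abs_self B]

/-- A continuous periodic positive function is bounded below. -/
theorem per_low {f : ℝ → ℝ} (hf : Continuous f)
    (hp : ∀ x, f (x + 2 * π) = f x) (hpos : ∀ x, 0 < f x) : ∃ c : ℝ, 0 < c ∧ ∀ x, c ≤ f x := by
  obtain ⟨B, hB0, hB⟩ := per_bdd (f := fun x => (f x)⁻¹) (hf.inv₀ fun x => (hpos x).ne')
    (fun x => by simp only [hp])
  refine ⟨B⁻¹, by positivity, fun x => ?_⟩
  have := hB x
  rw [Real.norm_eq_abs, abs_of_pos (inv_pos.2 (hpos x))] at this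
  exact inv_le_of_inv_le₀ (hpos x) this

end Pool.Agent.TH244.L
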