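import Mathlib
import Pool.Agent.TH244.L.Base
import Pool.Agent.TH195.J245
import Pool.Agent.TH195.J246
import Pool.Agent.TH635.J187
import Pool.Agent.TH635.J188

set_option autoImplicit false

/-!
# The four lemmas proved by helper195 and helper635
-/

namespace Pool.Agent.TH244.L

open MeasureTheory Set Filter Topology
open scoped Real ContDiff

theorem phase_lemma (h : ℝ → ℝ) (hh : ContDiff ℝ ∞ h) (hper : ∀ x, h (x + 2 * π) = h x + 2 * π)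
    (hpos : ∀ x, 0 < deriv h x) (r : ℝ → ℂ) (hr : ContDiff ℝ ∞ r) (rper : ∀ x, r (x + 2 * π) = r x)
    (m0 : ℕ) (ε : ℝ) (hε : 0 < ε) :
    ∃ N0 : ℕ, ∀ N : ℕ, N0 ≤ N → ∃ P : Polynomial ℂ, (∀ j < m0, P.coeff j = 0) ∧
      ∀ z : ℝ, ‖P.eval (Complex.exp (Complex.I * (h z : ℂ)))
        - r z * Complex.exp (Complex.I * ((N : ℂ) * (z : ℂ)))‖ ≤ ε :=
  Pool.Agent.TH635.J187.phase_lemma h hh hper hpos r hr rper m0 ε hε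

theorem homog (G : ℝ → ℝ → ℝ) (hG : Continuous (Function.uncurry G))
    (h1 : ∀ x θ, G (x + 2 * π) θ = G x θ) (h2 : ∀ x θ, G x (θ + 2 * π) = G x θ)
    (δ ℓ : ℝ) (hδ : 0 < δ) (hℓ : 0 < ℓ) :
    ∃ N0 : ℕ, ∀ N : ℕ, N0 ≤ N → ∀ a b : ℝ, ℓ ≤ b - a →
      |(∫ x in a..b, G x (N * x)) - ∫ x in a..b, (1 / (2 * π)) * ∫ θ in (0:ℝ)..(2 * π), G x θ|
        ≤ δ * (b - a) :=
  Pool.Agent.TH635.J188.homog G hG h1 h2 δ ℓ hδ hℓ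

theorem seed_approx (E : ℝ → ℂ) (hE : Continuous E) (hper : ∀ x, E (x + 2 * π) = E x)
    (hℓ : ell E = 1) (ε : ℝ) (hε : 0 < ε) :
    ∃ P Q : Polynomial ℂ, P.coeff 0 = 0 ∧ Q.coeff 0 = 0 ∧ ‖P.coeff 1 - (3 / 4) * ell1 E‖ ≤ ε ∧
      ∀ θ : ℝ, ‖P.eval (Complex.exp (Complex.I * (uu θ : ℂ))) + 1
        + Q.eval (Complex.exp (-(Complex.I * (θ : ℂ)))) - E θ‖ ≤ ε :=
  Pool.Agent.TH195.J245.seed_approx E hE hper hℓ ε hε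

theorem seed_exists : ∃ (X : ℝ → ℝ) (E : ℝ → ℂ) (κ g : ℝ), ContDiff ℝ ∞ X ∧
    (∀ x, X (x + 2 * π) = X x) ∧ (∀ x, 0 ≤ X x ∧ X x ≤ 1) ∧ 0 < g ∧
    (∀ x, |x - π| < g → X x = 0) ∧ ContDiff ℝ ∞ E ∧ (∀ x, E (x + 2 * π) = E x) ∧
    (∀ x, E x ≠ 0 → X x = 1) ∧ 0 < κ ∧ κ < 1 ∧ (∀ x, ‖E x‖ ≤ κ) ∧ ell E = 1 ∧ ell1 E ≠ 0 :=
  Pool.Agent.TH195.J246.seed_exists

end Pool.Agent.TH244.L
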