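import Mathlib
import Pool.Agent.TH244.L.Jobs

set_option autoImplicit false

/-!
# The phase lemma for polynomials
-/

namespace Pool.Agent.TH244.L

open MeasureTheory Set Filter Topology
open scoped Real ContDiff ComplexConjugate

theorem eval_conj (P : Polynomial ℂ) (w : ℂ) :
    (P.map (starRingEnd ℂ)).eval (conj w) = conj (P.eval w) := by
  rw [Polynomial.eval_map]
  exact Polynomial.eval₂_at_apply (starRingEnd ℂ) w

/-- `r(z) F(e^{iNz})` is nearly an analytic polynomial in `e^{ih(z)}`. -/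
theorem phase_poly (h : ℝ → ℝ) (hh : ContDiff ℝ ∞ h) (hper : ∀ x, h (x + 2 * π) = h x + 2 * π)
    (hpos : ∀ x, 0 < deriv h x) (r : ℝ → ℂ) (hr : ContDiff ℝ ∞ r) (rper : ∀ x, r (x + 2 * π) = r x)
    (F : Polynomial ℂ) (hF : F.coeff 0 = 0) (ε : ℝ) (hε : 0 < ε) :
    ∃ N0 : ℕ, ∀ N : ℕ, N0 ≤ N → ∃ P : Polynomial ℂ, P.coeff 0 = 0 ∧ P.coeff 1 = 0 ∧
      ∀ z : ℝ, ‖P.eval (Complex.exp (Complex.I * (h z : ℂ)))
        - r z * F.eval (Complex.exp (Complex.I * ((N : ℂ) * (z : ℂ))))‖ ≤ ε := by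
  classical
  set S : ℝ := ∑ j ∈ F.support, ‖F.coeff j‖ with hS
  have hS0 : 0 ≤ S := Finset.sum_nonneg fun _ _ => norm_nonneg _
  obtain ⟨N0, hN0⟩ := phase_lemma h hh hper hpos r hr rper 2 (ε / (1 + S)) (by positivity)
  refine ⟨N0, fun N hN => ?_⟩
  have hj : ∀ j ∈ F.support, N0 ≤ j * N := by
    intro j hj
    have hj0 : j ≠ 0 := by
      rintro rfl
      exact (Polynomial.mem_support_iff.1 hj) hF
    calc N0 ≤ N := hN
      _ = 1 * N := (one_mul _).symm
      _ ≤ j * N := Nat.mul_le_mul_right _ (Nat.one_le_iff_ne_zero.2 hj0)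
  choose! Pf hPf using fun (j : ℕ) (hj : N0 ≤ j * N) => hN0 (j * N) hj
  refine ⟨∑ j ∈ F.support, Polynomial.C (F.coeff j) * Pf j, ?_, ?_, fun z => ?_⟩
  · rw [Polynomial.finset_sum_coeff]
    refine Finset.sum_eq_zero fun j hjs => ?_
    rw [Polynomial.coeff_C_mul, (hPf j (hj j hjs)).1 0 (by norm_num), mul_zero]
  · rw [Polynomial.finset_sum_coeff]
    refine Finset.sum_eq_zero fun j hjs => ?_
    rw [Polynomial.coeff_C_mul, (hPf j (hj j hjs)).1 1 (by norm_num), mul_zero]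
  · rw [Polynomial.eval_finset_sum, Polynomial.eval_eq_sum (p := F), Polynomial.sum, Finset.mul_sum,
      ← Finset.sum_sub_distrib]
    calc _ ≤ ∑ j ∈ F.support, ‖F.coeff j‖ * (ε / (1 + S)) := by
          refine norm_sum_le_of_le _ fun j hjs => ?_
          have h1 := (hPf j (hj j hjs)).2 z
          have e1 : Complex.exp (Complex.I * ((N : ℂ) * (z : ℂ))) ^ j
              = Complex.exp (Complex.I * (((j * N : ℕ) : ℂ) * (z : ℂ))) := by
            rw [← Complex.exp_nat_mul]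
            congr 1
            push_cast
            ring
          rw [Polynomial.eval_mul, Polynomial.eval_C, e1]
          calc _ = ‖F.coeff j * ((Pf j).eval (Complex.exp (Complex.I * (h z : ℂ)))
                - r z * Complex.exp (Complex.I * (((j * N : ℕ) : ℂ) * (z : ℂ))))‖ := by
                congr 1; ring
            _ ≤ _ := by
                rw [norm_mul]
                exact mul_le_mul_of_nonneg_left h1 (norm_nonneg _)
      _ = S * (ε / (1 + S)) := by rw [← Finset.sum_mul]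
      _ ≤ ε := by
          rw [mul_div_assoc', div_le_iff₀ (by positivity)]
          nlinarith

/-- `r(z) G(e^{-iNz})` is nearly a polynomial in `e^{-iz}`. -/
theorem phase_poly_neg (r : ℝ → ℂ) (hr : ContDiff ℝ ∞ r) (rper : ∀ x, r (x + 2 * π) = r x)
    (G : Polynomial ℂ) (hG : G.coeff 0 = 0) (ε : ℝ) (hε : 0 < ε) :
    ∃ N0 : ℕ, ∀ N : ℕ, N0 ≤ N → ∃ Q : Polynomial ℂ, Q.coeff 0 = 0 ∧
      ∀ z : ℝ, ‖Q.eval (Complex.exp (-(Complex.I * (z : ℂ))))
        - r z * G.eval (Complex.exp (-(Complex.I * ((N : ℂ) * (z : ℂ)))))‖ ≤ ε := by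
  obtain ⟨N0, hN0⟩ := phase_poly (fun z => z) contDiff_id (fun x => rfl) (fun x => by simp)
    (fun z => conj (r z)) (Complex.conjCLE.contDiff.comp hr) (fun x => by simp only [rper])
    (G.map (starRingEnd ℂ)) (by simp [Polynomial.coeff_map, hG]) ε hε
  refine ⟨N0, fun N hN => ?_⟩
  obtain ⟨P, hP0, -, hP⟩ := hN0 N hN
  refine ⟨P.map (starRingEnd ℂ), by simp [Polynomial.coeff_map, hP0], fun z => ?_⟩
  have e1 : Complex.exp (-(Complex.I * (z : ℂ))) = conj (Complex.exp (Complex.I * (z : ℂ))) := by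
    rw [← Complex.exp_conj]; simp
  have e2 : Complex.exp (-(Complex.I * ((N : ℂ) * (z : ℂ))))
      = conj (Complex.exp (Complex.I * ((N : ℂ) * (z : ℂ)))) := by
    rw [← Complex.exp_conj]; simp
  have e3 : G.eval (conj (Complex.exp (Complex.I * ((N : ℂ) * (z : ℂ)))))
      = conj ((G.map (starRingEnd ℂ)).eval (Complex.exp (Complex.I * ((N : ℂ) * (z : ℂ))))) := by
    rw [← eval_conj, Polynomial.map_map]
    simp
  have h1 := hP z
  rw [e1, e2, eval_conj, e3]
  rw [← RCLike.norm_conj] at h1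
  simpa using h1

end Pool.Agent.TH244.L
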