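import Mathlib
import Pool.Agent.TH244.L.Base

set_option autoImplicit false

/-!
# The parameters of the construction
-/

namespace Pool.Agent.TH244.L

open MeasureTheory Set Filter Topology
open scoped Real ContDiff

/-- The cutoff `X`, the seed `E`, the exponent `p` and the constant `K`. -/
structure Par where
  X : ℝ → ℝ
  E : ℝ → ℂ
  κ : ℝ
  g : ℝ
  p : ℝ
  K : ℝ
  X_smooth : ContDiff ℝ ∞ X
  X_per : ∀ x, X (x + 2 * π) = X x
  X_nonneg : ∀ x, 0 ≤ X x
  X_le : ∀ x, X x ≤ 1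
  g_pos : 0 < g
  X_gap : ∀ x, |x - π| < g → X x = 0
  E_smooth : ContDiff ℝ ∞ E
  E_per : ∀ x, E (x + 2 * π) = E x
  E_supp : ∀ x, E x ≠ 0 → X x = 1
  κ_pos : 0 < κ
  κ_lt : κ < 1
  E_le : ∀ x, ‖E x‖ ≤ κ
  E_ell : ell E = 1
  E_ell1 : ell1 E ≠ 0
  p_gt : 1 < p
  K_nonneg : 0 ≤ K
  conv : ∀ c, 0 ≤ c → c ≤ 1 →
    (1 / (2 * π)) * ∫ θ in (0:ℝ)..(2 * π), (1 + c * deriv eta θ) ^ p * (1 + K * c * X θ)
      ≤ 1 + K * c

/-- The choice of the exponent. -/
theorem conv_exists (X : ℝ → ℝ) (hX : Continuous X) (h0 : ∀ x, 0 ≤ X x) (h1 : ∀ x, X x ≤ 1)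
    (hπ : X π = 0) : ∃ p K : ℝ, 1 < p ∧ 0 ≤ K ∧ ∀ c, 0 ≤ c → c ≤ 1 →
    (1 / (2 * π)) * ∫ θ in (0:ℝ)..(2 * π), (1 + c * deriv eta θ) ^ p * (1 + K * c * X θ)
      ≤ 1 + K * c := by
  have hπ0 := Real.pi_pos
  have h2π : (0:ℝ) < 2 * π := by positivity
  have hπm : π ∈ Icc (0:ℝ) (2 * π) := ⟨hπ0.le, by linarith⟩
  have hu0 : ∀ θ, 0 < 1 + deriv eta θ := fun θ => by linarith [deriv_eta_ge θ]
  have hu3 : ∀ θ, 1 + deriv eta θ ≤ 3 := fun θ => by linarith [deriv_eta_le θ]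
  have huc : Continuous fun θ => 1 + deriv eta θ := continuous_const.add deriv_eta_cont
  -- the two means
  have i1 : ∫ θ in (0:ℝ)..(2 * π), (1 + deriv eta θ) = 2 * π := by
    have := intervalIntegral.integral_eq_sub_of_hasDerivAt (a := 0) (b := 2 * π)
      (fun θ _ => uu_hasDeriv θ) (huc.intervalIntegrable _ _)
    rw [this, show (2 * π) = 0 + 2 * π by ring, uu_per]
    ring
  have m1 : ∫ θ in (0:ℝ)..(2 * π), X θ < 2 * π := by
    have := intervalIntegral.integral_lt_integral_of_continuousOn_of_le_of_exists_lt h2π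
      hX.continuousOn (continuousOn_const (c := (1:ℝ))) (fun x _ => h1 x)
      ⟨π, hπm, by rw [hπ]; norm_num⟩
    simpa using this
  have m2 : ∫ θ in (0:ℝ)..(2 * π), X θ * (1 + deriv eta θ) < 2 * π := by
    have := intervalIntegral.integral_lt_integral_of_continuousOn_of_le_of_exists_lt h2π
      (hX.mul huc).continuousOn huc.continuousOn
      (fun x _ => mul_le_of_le_one_left (hu0 x).le (h1 x)) ⟨π, hπm, by
        simp only [Pi.mul_apply]; rw [hπ, zero_mul]; exact hu0 π⟩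
    rwa [i1] at this
  set A1 := (1 / (2 * π)) * ∫ θ in (0:ℝ)..(2 * π), X θ with hA1
  set A2 := (1 / (2 * π)) * ∫ θ in (0:ℝ)..(2 * π), X θ * (1 + deriv eta θ) with hA2
  have a1 : A1 < 1 := by
    rw [hA1, one_div, inv_mul_lt_iff₀ h2π]; linarith
  have a2 : A2 < 1 := by
    rw [hA2, one_div, inv_mul_lt_iff₀ h2π]; linarith
  have a10 : 0 ≤ A1 := by
    rw [hA1]
    exact mul_nonneg (by positivity) (intervalIntegral.integral_nonneg h2π.le fun x _ => h0 x)
  set μ := max A1 A2 with hμ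
  have hμ1 : μ < 1 := max_lt a1 a2
  have hμ0 : 0 ≤ μ := a10.trans (le_max_left _ _)
  obtain ⟨p, hp1, hp⟩ : ∃ p : ℝ, 1 < p ∧ (3:ℝ) ^ (p - 1) * μ < 1 := by
    have hc : ContinuousAt (fun p : ℝ => (3:ℝ) ^ (p - 1) * μ) 1 := by
      refine ContinuousAt.mul ?_ continuousAt_const
      exact (Real.continuousAt_const_rpow (by norm_num)).comp (by fun_prop)
    have h2 : ∀ᶠ p in 𝓝 (1:ℝ), (3:ℝ) ^ (p - 1) * μ < 1 := by
      apply hc.eventually_lt continuousAt_const
      simpa using hμ1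
    have h3 : ∀ᶠ p in 𝓝[>] (1:ℝ), (3:ℝ) ^ (p - 1) * μ < 1 := h2.filter_mono nhdsWithin_le_nhds
    obtain ⟨p, hp, hp'⟩ := (h3.and self_mem_nhdsWithin).exists
    exact ⟨p, hp', hp⟩
  set σ := (3:ℝ) ^ (p - 1) * μ with hσ
  have h31 : (1:ℝ) ≤ 3 ^ (p - 1) := Real.one_le_rpow (by norm_num) (by linarith)
  have hσ1 : A1 ≤ σ := by
    calc A1 ≤ μ := le_max_left _ _
      _ = 1 * μ := (one_mul _).symm
      _ ≤ σ := mul_le_mul_of_nonneg_right h31 hμ0
  have hσ2 : 3 ^ (p - 1) * A2 ≤ σ :=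
    mul_le_mul_of_nonneg_left (le_max_right _ _) (by positivity)
  set K := (3:ℝ) ^ p / (1 - σ) with hK
  have hK0 : 0 ≤ K := div_nonneg (by positivity) (by linarith)
  have hKσ : K * (1 - σ) = 3 ^ p := div_mul_cancel₀ _ (by linarith)
  refine ⟨p, K, hp1, hK0, fun c hc0 hc1 => ?_⟩
  -- pointwise bound
  have hpt : ∀ θ, (1 + c * deriv eta θ) ^ p * (1 + K * c * X θ) ≤
      ((1 - c) + c * 3 ^ p) + (K * c * (1 - c)) * X θ
        + (K * c ^ 2 * 3 ^ (p - 1)) * (X θ * (1 + deriv eta θ)) := by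
    intro θ
    have hup : (1 + deriv eta θ) ^ p ≤ 3 ^ p :=
      Real.rpow_le_rpow (hu0 θ).le (hu3 θ) (by linarith)
    have hup' : (1 + deriv eta θ) ^ p ≤ 3 ^ (p - 1) * (1 + deriv eta θ) := by
      have e : (1 + deriv eta θ) ^ p = (1 + deriv eta θ) ^ (p - 1) * (1 + deriv eta θ) := by
        rw [← Real.rpow_add_one (hu0 θ).ne']; congr 1; ring
      rw [e]
      exact mul_le_mul_of_nonneg_right
        (Real.rpow_le_rpow (hu0 θ).le (hu3 θ) (by linarith)) (hu0 θ).le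
    have hcv : (1 + c * deriv eta θ) ^ p ≤ (1 - c) + c * (1 + deriv eta θ) ^ p := by
      have h1m : (1:ℝ) ∈ Ici (0:ℝ) := by simp
      have h2m : 1 + deriv eta θ ∈ Ici (0:ℝ) := (hu0 θ).le
      have h3m : 0 ≤ 1 - c := by linarith
      have := (convexOn_rpow hp1.le).2 h1m h2m h3m hc0 (by ring)
      simp only [smul_eq_mul, Real.one_rpow, mul_one] at this
      rwa [show 1 - c + c * (1 + deriv eta θ) = 1 + c * deriv eta θ by ring] at this
    have hX0 := h0 θ
    have hKX : 0 ≤ K * c * X θ := by positivity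
    calc (1 + c * deriv eta θ) ^ p * (1 + K * c * X θ)
        ≤ ((1 - c) + c * (1 + deriv eta θ) ^ p) * (1 + K * c * X θ) :=
          mul_le_mul_of_nonneg_right hcv (by linarith)
      _ = (1 - c) + c * (1 + deriv eta θ) ^ p + K * c * (1 - c) * X θ
          + K * c ^ 2 * X θ * (1 + deriv eta θ) ^ p := by ring
      _ ≤ (1 - c) + c * 3 ^ p + K * c * (1 - c) * X θ
          + K * c ^ 2 * X θ * (3 ^ (p - 1) * (1 + deriv eta θ)) := by gcongr
      _ = _ := by ring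
  have cint : Continuous fun θ => (1 + c * deriv eta θ) ^ p * (1 + K * c * X θ) := by
    refine Continuous.mul ?_ (by fun_prop)
    exact (continuous_const.add (continuous_const.mul deriv_eta_cont)).rpow_const fun x =>
      Or.inr (by linarith)
  have c1 : Continuous fun θ => (K * c * (1 - c)) * X θ := by fun_prop
  have c2 : Continuous fun θ => (K * c ^ 2 * 3 ^ (p - 1)) * (X θ * (1 + deriv eta θ)) :=
    continuous_const.mul (hX.mul huc)
  have hI : ∫ θ in (0:ℝ)..(2 * π), (1 + c * deriv eta θ) ^ p * (1 + K * c * X θ) ≤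
      ∫ θ in (0:ℝ)..(2 * π), (((1 - c) + c * 3 ^ p) + (K * c * (1 - c)) * X θ
        + (K * c ^ 2 * 3 ^ (p - 1)) * (X θ * (1 + deriv eta θ))) :=
    intervalIntegral.integral_mono_on h2π.le (cint.intervalIntegrable _ _)
      (((continuous_const.add c1).add c2).intervalIntegrable _ _) (fun θ _ => hpt θ)
  have j1 : IntervalIntegrable (fun θ => ((1 - c) + c * 3 ^ p) + (K * c * (1 - c)) * X θ)
      volume 0 (2 * π) := (continuous_const.add c1).intervalIntegrable _ _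
  have hI2 : (1 / (2 * π)) * ∫ θ in (0:ℝ)..(2 * π), (((1 - c) + c * 3 ^ p)
        + (K * c * (1 - c)) * X θ
        + (K * c ^ 2 * 3 ^ (p - 1)) * (X θ * (1 + deriv eta θ)))
      = ((1 - c) + c * 3 ^ p) + (K * c * (1 - c)) * A1 + (K * c ^ 2 * 3 ^ (p - 1)) * A2 := by
    rw [intervalIntegral.integral_add j1 (c2.intervalIntegrable _ _),
      intervalIntegral.integral_add intervalIntegrable_const (c1.intervalIntegrable _ _),
      intervalIntegral.integral_const_mul, intervalIntegral.integral_const_mul,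
      intervalIntegral.integral_const, hA1, hA2, smul_eq_mul]
    field_simp
    ring
  calc _ ≤ (1 / (2 * π)) * ∫ θ in (0:ℝ)..(2 * π), (((1 - c) + c * 3 ^ p)
        + (K * c * (1 - c)) * X θ
        + (K * c ^ 2 * 3 ^ (p - 1)) * (X θ * (1 + deriv eta θ))) :=
        mul_le_mul_of_nonneg_left hI (by positivity)
    _ = ((1 - c) + c * 3 ^ p) + (K * c * (1 - c)) * A1 + (K * c ^ 2 * 3 ^ (p - 1)) * A2 := hI2
    _ = ((1 - c) + c * 3 ^ p) + (K * c * (1 - c)) * A1 + (K * c ^ 2) * (3 ^ (p - 1) * A2) := by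
        ring
    _ ≤ ((1 - c) + c * 3 ^ p) + (K * c * (1 - c)) * σ + (K * c ^ 2) * σ := by
        have : 0 ≤ 1 - c := by linarith
        gcongr
    _ = (1 - c) + c * (K * (1 - σ)) + K * c * σ := by rw [hKσ]; ring
    _ ≤ 1 + K * c := by nlinarith

end Pool.Agent.TH244.L
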