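import Mathlib
import Pool.Agent.TH244.L.Par
import Pool.Agent.TH244.L.Jobs

set_option autoImplicit false

/-!
# The modification `U(x) = x + χ(x) η(Nx)/N` and the reverse Hoelder inequality
-/

namespace Pool.Agent.TH244.L

open MeasureTheory Set Filter Topology
open scoped Real ContDiff

/-- The modification at frequency `N`. -/
noncomputable def UU (χ : ℝ → ℝ) (N : ℕ) (x : ℝ) : ℝ := x + χ x * eta (N * x) / N

theorem per_nat {α : Type*} {f : ℝ → α} (hp : ∀ x, f (x + 2 * π) = f x) (N : ℕ) (x : ℝ) :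
    f (N * (x + 2 * π)) = f (N * x) := by
  have hper : Function.Periodic f (2 * π) := hp
  rw [mul_add]
  exact hper.nat_mul N (N * x)

theorem UU_smooth {χ : ℝ → ℝ} (hχ : ContDiff ℝ ∞ χ) (N : ℕ) : ContDiff ℝ ∞ (UU χ N) := by
  unfold UU
  refine contDiff_id.add ((hχ.mul ?_).div_const _)
  exact eta_smooth.comp (contDiff_const.mul contDiff_id)

theorem UU_per {χ : ℝ → ℝ} (hp : ∀ x, χ (x + 2 * π) = χ x) (N : ℕ) (x : ℝ) :
    UU χ N (x + 2 * π) = UU χ N x + 2 * π := by
  unfold UU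
  rw [hp, per_nat eta_per]
  ring

theorem UU_abs {χ : ℝ → ℝ} (h0 : ∀ x, 0 ≤ χ x) (h1 : ∀ x, χ x ≤ 1) (N : ℕ) (x : ℝ) :
    |UU χ N x - x| ≤ π / N := by
  unfold UU
  rw [add_sub_cancel_left, abs_div, abs_mul, abs_of_nonneg (h0 x), Nat.abs_cast]
  have h2 : χ x * |eta (N * x)| ≤ π := by
    calc χ x * |eta (N * x)| ≤ 1 * π :=
          mul_le_mul (h1 x) (eta_abs _) (abs_nonneg _) zero_le_one
      _ = π := one_mul _
  gcongr

theorem UU_hasDeriv {χ : ℝ → ℝ} (hχ : ContDiff ℝ ∞ χ) {N : ℕ} (hN : 0 < N) (x : ℝ) :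
    HasDerivAt (UU χ N) (1 + χ x * deriv eta (N * x) + deriv χ x * eta (N * x) / N) x := by
  have hN' : (N : ℝ) ≠ 0 := by positivity
  have h1 : HasDerivAt χ (deriv χ x) x :=
    (hχ.differentiable (by norm_num)).differentiableAt.hasDerivAt
  have h2 : HasDerivAt (fun x => eta (N * x)) (deriv eta (N * x) * N) x := by
    have h3 : HasDerivAt (fun x : ℝ => (N : ℝ) * x) (N : ℝ) x := by
      simpa using (hasDerivAt_id x).const_mul (N : ℝ)
    have h4 : HasDerivAt eta (deriv eta (N * x)) (N * x) :=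
      (eta_smooth.differentiable (by norm_num)).differentiableAt.hasDerivAt
    exact h4.comp x h3
  have h5 := (hasDerivAt_id x).add ((h1.mul h2).div_const (N : ℝ))
  refine HasDerivAt.congr_deriv (f := UU χ N) h5 ?_
  field_simp
  ring

theorem tendsto_pi_div : Tendsto (fun N : ℕ => π / (N : ℝ)) atTop (𝓝 0) :=
  tendsto_const_div_atTop_nhds_zero_nat π

theorem ev_small {δ : ℝ} (hδ : 0 < δ) : ∀ᶠ N : ℕ in atTop, π / (N : ℝ) ≤ δ := by
  have h := tendsto_pi_div.eventually (gt_mem_nhds hδ)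
  filter_upwards [h] with N hN
  exact hN.le

/-- The local factor. -/
theorem factor_bounds {c : ℝ} (h0 : 0 ≤ c) (h1 : c ≤ 1) (θ : ℝ) :
    1 / 3 ≤ 1 + c * deriv eta θ ∧ 1 + c * deriv eta θ ≤ 3 := by
  have h2 := deriv_eta_ge θ
  have h3 := deriv_eta_le θ
  constructor
  · nlinarith
  · nlinarith

/-- The derivative of `h ∘ U`. -/
theorem deriv_bounds {h χ : ℝ → ℝ} (hh : ContDiff ℝ ∞ h) (hper : ∀ x, h (x + 2 * π) = h x + 2 * π)
    (hpos : ∀ x, 0 < deriv h x) (hχ : ContDiff ℝ ∞ χ) (χper : ∀ x, χ (x + 2 * π) = χ x)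
    (h0 : ∀ x, 0 ≤ χ x) (h1 : ∀ x, χ x ≤ 1) {t : ℝ} (ht : 0 < t) (ht1 : t ≤ 1) :
    ∀ᶠ N : ℕ in atTop, ∀ x,
      deriv (h ∘ UU χ N) x = deriv h (UU χ N x)
        * (1 + χ x * deriv eta (N * x) + deriv χ x * eta (N * x) / N) ∧
      (1 - t) * (deriv h x * (1 + χ x * deriv eta (N * x))) ≤ deriv (h ∘ UU χ N) x ∧
      deriv (h ∘ UU χ N) x ≤ (1 + t) * (deriv h x * (1 + χ x * deriv eta (N * x))) := by
  have hdc : Continuous (deriv h) := hh.continuous_deriv (by norm_num)
  have hdp : ∀ x, deriv h (x + 2 * π) = deriv h x := by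
    intro x
    have e : (fun y => h (y + 2 * π)) = fun y => h y + 2 * π := funext hper
    have e2 : deriv (fun y => h (y + 2 * π)) x = deriv (fun y => h y + 2 * π) x := by rw [e]
    rw [deriv_comp_add_const, deriv_add_const] at e2
    exact e2
  have hχc : Continuous (deriv χ) := hχ.continuous_deriv (by norm_num)
  have hχp : ∀ x, deriv χ (x + 2 * π) = deriv χ x := by
    intro x
    have e : (fun y => χ (y + 2 * π)) = χ := funext χper
    have e2 : deriv (fun y => χ (y + 2 * π)) x = deriv χ x := by rw [e]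
    rw [deriv_comp_add_const] at e2
    exact e2
  obtain ⟨c, hc, hcw⟩ := per_low hdc hdp hpos
  obtain ⟨D, hD, hDχ⟩ := per_bdd hχc hχp
  obtain ⟨δ, hδ, hδw⟩ := per_unif hdc hdp (ε := t / 3 * c) (by positivity)
  filter_upwards [ev_small hδ, ev_small (δ := t / 9 / D) (by positivity), eventually_gt_atTop 0]
    with N hN1 hN2 hN0 x
  have hUd := UU_hasDeriv hχ hN0 x
  have hhd : HasDerivAt h (deriv h (UU χ N x)) (UU χ N x) :=
    (hh.differentiable (by norm_num)).differentiableAt.hasDerivAt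
  have hd := (hhd.comp x hUd).deriv
  refine ⟨hd, ?_⟩
  have hw : |deriv h (UU χ N x) - deriv h x| ≤ t / 3 * c := by
    have := hδw (UU χ N x) x ((UU_abs h0 h1 N x).trans hN1)
    rwa [Real.dist_eq] at this
  rw [abs_le] at hw
  have hcx := hcw x
  have hE : |deriv χ x * eta (N * x) / N| ≤ t / 9 := by
    rw [abs_div, abs_mul, Nat.abs_cast]
    have hN0' : (0:ℝ) < N := by exact_mod_cast hN0
    calc |deriv χ x| * |eta (N * x)| / N ≤ D * π / N := by
          have h3 := hDχ x
          rw [Real.norm_eq_abs] at h3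
          have h4 := eta_abs (N * x)
          gcongr
      _ = D * (π / N) := by ring
      _ ≤ D * (t / 9 / D) := by gcongr
      _ = t / 9 := by field_simp
  rw [abs_le] at hE
  obtain ⟨f1, f2⟩ := factor_bounds (h0 x) (h1 x) (N * x)
  set q := 1 + χ x * deriv eta (N * x) with hq
  set z := deriv χ x * eta (N * x) / N with hz
  set w := deriv h x with hw'
  set w1 := deriv h (UU χ N x) with hw1
  have a1 : w1 ≤ (1 + t / 3) * w := by nlinarith [hw.2]
  have a2 : (1 - t / 3) * w ≤ w1 := by nlinarith [hw.1]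
  have a3 : q + z ≤ (1 + t / 3) * q := by nlinarith [hE.2]
  have a4 : (1 - t / 3) * q ≤ q + z := by nlinarith [hE.1]
  have hw0 : 0 < w := hpos x
  have hw10 : 0 < w1 := hpos _
  have hq0 : 0 < q := by linarith
  have hqz : 0 ≤ q + z := le_trans (mul_nonneg (by linarith) hq0.le) a4
  rw [hd]
  constructor
  · calc (1 - t) * (w * q) ≤ (1 - t / 3) ^ 2 * (w * q) := by
          apply mul_le_mul_of_nonneg_right _ (by positivity)
          nlinarith
      _ = ((1 - t / 3) * w) * ((1 - t / 3) * q) := by ring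
      _ ≤ w1 * (q + z) := by
          apply mul_le_mul a2 a4 (mul_nonneg (by linarith) hq0.le) hw10.le
  · calc w1 * (q + z) ≤ ((1 + t / 3) * w) * ((1 + t / 3) * q) :=
          mul_le_mul a1 a3 hqz (by positivity)
      _ = (1 + t / 3) ^ 2 * (w * q) := by ring
      _ ≤ (1 + t) * (w * q) := by
          apply mul_le_mul_of_nonneg_right _ (by positivity)
          nlinarith

end Pool.Agent.TH244.L
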