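import Mathlib
import Pool.Agent.TH244.L.Mod

set_option autoImplicit false

/-!
# The reverse Hoelder inequality is preserved
-/

namespace Pool.Agent.TH244.L

open MeasureTheory Set Filter Topology
open scoped Real ContDiff

theorem small_t (p : ℝ) {δ : ℝ} (hδ : 0 < δ) :
    ∃ t : ℝ, 0 < t ∧ t < 1 / 19 ∧ (1 + t) ^ (p + 1) * ((1 - t)⁻¹) ^ p ≤ 1 + δ := by
  have hc : ContinuousAt (fun t : ℝ => (1 + t) ^ (p + 1) * ((1 - t)⁻¹) ^ p) 0 := by
    refine ContinuousAt.mul ?_ ?_
    · exact ContinuousAt.rpow_const (by fun_prop) (Or.inl (by norm_num))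
    · refine ContinuousAt.rpow_const ?_ (Or.inl (by norm_num))
      exact ContinuousAt.inv₀ (by fun_prop) (by norm_num)
  have h1 : ∀ᶠ t in 𝓝 (0:ℝ), (1 + t) ^ (p + 1) * ((1 - t)⁻¹) ^ p < 1 + δ := by
    apply hc.eventually_lt continuousAt_const
    simp [hδ]
  have h2 : ∀ᶠ t in 𝓝 (0:ℝ), t < 1 / 19 := gt_mem_nhds (by norm_num)
  have h3 := ((h1.and h2).filter_mono (nhdsWithin_le_nhds (s := Ioi (0:ℝ)))).and self_mem_nhdsWithin
  obtain ⟨t, ⟨ht1, ht2⟩, ht3⟩ := h3.exists
  exact ⟨t, ht3, ht2, ht1.le⟩

theorem rh_step (S : Par) {h χ : ℝ → ℝ} (hh : ContDiff ℝ ∞ h)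
    (hper : ∀ x, h (x + 2 * π) = h x + 2 * π)
    (hpos : ∀ x, 0 < deriv h x) (hχ : ContDiff ℝ ∞ χ) (χper : ∀ x, χ (x + 2 * π) = χ x)
    (h0 : ∀ x, 0 ≤ χ x) (h1 : ∀ x, χ x ≤ 1) {A : ℝ} (hA : (1 + S.K) * 100 ^ S.p ≤ A)
    (rh : ∀ a b, a < b → (∫ x in a..b, (deriv h x) ^ S.p * (1 + S.K * χ x)) * (b - a) ^ (S.p - 1)
      ≤ A * (h b - h a) ^ S.p)
    (slow : ∃ ℓ : ℝ, 0 < ℓ ∧ ∀ x y, |x - y| ≤ ℓ → deriv h x ≤ 10 * deriv h y)
    {δ : ℝ} (hδ : 0 < δ) :
    ∀ᶠ N : ℕ in atTop, (∀ x, 0 < deriv (h ∘ UU χ N) x) ∧
      (∃ ℓ : ℝ, 0 < ℓ ∧ ∀ x y, |x - y| ≤ ℓ →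
        deriv (h ∘ UU χ N) x ≤ 10 * deriv (h ∘ UU χ N) y) ∧
      ∀ a b, a < b →
      (∫ x in a..b, (deriv (h ∘ UU χ N) x) ^ S.p * (1 + S.K * (χ x * S.X (N * x))))
        * (b - a) ^ (S.p - 1) ≤ ((1 + δ) * A) * ((h ∘ UU χ N) b - (h ∘ UU χ N) a) ^ S.p := by
  have hp1 := S.p_gt
  have hp0 : 0 < S.p := by linarith
  have hK := S.K_nonneg
  obtain ⟨t, ht0, ht19, htδ⟩ := small_t S.p hδ
  have ht1 : t ≤ 1 := by linarith
  have hA0 : 0 < A := lt_of_lt_of_le (by positivity) hA
  obtain ⟨ℓ, hℓ, hsl⟩ := slow
  have hdc : Continuous (deriv h) := hh.continuous_deriv (by norm_num)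
  have hdp : ∀ x, deriv h (x + 2 * π) = deriv h x := by
    intro x
    have e : (fun y => h (y + 2 * π)) = fun y => h y + 2 * π := funext hper
    have e2 : deriv (fun y => h (y + 2 * π)) x = deriv (fun y => h y + 2 * π) x := by rw [e]
    rw [deriv_comp_add_const, deriv_add_const] at e2
    exact e2
  obtain ⟨c, hc, hcw⟩ := per_low hdc hdp hpos
  obtain ⟨C, hC, hCw⟩ := per_bdd hdc hdp
  -- the homogenisation
  set G : ℝ → ℝ → ℝ := fun x θ =>
    (deriv h x) ^ S.p * ((1 + χ x * deriv eta θ) ^ S.p * (1 + S.K * χ x * S.X θ)) with hG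
  have hGc : Continuous (Function.uncurry G) := by
    rw [hG]
    have c1 : Continuous fun q : ℝ × ℝ => (deriv h q.1) ^ S.p :=
      (hdc.comp continuous_fst).rpow_const fun q => Or.inr hp0.le
    have c2 : Continuous fun q : ℝ × ℝ => (1 + χ q.1 * deriv eta q.2) ^ S.p :=
      (continuous_const.add ((hχ.continuous.comp continuous_fst).mul
        (deriv_eta_cont.comp continuous_snd))).rpow_const fun q => Or.inr hp0.le
    have c3 : Continuous fun q : ℝ × ℝ => 1 + S.K * χ q.1 * S.X q.2 :=
      continuous_const.add ((continuous_const.mul (hχ.continuous.comp continuous_fst)).mul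
        (S.X_smooth.continuous.comp continuous_snd))
    exact c1.mul (c2.mul c3)
  obtain ⟨N1, hN1⟩ := homog G hGc (fun x θ => by simp only [hG, hdp, χper])
    (fun x θ => by simp only [hG, deriv_eta_per, S.X_per]) (t * c ^ S.p) ℓ (by positivity) hℓ
  filter_upwards [deriv_bounds hh hper hpos hχ χper h0 h1 ht0 ht1, eventually_ge_atTop N1,
    ev_small (δ := t * c * ℓ / (2 * C)) (by positivity), eventually_gt_atTop 0] with
    N hN hNN1 hNs hN0
  have hUc : Continuous (UU χ N) := (UU_smooth hχ N).continuous
  have hcomp : ContDiff ℝ ∞ (h ∘ UU χ N) := hh.comp (UU_smooth hχ N)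
  have hdc' : Continuous (deriv (h ∘ UU χ N)) := hcomp.continuous_deriv (by norm_num)
  have hdp' : ∀ x, deriv (h ∘ UU χ N) (x + 2 * π) = deriv (h ∘ UU χ N) x := by
    intro x
    have e : (fun y => (h ∘ UU χ N) (y + 2 * π)) = fun y => (h ∘ UU χ N) y + 2 * π := by
      funext y
      simp only [Function.comp_apply, UU_per χper, hper]
    have e2 : deriv (fun y => (h ∘ UU χ N) (y + 2 * π)) x
        = deriv (fun y => (h ∘ UU χ N) y + 2 * π) x := by rw [e]
    rw [deriv_comp_add_const, deriv_add_const] at e2
    exact e2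
  set w' := deriv (h ∘ UU χ N) with hw'
  have hw'pos : ∀ x, 0 < w' x := by
    intro x
    refine lt_of_lt_of_le ?_ (hN x).2.1
    have := (factor_bounds (h0 x) (h1 x) (N * x)).1
    have h3 := hpos x
    have h4 : 0 < 1 + χ x * deriv eta (N * x) := by linarith
    have h5 : 0 < 1 - t := by linarith
    positivity
  have hmono : ∀ a b, a < b → 0 < (h ∘ UU χ N) b - (h ∘ UU χ N) a := by
    intro a b hab
    have : StrictMono (h ∘ UU χ N) := strictMono_of_deriv_pos hw'pos
    linarith [this hab]
  refine ⟨hw'pos, ?_, ?_⟩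
  · -- slowness at a small scale
    obtain ⟨c', hc', hcw'⟩ := per_low hdc' hdp' hw'pos
    obtain ⟨ℓ', hℓ', hu⟩ := per_unif hdc' hdp' (ε := c') hc'
    refine ⟨ℓ', hℓ', fun x y hxy => ?_⟩
    have h3 := hu x y hxy
    rw [Real.dist_eq, abs_le] at h3
    have h4 := hcw' y
    linarith [h3.2]
  · intro a b hab
    have hba : 0 < b - a := by linarith
    set V' := ∫ x in a..b, (w' x) ^ S.p * (1 + S.K * (χ x * S.X (N * x))) with hV'
    have hXc : Continuous fun x : ℝ => S.X (N * x) :=
      S.X_smooth.continuous.comp (continuous_const.mul continuous_id)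
    have cV' : Continuous fun x => (w' x) ^ S.p * (1 + S.K * (χ x * S.X (N * x))) :=
      (hdc'.rpow_const fun q => Or.inr hp0.le).mul
        (continuous_const.add (continuous_const.mul (hχ.continuous.mul hXc)))
    rcases le_total (b - a) ℓ with hshort | hlong
    · -- short intervals
      obtain ⟨y, hy, hy2⟩ := exists_deriv_eq_slope (h ∘ UU χ N) hab
        hcomp.continuous.continuousOn (hcomp.differentiable (by norm_num)).differentiableOn
      set m := w' y with hm
      have hm0 : 0 < m := hw'pos y
      have hW' : (h ∘ UU χ N) b - (h ∘ UU χ N) a = m * (b - a) := by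
        rw [hm, hw', hy2]; field_simp
      have hpt : ∀ x ∈ Icc a b, (w' x) ^ S.p * (1 + S.K * (χ x * S.X (N * x)))
          ≤ (100 * m) ^ S.p * (1 + S.K) := by
        intro x hx
        have hxy : |x - y| ≤ ℓ := by
          rw [abs_le]
          exact ⟨by linarith [hx.1, hy.2], by linarith [hx.2, hy.1]⟩
        have s1 := hsl x y hxy
        have s2 := (hN x).2.2
        have s3 := (hN y).2.1
        have f1 := (factor_bounds (h0 x) (h1 x) (N * x)).2
        have f2 := (factor_bounds (h0 y) (h1 y) (N * y)).1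
        have w1 := hpos x
        have w2 := hpos y
        have s4 : w' x ≤ (1 + t) * (deriv h x * 3) := s2.trans (by gcongr)
        have s5 : (1 - t) * (deriv h y * (1 / 3)) ≤ w' y := by
          refine le_trans ?_ s3
          have : 0 ≤ 1 - t := by linarith
          gcongr
        have s6 : w' x ≤ 100 * m := by
          have e1 : w' x ≤ (1 + t) * (10 * deriv h y * 3) := s4.trans (by gcongr)
          have e2 : (1 + t) * 9 ≤ (1 - t) * 10 := by linarith
          have e3 : (1 + t) * (10 * deriv h y * 3) ≤ 100 * ((1 - t) * (deriv h y * (1 / 3))) := by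
            nlinarith
          calc w' x ≤ _ := e1
            _ ≤ _ := e3
            _ ≤ 100 * w' y := by gcongr
            _ = 100 * m := rfl
        have s7 : χ x * S.X (N * x) ≤ 1 := by
          calc χ x * S.X (N * x) ≤ 1 * 1 :=
                mul_le_mul (h1 x) (S.X_le _) (S.X_nonneg _) zero_le_one
            _ = 1 := one_mul _
        have s8 : 0 ≤ χ x * S.X (N * x) := mul_nonneg (h0 x) (S.X_nonneg _)
        have s9 : 1 + S.K * (χ x * S.X (N * x)) ≤ 1 + S.K := by nlinarith
        exact mul_le_mul (Real.rpow_le_rpow (hw'pos x).le s6 hp0.le) s9 (by positivity)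
          (by positivity)
      have hVle : V' ≤ (b - a) * ((100 * m) ^ S.p * (1 + S.K)) := by
        have := intervalIntegral.integral_mono_on hab.le (cV'.intervalIntegrable _ _)
          (intervalIntegrable_const (μ := volume) (a := a) (b := b)
            (c := (100 * m) ^ S.p * (1 + S.K))) hpt
        rwa [intervalIntegral.integral_const, smul_eq_mul] at this
      rw [hW']
      calc V' * (b - a) ^ (S.p - 1)
          ≤ ((b - a) * ((100 * m) ^ S.p * (1 + S.K))) * (b - a) ^ (S.p - 1) := by gcongr
        _ = ((1 + S.K) * 100 ^ S.p) * (m * (b - a)) ^ S.p := by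
            rw [Real.mul_rpow (by norm_num) hm0.le, Real.mul_rpow hm0.le hba.le]
            have : (b - a) ^ S.p = (b - a) ^ (S.p - 1) * (b - a) := by
              rw [← Real.rpow_add_one hba.ne']; congr 1; ring
            rw [this]; ring
        _ ≤ A * (m * (b - a)) ^ S.p := by gcongr
        _ ≤ ((1 + δ) * A) * (m * (b - a)) ^ S.p := by
            gcongr
            nlinarith
    · -- long intervals
      have hV1 : V' ≤ (1 + t) ^ S.p * ∫ x in a..b, G x (N * x) := by
        rw [← intervalIntegral.integral_const_mul, hV']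
        have cG : Continuous fun x : ℝ => G x (N * x) :=
          hGc.comp (continuous_id.prodMk (continuous_const.mul continuous_id))
        refine intervalIntegral.integral_mono_on hab.le (cV'.intervalIntegrable _ _)
          ((continuous_const.mul cG).intervalIntegrable _ _) fun x _ => ?_
        have s2 := (hN x).2.2
        have f1 := (factor_bounds (h0 x) (h1 x) (N * x)).1
        have w1 := hpos x
        have s8 : 0 ≤ χ x * S.X (N * x) := mul_nonneg (h0 x) (S.X_nonneg _)
        have f3 : 0 ≤ 1 + χ x * deriv eta (N * x) := by linarith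
        simp only [hG]
        calc (w' x) ^ S.p * (1 + S.K * (χ x * S.X (N * x)))
            ≤ ((1 + t) * (deriv h x * (1 + χ x * deriv eta (N * x)))) ^ S.p
              * (1 + S.K * (χ x * S.X (N * x))) := by
              apply mul_le_mul_of_nonneg_right _ (by positivity)
              exact Real.rpow_le_rpow (hw'pos x).le s2 hp0.le
          _ = _ := by
              rw [Real.mul_rpow (by positivity) (by positivity), Real.mul_rpow w1.le f3]
              ring
      have hV2 : ∫ x in a..b, G x (N * x) ≤
          (∫ x in a..b, (1 / (2 * π)) * ∫ θ in (0:ℝ)..(2 * π), G x θ) + t * c ^ S.p * (b - a) := by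
        have := hN1 N hNN1 a b hlong
        rw [abs_le] at this
        linarith [this.2]
      set V := ∫ x in a..b, (deriv h x) ^ S.p * (1 + S.K * χ x) with hV
      have cV : Continuous fun x => (deriv h x) ^ S.p * (1 + S.K * χ x) :=
        (hdc.rpow_const fun q => Or.inr hp0.le).mul
          (continuous_const.add (continuous_const.mul hχ.continuous))
      have hV3 : (∫ x in a..b, (1 / (2 * π)) * ∫ θ in (0:ℝ)..(2 * π), G x θ) ≤ V := by
        have cM : Continuous fun x => (1 / (2 * π)) * ∫ θ in (0:ℝ)..(2 * π), G x θ := by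
          refine continuous_const.mul ?_
          exact intervalIntegral.continuous_parametric_intervalIntegral_of_continuous' hGc _ _
        refine intervalIntegral.integral_mono_on hab.le (cM.intervalIntegrable _ _)
          (cV.intervalIntegrable _ _) fun x _ => ?_
        have w1 := hpos x
        have e1 : (1 / (2 * π)) * ∫ θ in (0:ℝ)..(2 * π), G x θ
            = (deriv h x) ^ S.p * ((1 / (2 * π)) * ∫ θ in (0:ℝ)..(2 * π),
              (1 + χ x * deriv eta θ) ^ S.p * (1 + S.K * χ x * S.X θ)) := by
          simp only [hG]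
          rw [intervalIntegral.integral_const_mul]
          ring
        rw [e1]
        exact mul_le_mul_of_nonneg_left (S.conv (χ x) (h0 x) (h1 x)) (by positivity)
      have hV4 : c ^ S.p * (b - a) ≤ V := by
        have := intervalIntegral.integral_mono_on hab.le
          (intervalIntegrable_const (μ := volume) (a := a) (b := b) (c := c ^ S.p))
          (cV.intervalIntegrable a b) (fun x _ => by
            have w1 := hpos x
            have w2 := h0 x
            calc c ^ S.p = c ^ S.p * 1 := (mul_one _).symm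
              _ ≤ (deriv h x) ^ S.p * (1 + S.K * χ x) := by
                have e2 : 1 ≤ 1 + S.K * χ x := by nlinarith [mul_nonneg hK w2]
                exact mul_le_mul (Real.rpow_le_rpow hc.le (hcw x) hp0.le) e2 zero_le_one
                  (by positivity))
        rw [intervalIntegral.integral_const, smul_eq_mul] at this
        linarith
      have hV0 : 0 < V := lt_of_lt_of_le (by positivity) hV4
      have hV5 : V' ≤ (1 + t) ^ (S.p + 1) * V := by
        rw [Real.rpow_add_one (by positivity)]
        calc V' ≤ (1 + t) ^ S.p * ∫ x in a..b, G x (N * x) := hV1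
          _ ≤ (1 + t) ^ S.p * ((1 + t) * V) := by
              apply mul_le_mul_of_nonneg_left _ (by positivity)
              nlinarith
          _ = _ := by ring
      -- the measure of the image
      have hW1 : (1 - t) * (h b - h a) ≤ (h ∘ UU χ N) b - (h ∘ UU χ N) a := by
        have hlip : ∀ x, |(h ∘ UU χ N) x - h x| ≤ C * (π / N) := by
          intro x
          have h3 := Convex.norm_image_sub_le_of_norm_deriv_le (f := h) (C := C) (s := univ)
            (x := x) (y := UU χ N x)
            (fun y _ => (hh.differentiable (by norm_num)).differentiableAt) (fun y _ => hCw y)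
            convex_univ (mem_univ _) (mem_univ _)
          rw [Real.norm_eq_abs, Real.norm_eq_abs] at h3
          exact h3.trans (mul_le_mul_of_nonneg_left (UU_abs h0 h1 N x) hC.le)
        have e1 := hlip a
        have e2 := hlip b
        rw [abs_le] at e1 e2
        have e3 : c * (b - a) ≤ h b - h a := by
          obtain ⟨y, hy, hy2⟩ := exists_deriv_eq_slope h hab
            hh.continuous.continuousOn (hh.differentiable (by norm_num)).differentiableOn
          have e4 := hcw y
          rw [hy2, le_div_iff₀ hba] at e4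
          exact e4
        have e5 : C * (π / N) ≤ t * c * ℓ / 2 := by
          calc C * (π / N) ≤ C * (t * c * ℓ / (2 * C)) := mul_le_mul_of_nonneg_left hNs hC.le
            _ = t * c * ℓ / 2 := by field_simp
        have e6 : t * c * ℓ ≤ t * (h b - h a) := by
          calc t * c * ℓ ≤ t * c * (b - a) := by gcongr
            _ = t * (c * (b - a)) := by ring
            _ ≤ t * (h b - h a) := by gcongr
        linarith [e1.2, e2.1]
      have hab' : 0 < h b - h a := by
        have : StrictMono h := strictMono_of_deriv_pos hpos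
        linarith [this hab]
      have h1t : 0 < 1 - t := by linarith
      have hW2 : (h b - h a) ^ S.p ≤
          ((1 - t)⁻¹) ^ S.p * ((h ∘ UU χ N) b - (h ∘ UU χ N) a) ^ S.p := by
        rw [← Real.mul_rpow (by positivity) (hmono a b hab).le]
        apply Real.rpow_le_rpow hab'.le _ hp0.le
        rw [inv_mul_eq_div, le_div_iff₀ h1t]
        linarith
      have hrh := rh a b hab
      calc V' * (b - a) ^ (S.p - 1)
          ≤ ((1 + t) ^ (S.p + 1) * V) * (b - a) ^ (S.p - 1) := by gcongr
        _ = (1 + t) ^ (S.p + 1) * (V * (b - a) ^ (S.p - 1)) := by ring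
        _ ≤ (1 + t) ^ (S.p + 1) * (A * (h b - h a) ^ S.p) := by gcongr
        _ ≤ (1 + t) ^ (S.p + 1) * (A * (((1 - t)⁻¹) ^ S.p
              * ((h ∘ UU χ N) b - (h ∘ UU χ N) a) ^ S.p)) := by gcongr
        _ = ((1 + t) ^ (S.p + 1) * ((1 - t)⁻¹) ^ S.p) * A
              * ((h ∘ UU χ N) b - (h ∘ UU χ N) a) ^ S.p := by ring
        _ ≤ (1 + δ) * A * ((h ∘ UU χ N) b - (h ∘ UU χ N) a) ^ S.p := by
            have := (hmono a b hab).le
            gcongr

end Pool.Agent.TH244.L
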