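import Mathlib
import Pool.Agent.TH244.L.RHStep
import Pool.Agent.TH244.L.Phase

set_option autoImplicit false

/-!
# The stages of the construction
-/

namespace Pool.Agent.TH244.L

open MeasureTheory Set Filter Topology
open scoped Real ContDiff

/-- The data at a stage. -/
structure St where
  h : ℝ → ℝ
  χ : ℝ → ℝ
  r : ℝ → ℂ
  P : Polynomial ℂ
  Q : Polynomial ℂ

/-- The properties of the data at stage `n`. -/
structure Good (S : Par) (n : ℕ) (e A : ℝ) (c : ℂ) (s : St) : Prop where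
  h_smooth : ContDiff ℝ ∞ s.h
  h_per : ∀ x, s.h (x + 2 * π) = s.h x + 2 * π
  h_pos : ∀ x, 0 < deriv s.h x
  χ_smooth : ContDiff ℝ ∞ s.χ
  χ_per : ∀ x, s.χ (x + 2 * π) = s.χ x
  χ_nonneg : ∀ x, 0 ≤ s.χ x
  χ_le : ∀ x, s.χ x ≤ 1
  r_smooth : ContDiff ℝ ∞ s.r
  r_per : ∀ x, s.r (x + 2 * π) = s.r x
  r_le : ∀ x, ‖s.r x‖ ≤ S.κ ^ n
  r_supp : ∀ x, s.r x ≠ 0 → s.χ x = 1
  gap : ∀ x, |x - π| < S.g → s.χ x = 0 ∧ s.h x = uu x
  P0 : s.P.coeff 0 = 0
  P1 : s.P.coeff 1 = c
  Q0 : s.Q.coeff 0 = 0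
  err : ∀ x : ℝ, ‖s.P.eval (Complex.exp (Complex.I * (s.h x : ℂ))) + 1
    + s.Q.eval (Complex.exp (-(Complex.I * (x : ℂ)))) - s.r x‖ ≤ e
  rh : ∀ a b, a < b → (∫ x in a..b, (deriv s.h x) ^ S.p * (1 + S.K * s.χ x)) * (b - a) ^ (S.p - 1)
    ≤ A * (s.h b - s.h a) ^ S.p
  slow : ∃ ℓ : ℝ, 0 < ℓ ∧ ∀ x y, |x - y| ≤ ℓ → deriv s.h x ≤ 10 * deriv s.h y

theorem norm_exp_I (y : ℝ) : ‖Complex.exp (Complex.I * (y : ℂ))‖ = 1 := by
  rw [mul_comm, Complex.norm_exp_ofReal_mul_I]

theorem norm_exp_neg_I (y : ℝ) : ‖Complex.exp (-(Complex.I * (y : ℂ)))‖ = 1 := by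
  have : -(Complex.I * (y : ℂ)) = ((-y : ℝ) : ℂ) * Complex.I := by push_cast; ring
  rw [this, Complex.norm_exp_ofReal_mul_I]

/-- A polynomial is bounded on the unit circle. -/
theorem poly_bdd (F : Polynomial ℂ) : ∃ B : ℝ, 0 < B ∧ ∀ w : ℂ, ‖w‖ = 1 → ‖F.eval w‖ ≤ B := by
  have h := (isCompact_sphere (0:ℂ) 1).exists_bound_of_continuousOn (f := fun w => F.eval w)
    F.continuous.continuousOn
  obtain ⟨B, hB⟩ := h
  refine ⟨|B| + 1, by positivity, fun w hw => ?_⟩
  have := hB w (by simpa using hw)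
  linarith [le_abs_self B]

/-- The first stage. -/
theorem stage_one (S : Par) (ε : ℝ) (hε : 0 < ε) : ∃ (s : St) (c : ℂ),
    Good S 1 ε ((1 + S.K) * 100 ^ S.p) c s ∧ ‖c - (3 / 4) * ell1 S.E‖ ≤ ε := by
  obtain ⟨P, Q, hP, hQ, hc, hPQ⟩ := seed_approx S.E S.E_smooth.continuous S.E_per S.E_ell ε hε
  have hp0 : 0 < S.p := by linarith [S.p_gt]
  have hK := S.K_nonneg
  have hd1 : ∀ x, 1 / 3 ≤ deriv uu x := fun x => by
    rw [deriv_uu]; linarith [deriv_eta_ge x]
  have hd2 : ∀ x, deriv uu x ≤ 3 := fun x => by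
    rw [deriv_uu]; linarith [deriv_eta_le x]
  refine ⟨⟨uu, S.X, S.E, P, Q⟩, P.coeff 1, ?_, hc⟩
  refine ⟨uu_smooth, uu_per, fun x => by linarith [hd1 x], S.X_smooth, S.X_per, S.X_nonneg, S.X_le,
    S.E_smooth, S.E_per, fun x => by rw [pow_one]; exact S.E_le x, S.E_supp,
    fun x hx => ⟨S.X_gap x hx, rfl⟩, hP, rfl, hQ, hPQ, ?_, ?_⟩
  · intro a b hab
    simp only
    have hba : 0 < b - a := by linarith
    have huc : Continuous (deriv uu) := uu_smooth.continuous_deriv (by norm_num)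
    have cV : Continuous fun x => (deriv uu x) ^ S.p * (1 + S.K * S.X x) :=
      (huc.rpow_const fun q => Or.inr hp0.le).mul
        (continuous_const.add (continuous_const.mul S.X_smooth.continuous))
    have h1 : (∫ x in a..b, (deriv uu x) ^ S.p * (1 + S.K * S.X x))
        ≤ (b - a) * (3 ^ S.p * (1 + S.K)) := by
      have := intervalIntegral.integral_mono_on hab.le (cV.intervalIntegrable _ _)
        (intervalIntegrable_const (μ := volume) (a := a) (b := b) (c := 3 ^ S.p * (1 + S.K)))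
        (fun x _ => by
          have e1 := hd1 x
          have e2 := hd2 x
          have e3 := S.X_nonneg x
          have e4 := S.X_le x
          have e5 : 1 + S.K * S.X x ≤ 1 + S.K := by nlinarith
          exact mul_le_mul (Real.rpow_le_rpow (by linarith) e2 hp0.le) e5 (by positivity)
            (by positivity))
      rwa [intervalIntegral.integral_const, smul_eq_mul] at this
    have h2 : (b - a) / 3 ≤ uu b - uu a := by
      obtain ⟨y, hy, hy2⟩ := exists_deriv_eq_slope uu hab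
        uu_smooth.continuous.continuousOn (uu_smooth.differentiable (by norm_num)).differentiableOn
      have e4 := hd1 y
      rw [hy2, le_div_iff₀ hba] at e4
      linarith
    calc (∫ x in a..b, (deriv uu x) ^ S.p * (1 + S.K * S.X x)) * (b - a) ^ (S.p - 1)
        ≤ ((b - a) * (3 ^ S.p * (1 + S.K))) * (b - a) ^ (S.p - 1) := by gcongr
      _ = (1 + S.K) * 9 ^ S.p * ((b - a) / 3) ^ S.p := by
          have e1 : (b - a) ^ S.p = (b - a) ^ (S.p - 1) * (b - a) := by
            rw [← Real.rpow_add_one hba.ne']; congr 1; ring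
          have e2 : (9:ℝ) ^ S.p * ((b - a) / 3) ^ S.p = 3 ^ S.p * (b - a) ^ S.p := by
            rw [← Real.mul_rpow (by norm_num) (by positivity),
              ← Real.mul_rpow (by norm_num) hba.le]
            congr 1; ring
          rw [mul_assoc (1 + S.K), e2, e1]; ring
      _ ≤ (1 + S.K) * 100 ^ S.p * (uu b - uu a) ^ S.p := by
          gcongr
          norm_num
  · exact ⟨1, one_pos, fun x y _ => by
      have e1 := hd1 y
      have e2 := hd2 x
      simp only
      linarith⟩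

/-- The induction step. -/
theorem stage_step (S : Par) {n : ℕ} {e A : ℝ} {c : ℂ} {s : St} (hs : Good S n e A c s)
    (hA : (1 + S.K) * 100 ^ S.p ≤ A) {δ ε : ℝ} (hδ : 0 < δ) (hε : 0 < ε) :
    ∃ s' : St, Good S (n + 1) (e + ε) ((1 + δ) * A) c s' := by
  -- the seed
  obtain ⟨F, G, hF0, hG0, -, hFG⟩ := seed_approx S.E S.E_smooth.continuous S.E_per S.E_ell
    (ε / 5) (by positivity)
  obtain ⟨BF, hBF0, hBF⟩ := poly_bdd F
  -- conditions on the frequency
  have ev1 := rh_step S hs.h_smooth hs.h_per hs.h_pos hs.χ_smooth hs.χ_per hs.χ_nonneg hs.χ_le hA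
    hs.rh hs.slow hδ
  have ev2 := phase_poly s.h hs.h_smooth hs.h_per hs.h_pos s.r hs.r_smooth hs.r_per F hF0 (ε / 5)
    (by positivity)
  have ev3 := phase_poly_neg s.r hs.r_smooth hs.r_per G hG0 (ε / 5) (by positivity)
  rw [← eventually_atTop] at ev2 ev3
  -- uniform continuity
  obtain ⟨δ1, hδ1, hu1⟩ := per_unif hs.r_smooth.continuous hs.r_per (ε := ε / 5 / BF)
    (by positivity)
  have hPc : Continuous fun x : ℝ => s.P.eval (Complex.exp (Complex.I * (s.h x : ℂ))) :=
    s.P.continuous.comp (Complex.continuous_exp.comp (continuous_const.mul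
      (Complex.continuous_ofReal.comp hs.h_smooth.continuous)))
  have hPp : ∀ x : ℝ, s.P.eval (Complex.exp (Complex.I * (s.h (x + 2 * π) : ℂ)))
      = s.P.eval (Complex.exp (Complex.I * (s.h x : ℂ))) := by
    intro x
    congr 1
    rw [hs.h_per, show Complex.I * ((s.h x + 2 * π : ℝ) : ℂ)
      = Complex.I * (s.h x : ℂ) + 2 * π * Complex.I by push_cast; ring, Complex.exp_add,
      Complex.exp_two_pi_mul_I, mul_one]
  obtain ⟨δ2, hδ2, hu2⟩ := per_unif hPc hPp (ε := ε / 5) (by positivity)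
  obtain ⟨N, ⟨hN1, hN1s, hN1rh⟩, ⟨Pc, hPc0, hPc1, hPcE⟩, ⟨Qc, hQc0, hQcE⟩, hNδ1, hNδ2, hN0⟩ :=
    (ev1.and (ev2.and (ev3.and ((ev_small hδ1).and ((ev_small hδ2).and
      (eventually_gt_atTop 0)))))).exists
  have hN0' : (N : ℝ) ≠ 0 := by positivity
  have hXs : ContDiff ℝ ∞ fun x : ℝ => S.X (N * x) :=
    S.X_smooth.comp (contDiff_const.mul contDiff_id)
  have hEs : ContDiff ℝ ∞ fun x : ℝ => S.E (N * x) :=
    S.E_smooth.comp (contDiff_const.mul contDiff_id)
  refine ⟨⟨s.h ∘ UU s.χ N, fun x => s.χ x * S.X (N * x), fun x => s.r x * S.E (N * x),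
    s.P + Pc, s.Q + Qc⟩, ?_⟩
  refine ⟨hs.h_smooth.comp (UU_smooth hs.χ_smooth N), ?_, hN1, hs.χ_smooth.mul hXs, ?_, ?_, ?_,
    hs.r_smooth.mul hEs, ?_, ?_, ?_, ?_, ?_, ?_, ?_, ?_, hN1rh, hN1s⟩
  · intro x
    simp only [Function.comp_apply, UU_per hs.χ_per, hs.h_per]
  · intro x
    simp only [hs.χ_per, per_nat S.X_per]
  · intro x
    exact mul_nonneg (hs.χ_nonneg x) (S.X_nonneg _)
  · intro x
    calc s.χ x * S.X (N * x) ≤ 1 * 1 :=
          mul_le_mul (hs.χ_le x) (S.X_le _) (S.X_nonneg _) zero_le_one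
      _ = 1 := one_mul _
  · intro x
    simp only [hs.r_per, per_nat S.E_per]
  · intro x
    simp only
    rw [norm_mul, pow_succ]
    exact mul_le_mul (hs.r_le x) (S.E_le _) (norm_nonneg _) (pow_nonneg S.κ_pos.le _)
  · intro x hx
    simp only at hx ⊢
    rw [hs.r_supp x (left_ne_zero_of_mul hx), S.E_supp _ (right_ne_zero_of_mul hx), one_mul]
  · intro x hx
    obtain ⟨h1, h2⟩ := hs.gap x hx
    simp only [Function.comp_apply, UU, h1, zero_mul, zero_div, add_zero, h2, and_self]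
  · simp only [Polynomial.coeff_add, hs.P0, hPc0, add_zero]
  · simp only [Polynomial.coeff_add, hs.P1, hPc1, add_zero]
  · simp only [Polynomial.coeff_add, hs.Q0, hQc0, add_zero]
  · intro x
    simp only [Function.comp_apply, Polynomial.eval_add]
    set y := UU s.χ N x with hy
    have hyx : |y - x| ≤ π / N := UU_abs hs.χ_nonneg hs.χ_le N x
    have t1 : ‖s.P.eval (Complex.exp (Complex.I * (s.h y : ℂ)))
        - s.P.eval (Complex.exp (Complex.I * (s.h x : ℂ)))‖ ≤ ε / 5 := by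
      rw [← dist_eq_norm]; exact hu2 y x (hyx.trans hNδ2)
    have t2 := hs.err x
    have t3 := hPcE y
    have t5 := hQcE x
    have t6 : ‖s.r x * (F.eval (Complex.exp (Complex.I * (uu (N * x) : ℂ))) + 1
        + G.eval (Complex.exp (-(Complex.I * ((N : ℂ) * (x : ℂ))))) - S.E (N * x))‖ ≤ ε / 5 := by
      rw [norm_mul]
      have h1 := hFG (N * x)
      push_cast at h1
      have h2 : ‖s.r x‖ ≤ 1 := (hs.r_le x).trans (pow_le_one₀ S.κ_pos.le S.κ_lt.le)
      calc _ ≤ 1 * (ε / 5) := mul_le_mul h2 h1 (norm_nonneg _) zero_le_one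
        _ = ε / 5 := one_mul _
    have t4 : ‖s.r y * F.eval (Complex.exp (Complex.I * ((N : ℂ) * (y : ℂ))))
        - s.r x * F.eval (Complex.exp (Complex.I * (uu (N * x) : ℂ)))‖ ≤ ε / 5 := by
      have hr : ‖s.r y - s.r x‖ ≤ ε / 5 / BF := by
        rw [← dist_eq_norm]; exact hu1 y x (hyx.trans hNδ1)
      by_cases hrx : s.r x = 0
      · rw [hrx, zero_mul, sub_zero, norm_mul]
        rw [hrx, sub_zero] at hr
        have h1 : ‖F.eval (Complex.exp (Complex.I * ((N : ℂ) * (y : ℂ))))‖ ≤ BF := by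
          apply hBF
          have := norm_exp_I (N * y)
          push_cast at this
          exact this
        calc _ ≤ (ε / 5 / BF) * BF := mul_le_mul hr h1 (norm_nonneg _) (by positivity)
          _ = ε / 5 := by field_simp
      · have hχ1 := hs.r_supp x hrx
        have e1 : (N : ℂ) * (y : ℂ) = (uu (N * x) : ℂ) := by
          rw [hy, UU, hχ1, uu_eq]
          push_cast
          have : (N : ℂ) ≠ 0 := by exact_mod_cast hN0.ne'
          field_simp
        rw [e1, ← sub_mul, norm_mul]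
        have h1 : ‖F.eval (Complex.exp (Complex.I * (uu (N * x) : ℂ)))‖ ≤ BF :=
          hBF _ (norm_exp_I _)
        calc _ ≤ (ε / 5 / BF) * BF := mul_le_mul hr h1 (norm_nonneg _) (by positivity)
          _ = ε / 5 := by field_simp
    -- combine
    have key : s.P.eval (Complex.exp (Complex.I * (s.h y : ℂ)))
          + Pc.eval (Complex.exp (Complex.I * (s.h y : ℂ))) + 1
          + (s.Q.eval (Complex.exp (-(Complex.I * (x : ℂ))))
            + Qc.eval (Complex.exp (-(Complex.I * (x : ℂ))))) - s.r x * S.E (N * x)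
        = (s.P.eval (Complex.exp (Complex.I * (s.h y : ℂ)))
            - s.P.eval (Complex.exp (Complex.I * (s.h x : ℂ))))
          + (s.P.eval (Complex.exp (Complex.I * (s.h x : ℂ))) + 1
            + s.Q.eval (Complex.exp (-(Complex.I * (x : ℂ)))) - s.r x)
          + (Pc.eval (Complex.exp (Complex.I * (s.h y : ℂ)))
            - s.r y * F.eval (Complex.exp (Complex.I * ((N : ℂ) * (y : ℂ)))))
          + (s.r y * F.eval (Complex.exp (Complex.I * ((N : ℂ) * (y : ℂ))))
            - s.r x * F.eval (Complex.exp (Complex.I * (uu (N * x) : ℂ))))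
          + (Qc.eval (Complex.exp (-(Complex.I * (x : ℂ))))
            - s.r x * G.eval (Complex.exp (-(Complex.I * ((N : ℂ) * (x : ℂ))))))
          + s.r x * (F.eval (Complex.exp (Complex.I * (uu (N * x) : ℂ))) + 1
            + G.eval (Complex.exp (-(Complex.I * ((N : ℂ) * (x : ℂ))))) - S.E (N * x)) := by ring
    rw [key]
    refine (norm_add_le _ _).trans ?_
    refine (add_le_add ((norm_add_le _ _).trans (add_le_add ((norm_add_le _ _).trans (add_le_add
      ((norm_add_le _ _).trans (add_le_add ((norm_add_le _ _).trans (add_le_add t1 t2)) t3)) t4))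
      t5)) t6).trans ?_
    linarith

/-- All stages. -/
theorem stages (S : Par) (n : ℕ) (ε : ℝ) (hε : 0 < ε) : ∃ (s : St) (c : ℂ),
    Good S (n + 1) ε (3 * ((1 + S.K) * 100 ^ S.p)) c s ∧ ‖c - (3 / 4) * ell1 S.E‖ ≤ ε := by
  set A := (1 + S.K) * 100 ^ S.p with hA
  have hK := S.K_nonneg
  have hA0 : 0 < A := by rw [hA]; positivity
  set δ : ℝ := 1 / (n + 1) with hδ
  have hδ0 : 0 < δ := by rw [hδ]; positivity
  have key : ∀ m : ℕ, ∃ (s : St) (c : ℂ),
      Good S (m + 1) (ε * ((m + 1) * δ)) ((1 + δ) ^ m * A) c s ∧ ‖c - (3 / 4) * ell1 S.E‖ ≤ ε := by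
    intro m
    induction m with
    | zero =>
      obtain ⟨s, c, hs, hc⟩ := stage_one S (ε * δ) (by positivity)
      refine ⟨s, c, ?_, hc.trans ?_⟩
      · simpa using hs
      · have : δ ≤ 1 := by
          rw [hδ, div_le_one (by positivity)]
          have : (0:ℝ) ≤ n := Nat.cast_nonneg n
          linarith
        nlinarith
    | succ m ih =>
      obtain ⟨s, c, hs, hc⟩ := ih
      have h1 : A ≤ (1 + δ) ^ m * A :=
        le_mul_of_one_le_left hA0.le (one_le_pow₀ (by linarith))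
      obtain ⟨s', hs'⟩ := stage_step S hs h1 hδ0 (ε := ε * δ) (by positivity)
      refine ⟨s', c, ?_, hc⟩
      have e1 : ε * ((m + 1) * δ) + ε * δ = ε * (((m + 1 : ℕ) + 1) * δ) := by push_cast; ring
      have e2 : (1 + δ) * ((1 + δ) ^ m * A) = (1 + δ) ^ (m + 1) * A := by ring
      rw [e1, e2] at hs'
      exact hs'
  obtain ⟨s, c, hs, hc⟩ := key n
  refine ⟨s, c, ?_, hc⟩
  have e1 : ε * ((n + 1) * δ) = ε := by rw [hδ]; field_simp
  have e2 : (1 + δ) ^ n ≤ 3 := by
    have h1 : (1 + δ) ^ n ≤ Real.exp 1 := by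
      calc (1 + δ) ^ n ≤ (Real.exp δ) ^ n := by
            gcongr
            linarith [Real.add_one_le_exp δ]
        _ = Real.exp (n * δ) := by rw [← Real.exp_nat_mul]
        _ ≤ Real.exp 1 := by
            apply Real.exp_le_exp.2
            rw [hδ, mul_one_div, div_le_one (by positivity)]
            linarith
    linarith [Real.exp_one_lt_d9]
  rw [e1] at hs
  refine ⟨hs.h_smooth, hs.h_per, hs.h_pos, hs.χ_smooth, hs.χ_per, hs.χ_nonneg, hs.χ_le,
    hs.r_smooth, hs.r_per, hs.r_le, hs.r_supp, hs.gap, hs.P0, hs.P1, hs.Q0, hs.err, ?_, hs.slow⟩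
  intro a b hab
  refine (hs.rh a b hab).trans ?_
  have hmono : StrictMono s.h := strictMono_of_deriv_pos hs.h_pos
  have : 0 ≤ (s.h b - s.h a) ^ S.p := Real.rpow_nonneg (by linarith [hmono hab]) _
  gcongr

end Pool.Agent.TH244.L
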