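import Mathlib
import Pool.Agent.TH244.L.Stage

set_option autoImplicit false

/-!
# The blocks
-/

namespace Pool.Agent.TH244.L

open MeasureTheory Set Filter Topology
open scoped Real ContDiff

/-- A periodic change of variables with the gap property and the reverse Hoelder inequality. -/
structure Blk (g p C : ℝ) (h : ℝ → ℝ) : Prop where
  smooth : ContDiff ℝ ∞ h
  per : ∀ x, h (x + 2 * π) = h x + 2 * π
  pos : ∀ x, 0 < deriv h x
  gap : ∀ x, |x - π| < g → h x = uu x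
  rh : ∀ a b, a < b → (∫ x in a..b, (deriv h x) ^ p) * (b - a) ^ (p - 1) ≤ C * (h b - h a) ^ p

/-- The blocks exist. -/
theorem blocks : ∃ g p C c0 : ℝ, 0 < g ∧ 1 < p ∧ 0 < C ∧ 0 < c0 ∧ ∀ ε : ℝ, 0 < ε →
    ∃ (h : ℝ → ℝ) (P Q : Polynomial ℂ), Blk g p C h ∧ P.coeff 0 = 0 ∧ c0 ≤ ‖P.coeff 1‖ ∧
      ∀ x : ℝ, ‖P.eval (Complex.exp (Complex.I * (h x : ℂ))) + 1
        + Q.eval (Complex.exp (-(Complex.I * (x : ℂ))))‖ ≤ ε := by
  obtain ⟨X, E, κ, g, hX, hXp, hX01, hg, hXg, hE, hEp, hES, hκ0, hκ1, hEκ, hE1, hE2⟩ := seed_exists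
  obtain ⟨p, K, hp, hK, hconv⟩ := conv_exists X hX.continuous (fun x => (hX01 x).1)
    (fun x => (hX01 x).2) (hXg π (by simpa using hg))
  set S : Par := ⟨X, E, κ, g, p, K, hX, hXp, fun x => (hX01 x).1, fun x => (hX01 x).2, hg, hXg, hE,
    hEp, hES, hκ0, hκ1, hEκ, hE1, hE2, hp, hK, hconv⟩ with hS
  have hell : 0 < ‖ell1 E‖ := norm_pos_iff.2 hE2
  refine ⟨g, p, 3 * ((1 + K) * 100 ^ p), ‖ell1 E‖ / 2, hg, hp, by positivity, by positivity,
    fun ε hε => ?_⟩
  obtain ⟨n, hn⟩ := exists_pow_lt_of_lt_one (half_pos hε) hκ1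
  obtain ⟨s, c, hs, hc⟩ := stages S n (min (ε / 2) (‖ell1 E‖ / 4)) (by positivity)
  refine ⟨s.h, s.P, s.Q, ⟨hs.h_smooth, hs.h_per, hs.h_pos, fun x hx => (hs.gap x hx).2, ?_⟩,
    hs.P0, ?_, fun x => ?_⟩
  · intro a b hab
    refine le_trans ?_ (hs.rh a b hab)
    have hba : 0 < b - a := by linarith
    have hp0 : 0 < p := by linarith
    have hdc : Continuous (deriv s.h) := hs.h_smooth.continuous_deriv (by norm_num)
    have c1 : Continuous fun x => (deriv s.h x) ^ p := hdc.rpow_const fun q => Or.inr hp0.le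
    have c2 : Continuous fun x => (deriv s.h x) ^ p * (1 + K * s.χ x) :=
      c1.mul (continuous_const.add (continuous_const.mul hs.χ_smooth.continuous))
    apply mul_le_mul_of_nonneg_right _ (Real.rpow_nonneg hba.le _)
    refine intervalIntegral.integral_mono_on hab.le (c1.intervalIntegrable _ _)
      (c2.intervalIntegrable _ _) fun x _ => ?_
    have h1 := hs.h_pos x
    have h2 := hs.χ_nonneg x
    have h3 : 0 ≤ (deriv s.h x) ^ p := by positivity
    have h4 : 0 ≤ K * s.χ x := by positivity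
    nlinarith
  · rw [hs.P1]
    have h1 : ‖c - (3 / 4) * ell1 E‖ ≤ ‖ell1 E‖ / 4 := hc.trans (min_le_right _ _)
    have h2 : ‖(3 / 4) * ell1 E‖ = (3 / 4) * ‖ell1 E‖ := by
      rw [norm_mul]; norm_num
    have h3 := norm_sub_norm_le ((3 / 4) * ell1 E) c
    rw [h2, norm_sub_rev] at h3
    linarith
  · have h1 := hs.err x
    have h2 := hs.r_le x
    have h3 : S.κ ^ (n + 1) ≤ ε / 2 := by
      calc S.κ ^ (n + 1) ≤ S.κ ^ n := pow_le_pow_of_le_one hκ0.le hκ1.le (Nat.le_succ n)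
        _ ≤ ε / 2 := hn.le
    calc _ = ‖(s.P.eval (Complex.exp (Complex.I * (s.h x : ℂ))) + 1
            + s.Q.eval (Complex.exp (-(Complex.I * (x : ℂ)))) - s.r x) + s.r x‖ := by
          congr 1; ring
      _ ≤ min (ε / 2) (‖ell1 E‖ / 4) + ε / 2 :=
          (norm_add_le _ _).trans (add_le_add h1 (h2.trans h3))
      _ ≤ ε := by linarith [min_le_left (ε / 2) (‖ell1 E‖ / 4)]

end Pool.Agent.TH244.L
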