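import Mathlib
import Pool.Agent.TH244.L.Blocks

set_option autoImplicit false

/-!
# Gluing
-/

namespace Pool.Agent.TH244.L

open MeasureTheory Set Filter Topology
open scoped Real ContDiff

/-! ### One block -/

section one

variable {g p C : ℝ} {h : ℝ → ℝ}

theorem uu_pi : uu π = π := by
  unfold uu; simp

theorem Blk.fix (hb : Blk g p C h) (hg : 0 < g) : h π = π := by
  rw [hb.gap π (by simpa using hg), uu_pi]

theorem Blk.dc (hb : Blk g p C h) : Continuous (deriv h) :=
  hb.smooth.continuous_deriv (by norm_num)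

theorem Blk.cp (hb : Blk g p C h) (hp : 1 < p) : Continuous fun x => (deriv h x) ^ p :=
  hb.dc.rpow_const fun q => Or.inr (by linarith)

theorem Blk.mono (hb : Blk g p C h) : StrictMono h := strictMono_of_deriv_pos hb.pos

theorem Blk.deriv_gap (hb : Blk g p C h) {x : ℝ} (hx : |x - π| < g) :
    deriv h x = deriv uu x := by
  apply Filter.EventuallyEq.deriv_eq
  have : Metric.ball π g ∈ 𝓝 x := Metric.isOpen_ball.mem_nhds (by
    rw [Metric.mem_ball, Real.dist_eq]; exact hx)
  filter_upwards [this] with y hy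
  rw [Metric.mem_ball, Real.dist_eq] at hy
  exact hb.gap y hy

theorem deriv_uu_ge (x : ℝ) : 1 / 3 ≤ deriv uu x := by
  rw [deriv_uu]; linarith [deriv_eta_ge x]

theorem deriv_uu_le (x : ℝ) : deriv uu x ≤ 3 := by
  rw [deriv_uu]; linarith [deriv_eta_le x]

/-- Linear bounds in the gap. -/
theorem Blk.near (hb : Blk g p C h) (hp : 1 < p) {a b : ℝ} (hab : a ≤ b) (ha : π - g < a)
    (hbg : b < π + g) : (b - a) / 3 ≤ h b - h a ∧ ∫ x in a..b, (deriv h x) ^ p ≤ 3 ^ p * (b - a) := by
  have hgap : ∀ x ∈ Icc a b, |x - π| < g := fun x hx => by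
    rw [abs_lt]; exact ⟨by linarith [hx.1], by linarith [hx.2]⟩
  constructor
  · rcases hab.eq_or_lt with rfl | hab
    · simp
    obtain ⟨y, hy, hy2⟩ := exists_deriv_eq_slope h hab
      hb.smooth.continuous.continuousOn (hb.smooth.differentiable (by norm_num)).differentiableOn
    have h1 := deriv_uu_ge y
    rw [← hb.deriv_gap (hgap y (Ioo_subset_Icc_self hy)), hy2, le_div_iff₀ (by linarith)] at h1
    linarith
  · have := intervalIntegral.integral_mono_on hab ((hb.cp hp).intervalIntegrable _ _)
      (intervalIntegrable_const (μ := volume) (a := a) (b := b) (c := (3:ℝ) ^ p))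
      (fun x hx => Real.rpow_le_rpow (hb.pos x).le
        (by rw [hb.deriv_gap (hgap x hx)]; exact deriv_uu_le x) (by linarith))
    rw [intervalIntegral.integral_const, smul_eq_mul] at this
    linarith

theorem Blk.period (hb : Blk g p C h) {a : ℝ} :
    ∫ x in a..(a + 2 * π), (deriv h x) ^ p ≤ 2 * π * C := by
  have hπ := Real.pi_pos
  have h1 := hb.rh a (a + 2 * π) (by linarith)
  rw [hb.per, show a + 2 * π - a = 2 * π by ring, show h a + 2 * π - h a = 2 * π by ring] at h1
  have h2 : (2 * π) ^ p = (2 * π) ^ (p - 1) * (2 * π) := by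
    rw [← Real.rpow_add_one (by positivity)]; congr 1; ring
  rw [h2] at h1
  have h3 : 0 < (2 * π) ^ (p - 1) := by positivity
  have h4 : (∫ x in a..(a + 2 * π), (deriv h x) ^ p) * (2 * π) ^ (p - 1)
      ≤ (2 * π * C) * (2 * π) ^ (p - 1) := by linarith
  exact le_of_mul_le_mul_right h4 h3

/-- The constants. -/
noncomputable def c1 (g : ℝ) : ℝ := min (1 / 3) (g / (12 * π))

noncomputable def C3 (g p C : ℝ) : ℝ := 3 ^ p + 4 * π * C / g

theorem c1_pos (hg : 0 < g) : 0 < c1 g := by
  unfold c1
  have := Real.pi_pos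
  positivity

theorem Blk.right (hb : Blk g p C h) (hg : 0 < g) (hp : 1 < p) (hC : 0 < C) {t : ℝ} (ht : 0 ≤ t)
    (ht2 : t ≤ 2 * π) : c1 g * t ≤ h (π + t) - h π ∧
      ∫ x in π..(π + t), (deriv h x) ^ p ≤ C3 g p C * t := by
  have hπ := Real.pi_pos
  have hi : ∀ a b : ℝ, IntervalIntegrable (fun x => (deriv h x) ^ p) volume a b := fun a b =>
    (hb.cp hp).intervalIntegrable _ _
  rcases le_or_gt t (g / 2) with h1 | h1
  · obtain ⟨h2, h3⟩ := hb.near hp (a := π) (b := π + t) (by linarith) (by linarith) (by linarith)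
    rw [show π + t - π = t by ring] at h2 h3
    constructor
    · refine le_trans ?_ h2
      rw [div_eq_mul_one_div, mul_comm]
      exact mul_le_mul_of_nonneg_left (min_le_left _ _) ht
    · refine h3.trans ?_
      unfold C3
      have : 0 ≤ 4 * π * C / g * t := by positivity
      nlinarith
  · obtain ⟨h2, -⟩ := hb.near hp (a := π) (b := π + g / 2) (by linarith) (by linarith)
      (by linarith)
    constructor
    · have h4 : h (π + g / 2) ≤ h (π + t) := hb.mono.monotone (by linarith)
      have h5 : c1 g * t ≤ g / (12 * π) * (2 * π) := by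
        apply mul_le_mul (min_le_right _ _) ht2 ht (by positivity)
      have h6 : g / (12 * π) * (2 * π) = g / 6 := by field_simp; norm_num
      linarith
    · have h4 : ∫ x in π..(π + t), (deriv h x) ^ p ≤ ∫ x in π..(π + 2 * π), (deriv h x) ^ p := by
        rw [← intervalIntegral.integral_add_adjacent_intervals (hi π (π + t))
          (hi (π + t) (π + 2 * π))]
        have : 0 ≤ ∫ x in (π + t)..(π + 2 * π), (deriv h x) ^ p :=
          intervalIntegral.integral_nonneg (by linarith) fun x _ =>
            Real.rpow_nonneg (hb.pos x).le _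
        linarith
      refine (h4.trans hb.period).trans ?_
      unfold C3
      have h5 : 2 * π * C ≤ 4 * π * C / g * t := by
        have : 2 * π * C = 4 * π * C / g * (g / 2) := by field_simp; norm_num
        rw [this]
        gcongr
      have h6 : 0 ≤ (3:ℝ) ^ p * t := by positivity
      linarith

theorem Blk.left (hb : Blk g p C h) (hg : 0 < g) (hp : 1 < p) (hC : 0 < C) {t : ℝ} (ht : 0 ≤ t)
    (ht2 : t ≤ 2 * π) : c1 g * t ≤ h π - h (π - t) ∧
      ∫ x in (π - t)..π, (deriv h x) ^ p ≤ C3 g p C * t := by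
  have hπ := Real.pi_pos
  have hi : ∀ a b : ℝ, IntervalIntegrable (fun x => (deriv h x) ^ p) volume a b := fun a b =>
    (hb.cp hp).intervalIntegrable _ _
  rcases le_or_gt t (g / 2) with h1 | h1
  · obtain ⟨h2, h3⟩ := hb.near hp (a := π - t) (b := π) (by linarith) (by linarith) (by linarith)
    rw [show π - (π - t) = t by ring] at h2 h3
    constructor
    · refine le_trans ?_ h2
      rw [div_eq_mul_one_div, mul_comm]
      exact mul_le_mul_of_nonneg_left (min_le_left _ _) ht
    · refine h3.trans ?_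
      unfold C3
      have : 0 ≤ 4 * π * C / g * t := by positivity
      nlinarith
  · obtain ⟨h2, -⟩ := hb.near hp (a := π - g / 2) (b := π) (by linarith) (by linarith)
      (by linarith)
    constructor
    · have h4 : h (π - t) ≤ h (π - g / 2) := hb.mono.monotone (by linarith)
      have h5 : c1 g * t ≤ g / (12 * π) * (2 * π) := by
        apply mul_le_mul (min_le_right _ _) ht2 ht (by positivity)
      have h6 : g / (12 * π) * (2 * π) = g / 6 := by field_simp; norm_num
      linarith
    · have h4 : ∫ x in (π - t)..π, (deriv h x) ^ p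
          ≤ ∫ x in (π - 2 * π)..(π - 2 * π + 2 * π), (deriv h x) ^ p := by
        rw [show π - 2 * π + 2 * π = π by ring,
          ← intervalIntegral.integral_add_adjacent_intervals (hi (π - 2 * π) (π - t))
            (hi (π - t) π)]
        have : 0 ≤ ∫ x in (π - 2 * π)..(π - t), (deriv h x) ^ p :=
          intervalIntegral.integral_nonneg (by linarith) fun x _ =>
            Real.rpow_nonneg (hb.pos x).le _
        linarith
      refine (h4.trans hb.period).trans ?_
      unfold C3
      have h5 : 2 * π * C ≤ 4 * π * C / g * t := by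
        have : 2 * π * C = 4 * π * C / g * (g / 2) := by field_simp; norm_num
        rw [this]
        gcongr
      have h6 : 0 ≤ (3:ℝ) ^ p * t := by positivity
      linarith

theorem Blk.per_int (hb : Blk g p C h) (m : ℤ) (x : ℝ) :
    h (x + m * (2 * π)) = h x + m * (2 * π) := by
  have hper : Function.Periodic (fun x => h x - x) (2 * π) := fun x => by
    simp only [hb.per]; ring
  have h1 : h (x + m * (2 * π)) - (x + m * (2 * π)) = h x - x := hper.int_mul m x
  linarith

theorem Blk.deriv_per (hb : Blk g p C h) (m : ℤ) (x : ℝ) :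
    deriv h (x + m * (2 * π)) = deriv h x := by
  have e : (fun y => h (y + m * (2 * π))) = fun y => h y + m * (2 * π) := funext (hb.per_int m)
  have e2 : deriv (fun y => h (y + m * (2 * π))) x = deriv (fun y => h y + m * (2 * π)) x := by
    rw [e]
  rw [deriv_comp_add_const, deriv_add_const] at e2
  exact e2

end one

/-! ### The glued map -/

/-- The right end of the cell `m`. -/
noncomputable def zz (m : ℤ) : ℝ := π + m * (2 * π)

theorem zz_succ (m : ℤ) : zz (m + 1) = zz m + 2 * π := by
  unfold zz; push_cast; ring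

/-- The index of the cell of `x`. -/
noncomputable def cell (x : ℝ) : ℤ := ⌊(x + π) / (2 * π)⌋

theorem cell_eq {x : ℝ} {m : ℤ} : cell x = m ↔ zz (m - 1) ≤ x ∧ x < zz m := by
  have h2π : (0:ℝ) < 2 * π := by positivity
  unfold cell zz
  rw [Int.floor_eq_iff, le_div_iff₀ h2π, div_lt_iff₀ h2π]
  push_cast
  constructor
  · rintro ⟨h1, h2⟩; exact ⟨by linarith, by linarith⟩
  · rintro ⟨h1, h2⟩; exact ⟨by linarith, by linarith⟩

/-- The glued map. -/
noncomputable def glue (H : ℕ → ℝ → ℝ) (ty : ℤ → ℕ) (x : ℝ) : ℝ := H (ty (cell x)) x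

section two

variable {g p C : ℝ} {H : ℕ → ℝ → ℝ} {ty : ℤ → ℕ}

theorem Blk.gap_int {h : ℝ → ℝ} (hb : Blk g p C h) (m : ℤ) {x : ℝ} (hx : |x - zz m| < g) :
    h x = uu x := by
  have h1 := hb.per_int m (x - m * (2 * π))
  rw [sub_add_cancel] at h1
  have h2 : |x - m * (2 * π) - π| < g := by
    unfold zz at hx
    rwa [show x - m * (2 * π) - π = x - (π + m * (2 * π)) by ring]
  have h3 := hb.gap _ h2
  have hper : Function.Periodic (fun x => uu x - x) (2 * π) := fun x => by
    simp only [uu_per]; ring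
  have h4 : uu (x - m * (2 * π) + m * (2 * π)) - (x - m * (2 * π) + m * (2 * π))
    = uu (x - m * (2 * π)) - (x - m * (2 * π)) := hper.int_mul m (x - m * (2 * π))
  rw [sub_add_cancel] at h4
  rw [h1, h3]
  linarith

theorem glue_gap (hH : ∀ j, Blk g p C (H j)) (m : ℤ) {x : ℝ} (hx : |x - zz m| < g) :
    glue H ty x = uu x := (hH _).gap_int m hx

/-- Local structure of the glued map. -/
theorem glue_local (hH : ∀ j, Blk g p C (H j)) (hg : 0 < g) {m : ℤ} {x : ℝ}
    (h1 : zz (m - 1) ≤ x) (h2 : x ≤ zz m) : glue H ty =ᶠ[𝓝 x] H (ty m) := by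
  have hend : ∀ k : ℤ, x = zz k → glue H ty =ᶠ[𝓝 x] H (ty m) := by
    intro k hk
    have : Metric.ball x g ∈ 𝓝 x := Metric.ball_mem_nhds _ hg
    filter_upwards [this] with y hy
    rw [Metric.mem_ball, Real.dist_eq, hk] at hy
    rw [glue_gap hH k hy, (hH _).gap_int k hy]
  rcases h1.eq_or_lt with h1 | h1
  · exact hend _ h1.symm
  rcases h2.eq_or_lt with h2 | h2
  · exact hend _ h2
  have : Ioo (zz (m - 1)) (zz m) ∈ 𝓝 x := Ioo_mem_nhds h1 h2
  filter_upwards [this] with y hy
  unfold glue
  rw [cell_eq.2 ⟨hy.1.le, hy.2⟩]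

theorem glue_eq (hH : ∀ j, Blk g p C (H j)) (hg : 0 < g) {m : ℤ} {x : ℝ}
    (h1 : zz (m - 1) ≤ x) (h2 : x ≤ zz m) : glue H ty x = H (ty m) x :=
  (glue_local hH hg h1 h2).self_of_nhds

theorem glue_deriv (hH : ∀ j, Blk g p C (H j)) (hg : 0 < g) {m : ℤ} {x : ℝ}
    (h1 : zz (m - 1) ≤ x) (h2 : x ≤ zz m) : deriv (glue H ty) x = deriv (H (ty m)) x :=
  (glue_local hH hg h1 h2).deriv_eq

theorem glue_smooth (hH : ∀ j, Blk g p C (H j)) (hg : 0 < g) : ContDiff ℝ ∞ (glue H ty) := by
  rw [contDiff_iff_contDiffAt]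
  intro x
  obtain ⟨h1, h2⟩ := (cell_eq (x := x)).1 rfl
  exact (hH _).smooth.contDiffAt.congr_of_eventuallyEq (glue_local hH hg h1 h2.le)

theorem glue_pos (hH : ∀ j, Blk g p C (H j)) (hg : 0 < g) (x : ℝ) : 0 < deriv (glue H ty) x := by
  obtain ⟨h1, h2⟩ := (cell_eq (x := x)).1 rfl
  rw [glue_deriv hH hg h1 h2.le]
  exact (hH _).pos x

theorem glue_zz (hH : ∀ j, Blk g p C (H j)) (hg : 0 < g) (m : ℤ) : glue H ty (zz m) = zz m := by
  unfold glue zz
  rw [(hH _).per_int, (hH _).fix hg]

theorem glue_mono (hH : ∀ j, Blk g p C (H j)) (hg : 0 < g) : StrictMono (glue H ty) :=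
  strictMono_of_deriv_pos (glue_pos hH hg)

theorem glue_sub (hH : ∀ j, Blk g p C (H j)) (hg : 0 < g) (x : ℝ) :
    |glue H ty x - x| ≤ 2 * π := by
  obtain ⟨h1, h2⟩ := (cell_eq (x := x)).1 rfl
  have m := (glue_mono (ty := ty) hH hg).monotone
  have e1 := m h1
  have e2 := m h2.le
  rw [glue_zz hH hg] at e1 e2
  have e3 := zz_succ (cell x - 1)
  rw [sub_add_cancel] at e3
  rw [abs_le]
  constructor <;> linarith

theorem glue_dc (hH : ∀ j, Blk g p C (H j)) (hg : 0 < g) : Continuous (deriv (glue H ty)) :=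
  (glue_smooth hH hg).continuous_deriv (by norm_num)

theorem glue_cp (hH : ∀ j, Blk g p C (H j)) (hg : 0 < g) (hp : 1 < p) :
    Continuous fun x => (deriv (glue H ty) x) ^ p :=
  (glue_dc hH hg).rpow_const fun q => Or.inr (by linarith)

/-- In one cell. -/
theorem glue_cell_right (hH : ∀ j, Blk g p C (H j)) (hg : 0 < g) (hp : 1 < p) (hC : 0 < C)
    (m : ℤ) {t : ℝ} (ht : 0 ≤ t) (ht2 : t ≤ 2 * π) :
    c1 g * t ≤ glue H ty (zz m + t) - glue H ty (zz m) ∧
      ∫ x in (zz m)..(zz m + t), (deriv (glue H ty) x) ^ p ≤ C3 g p C * t := by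
  obtain ⟨h1, h2⟩ := (hH (ty (m + 1))).right hg hp hC ht ht2
  have e0 : zz (m + 1) = zz m + 2 * π := zz_succ m
  have e1 : glue H ty (zz m + t) = H (ty (m + 1)) (zz m + t) :=
    glue_eq hH hg (by rw [add_sub_cancel_right]; linarith) (by rw [e0]; linarith)
  have e2 : glue H ty (zz m) = H (ty (m + 1)) (zz m) :=
    glue_eq hH hg (by rw [add_sub_cancel_right]) (by rw [e0]; linarith)
  constructor
  · rw [e1, e2]
    have e3 : zz m + t = π + t + m * (2 * π) := by unfold zz; ring
    rw [e3, (hH _).per_int]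
    unfold zz
    rw [(hH _).per_int]
    linarith
  · have e3 : ∫ x in (zz m)..(zz m + t), (deriv (glue H ty) x) ^ p
        = ∫ x in (zz m)..(zz m + t), (deriv (H (ty (m + 1))) x) ^ p := by
      apply intervalIntegral.integral_congr
      intro x hx
      rw [uIcc_of_le (by linarith)] at hx
      simp only
      rw [glue_deriv hH hg (by rw [add_sub_cancel_right]; exact hx.1)
        (by rw [e0]; linarith [hx.2])]
    rw [e3]
    have e4 : ∫ x in (zz m)..(zz m + t), (deriv (H (ty (m + 1))) x) ^ p
        = ∫ x in π..(π + t), (deriv (H (ty (m + 1))) x) ^ p := by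
      have := intervalIntegral.integral_comp_add_right (a := π) (b := π + t)
        (fun x => (deriv (H (ty (m + 1))) x) ^ p) (m * (2 * π))
      simp only [(hH _).deriv_per] at this
      rw [this]
      unfold zz
      congr 1
      ring
    rw [e4]
    exact h2

theorem glue_cell_left (hH : ∀ j, Blk g p C (H j)) (hg : 0 < g) (hp : 1 < p) (hC : 0 < C)
    (m : ℤ) {t : ℝ} (ht : 0 ≤ t) (ht2 : t ≤ 2 * π) :
    c1 g * t ≤ glue H ty (zz m) - glue H ty (zz m - t) ∧
      ∫ x in (zz m - t)..(zz m), (deriv (glue H ty) x) ^ p ≤ C3 g p C * t := by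
  obtain ⟨h1, h2⟩ := (hH (ty m)).left hg hp hC ht ht2
  have e0 : zz m = zz (m - 1) + 2 * π := by rw [← zz_succ, sub_add_cancel]
  have e1 : glue H ty (zz m - t) = H (ty m) (zz m - t) :=
    glue_eq hH hg (by linarith) (by linarith)
  have e2 : glue H ty (zz m) = H (ty m) (zz m) :=
    glue_eq hH hg (by linarith) le_rfl
  constructor
  · rw [e1, e2]
    have e3 : zz m - t = π - t + m * (2 * π) := by unfold zz; ring
    rw [e3, (hH _).per_int]
    unfold zz
    rw [(hH _).per_int]
    linarith
  · have e3 : ∫ x in (zz m - t)..(zz m), (deriv (glue H ty) x) ^ p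
        = ∫ x in (zz m - t)..(zz m), (deriv (H (ty m)) x) ^ p := by
      apply intervalIntegral.integral_congr
      intro x hx
      rw [uIcc_of_le (by linarith)] at hx
      simp only
      rw [glue_deriv hH hg (by linarith [hx.1]) hx.2]
    rw [e3]
    have e4 : ∫ x in (zz m - t)..(zz m), (deriv (H (ty m)) x) ^ p
        = ∫ x in (π - t)..π, (deriv (H (ty m)) x) ^ p := by
      have := intervalIntegral.integral_comp_add_right (a := π - t) (b := π)
        (fun x => (deriv (H (ty m)) x) ^ p) (m * (2 * π))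
      simp only [(hH _).deriv_per] at this
      rw [this]
      unfold zz
      congr 1
      ring
    rw [e4]
    exact h2

theorem glue_right (hH : ∀ j, Blk g p C (H j)) (hg : 0 < g) (hp : 1 < p) (hC : 0 < C)
    (n : ℕ) : ∀ (m : ℤ) (t : ℝ), 0 ≤ t → t ≤ (n + 1) * (2 * π) →
    c1 g * t ≤ glue H ty (zz m + t) - glue H ty (zz m) ∧
      ∫ x in (zz m)..(zz m + t), (deriv (glue H ty) x) ^ p ≤ C3 g p C * t := by
  have hπ := Real.pi_pos
  induction n with
  | zero =>
    intro m t ht ht2
    exact glue_cell_right hH hg hp hC m ht (by simpa using ht2)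
  | succ n ih =>
    intro m t ht ht2
    rcases le_or_gt t (2 * π) with h1 | h1
    · exact glue_cell_right hH hg hp hC m ht h1
    · obtain ⟨a1, a2⟩ := glue_cell_right (ty := ty) hH hg hp hC m (t := 2 * π) (by positivity) le_rfl
      obtain ⟨b1, b2⟩ := ih (m + 1) (t - 2 * π) (by linarith) (by push_cast at ht2 ⊢; linarith)
      have e : zz (m + 1) + (t - 2 * π) = zz m + t := by rw [zz_succ]; ring
      rw [e, zz_succ] at b1 b2
      constructor
      · linarith
      · rw [← intervalIntegral.integral_add_adjacent_intervals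
          ((glue_cp hH hg hp).intervalIntegrable (zz m) (zz m + 2 * π))
          ((glue_cp hH hg hp).intervalIntegrable _ _)]
        linarith

theorem glue_left (hH : ∀ j, Blk g p C (H j)) (hg : 0 < g) (hp : 1 < p) (hC : 0 < C)
    (n : ℕ) : ∀ (m : ℤ) (t : ℝ), 0 ≤ t → t ≤ (n + 1) * (2 * π) →
    c1 g * t ≤ glue H ty (zz m) - glue H ty (zz m - t) ∧
      ∫ x in (zz m - t)..(zz m), (deriv (glue H ty) x) ^ p ≤ C3 g p C * t := by
  have hπ := Real.pi_pos
  induction n with
  | zero =>
    intro m t ht ht2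
    exact glue_cell_left hH hg hp hC m ht (by simpa using ht2)
  | succ n ih =>
    intro m t ht ht2
    rcases le_or_gt t (2 * π) with h1 | h1
    · exact glue_cell_left hH hg hp hC m ht h1
    · obtain ⟨a1, a2⟩ := glue_cell_left (ty := ty) hH hg hp hC m (t := 2 * π) (by positivity) le_rfl
      obtain ⟨b1, b2⟩ := ih (m - 1) (t - 2 * π) (by linarith) (by push_cast at ht2 ⊢; linarith)
      have e0 : zz m = zz (m - 1) + 2 * π := by rw [← zz_succ, sub_add_cancel]
      have e : zz (m - 1) - (t - 2 * π) = zz m - t := by rw [e0]; ring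
      have e' : zz (m - 1) = zz m - 2 * π := by rw [e0]; ring
      rw [e, e'] at b1 b2
      constructor
      · linarith
      · rw [← intervalIntegral.integral_add_adjacent_intervals
          ((glue_cp hH hg hp).intervalIntegrable (zz m - t) (zz m - 2 * π))
          ((glue_cp hH hg hp).intervalIntegrable _ _)]
        linarith

/-- The reverse Hoelder inequality for the glued map. -/
theorem glue_rh (hH : ∀ j, Blk g p C (H j)) (hg : 0 < g) (hp : 1 < p) (hC : 0 < C) {a b : ℝ}
    (hab : a < b) : (∫ x in a..b, (deriv (glue H ty) x) ^ p) * (b - a) ^ (p - 1)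
      ≤ (C + C3 g p C / (c1 g) ^ p) * (glue H ty b - glue H ty a) ^ p := by
  have hπ := Real.pi_pos
  have hba : 0 < b - a := by linarith
  have hmono := (glue_mono (ty := ty) hH hg) hab
  have hc1 := c1_pos hg
  have hC3 : 0 < C3 g p C := by unfold C3; positivity
  have hpow : 0 ≤ (glue H ty b - glue H ty a) ^ p := Real.rpow_nonneg (by linarith) _
  obtain ⟨ha1, ha2⟩ := (cell_eq (x := a)).1 rfl
  set m := cell a with hm
  rcases le_or_gt b (zz m) with hb | hb
  · -- one cell
    have e1 : glue H ty a = H (ty m) a := glue_eq hH hg ha1 ha2.le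
    have e2 : glue H ty b = H (ty m) b := glue_eq hH hg (by linarith) hb
    have e3 : ∫ x in a..b, (deriv (glue H ty) x) ^ p = ∫ x in a..b, (deriv (H (ty m)) x) ^ p := by
      apply intervalIntegral.integral_congr
      intro x hx
      rw [uIcc_of_le hab.le] at hx
      simp only
      rw [glue_deriv hH hg (by linarith [hx.1]) (by linarith [hx.2])]
    rw [e1, e2] at hpow
    rw [e1, e2, e3]
    refine ((hH (ty m)).rh a b hab).trans ?_
    apply mul_le_mul_of_nonneg_right _ hpow
    have : 0 ≤ C3 g p C / (c1 g) ^ p := by positivity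
    linarith
  · -- several cells
    obtain ⟨n, hn⟩ := exists_nat_gt ((b - a) / (2 * π))
    rw [div_lt_iff₀ (by positivity)] at hn
    obtain ⟨r1, r2⟩ := glue_right (ty := ty) hH hg hp hC n m (b - zz m) (by linarith) (by nlinarith)
    obtain ⟨l1, l2⟩ := glue_left (ty := ty) hH hg hp hC n m (zz m - a) (by linarith) (by nlinarith)
    rw [add_sub_cancel] at r1 r2
    rw [sub_sub_cancel] at l1 l2
    have w1 : c1 g * (b - a) ≤ glue H ty b - glue H ty a := by linarith
    have w2 : ∫ x in a..b, (deriv (glue H ty) x) ^ p ≤ C3 g p C * (b - a) := by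
      rw [← intervalIntegral.integral_add_adjacent_intervals
          ((glue_cp hH hg hp).intervalIntegrable a (zz m))
          ((glue_cp hH hg hp).intervalIntegrable _ _)]
      linarith
    calc (∫ x in a..b, (deriv (glue H ty) x) ^ p) * (b - a) ^ (p - 1)
        ≤ (C3 g p C * (b - a)) * (b - a) ^ (p - 1) := by gcongr
      _ = C3 g p C * (b - a) ^ p := by
          have : (b - a) ^ p = (b - a) ^ (p - 1) * (b - a) := by
            rw [← Real.rpow_add_one hba.ne']; congr 1; ring
          rw [this]; ring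
      _ = C3 g p C / (c1 g) ^ p * (c1 g * (b - a)) ^ p := by
          rw [Real.mul_rpow hc1.le hba.le]
          have : (c1 g) ^ p ≠ 0 := by positivity
          field_simp
      _ ≤ C3 g p C / (c1 g) ^ p * (glue H ty b - glue H ty a) ^ p := by gcongr
      _ ≤ (C + C3 g p C / (c1 g) ^ p) * (glue H ty b - glue H ty a) ^ p := by
          apply mul_le_mul_of_nonneg_right _ hpow
          linarith

end two

end Pool.Agent.TH244.L
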