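import Mathlib
import Pool.Agent.TH244.L.Glue
import Pool.Agent.TH244.L.Defs

set_option autoImplicit false

/-!
# The glued map belongs to `G`
-/

namespace Pool.Agent.TH244.L

open MeasureTheory Set Filter Topology
open scoped Real ContDiff

theorem ainfty_of_rh {h : ℝ → ℝ} (hh : ContDiff ℝ ∞ h) (hpos : ∀ x, 0 < deriv h x) {p C : ℝ}
    (hp : 1 < p) (hC : 0 < C)
    (rh : ∀ a b, a < b → (∫ x in a..b, (deriv h x) ^ p) * (b - a) ^ (p - 1)
      ≤ C * (h b - h a) ^ p) : IsAInfty (deriv h) := by
  have hp0 : 0 < p := by linarith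
  have hdc : Continuous (deriv h) := hh.continuous_deriv (by norm_num)
  have hpq : p.HolderConjugate (p / (p - 1)) := Real.HolderConjugate.conjExponent hp
  set q := p / (p - 1) with hq
  have hq0 : 0 < q := by rw [hq]; exact div_pos hp0 (by linarith)
  refine ⟨fun x => (hpos x).le, hdc.locallyIntegrable, C ^ (1 / p), 1 / q, by positivity,
    by positivity, fun a b hab E hE hEab => ?_⟩
  have hba : 0 < b - a := by linarith
  obtain ⟨M, hM⟩ := isCompact_Icc.exists_bound_of_continuousOn (hdc.continuousOn (s := Icc a b))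
  have hEfin : volume E < ⊤ := lt_of_le_of_lt (measure_mono hEab) (by
    rw [Real.volume_Icc]; exact ENNReal.ofReal_lt_top)
  have : IsFiniteMeasure (volume.restrict E) := ⟨by rwa [Measure.restrict_apply_univ]⟩
  have hwL : MemLp (deriv h) (ENNReal.ofReal p) (volume.restrict E) := by
    refine MemLp.of_bound hdc.aestronglyMeasurable M ?_
    filter_upwards [ae_restrict_mem hE] with x hx
    exact hM x (hEab hx)
  have h1L : MemLp (fun _ : ℝ => (1:ℝ)) (ENNReal.ofReal q) (volume.restrict E) := memLp_const 1
  have hold := integral_mul_le_Lp_mul_Lq_of_nonneg (μ := volume.restrict E) hpq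
    (Eventually.of_forall fun x => (hpos x).le) (Eventually.of_forall fun x => zero_le_one)
    hwL h1L
  simp only [mul_one, Real.one_rpow, integral_const, smul_eq_mul] at hold
  rw [measureReal_restrict_apply_univ] at hold
  -- the integral over the interval
  have hII : ∫ x in Icc a b, deriv h x = h b - h a := by
    rw [integral_Icc_eq_integral_Ioc, ← intervalIntegral.integral_of_le hab.le]
    exact intervalIntegral.integral_deriv_eq_sub
      (fun x _ => (hh.differentiable (by norm_num)).differentiableAt) (hdc.intervalIntegrable _ _)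
  have hcp : Continuous fun x => (deriv h x) ^ p := hdc.rpow_const fun q => Or.inr hp0.le
  have hV : ∫ x in E, (deriv h x) ^ p ≤ ∫ x in a..b, (deriv h x) ^ p := by
    rw [intervalIntegral.integral_of_le hab.le, ← integral_Icc_eq_integral_Ioc]
    exact setIntegral_mono_set (hcp.integrableOn_Icc)
      (Eventually.of_forall fun x => Real.rpow_nonneg (hpos x).le _)
      (Eventually.of_forall fun x hx => hEab hx)
  have hW : 0 < h b - h a := by
    have := (strictMono_of_deriv_pos hpos) hab
    linarith
  have hV2 : ∫ x in a..b, (deriv h x) ^ p ≤ C * (h b - h a) ^ p / (b - a) ^ (p - 1) := by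
    rw [le_div_iff₀ (by positivity)]
    exact rh a b hab
  have hE0 : 0 ≤ ∫ x in E, (deriv h x) ^ p :=
    integral_nonneg fun x => Real.rpow_nonneg (hpos x).le _
  have hkey : (∫ x in E, (deriv h x) ^ p) ^ (1 / p)
      ≤ C ^ (1 / p) * (h b - h a) / (b - a) ^ (1 / q) := by
    calc (∫ x in E, (deriv h x) ^ p) ^ (1 / p)
        ≤ (C * (h b - h a) ^ p / (b - a) ^ (p - 1)) ^ (1 / p) :=
          Real.rpow_le_rpow hE0 (hV.trans hV2) (by positivity)
      _ = _ := by
          rw [Real.div_rpow (by positivity) (by positivity), Real.mul_rpow hC.le (by positivity),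
            ← Real.rpow_mul hW.le, ← Real.rpow_mul hba.le]
          have e1 : p * (1 / p) = 1 := by field_simp
          have e2 : (p - 1) * (1 / p) = 1 / q := by
            rw [hq]; field_simp
          rw [e1, e2, Real.rpow_one]
  have hm : 0 ≤ volume.real E := measureReal_nonneg
  rw [hII]
  calc ∫ x in E, deriv h x ≤ (∫ x in E, (deriv h x) ^ p) ^ (1 / p) * (volume.real E) ^ (1 / q) :=
        hold
    _ ≤ (C ^ (1 / p) * (h b - h a) / (b - a) ^ (1 / q)) * (volume.real E) ^ (1 / q) := by
        gcongr
    _ = C ^ (1 / p) * ((volume E).toReal / (b - a)) ^ (1 / q) * (h b - h a) := by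
        rw [Real.div_rpow ENNReal.toReal_nonneg hba.le]
        rw [measureReal_def]
        ring

theorem inG_of_rh {h : ℝ → ℝ} (hh : ContDiff ℝ ∞ h) (hpos : ∀ x, 0 < deriv h x) {p C D : ℝ}
    (hp : 1 < p) (hC : 0 < C)
    (rh : ∀ a b, a < b → (∫ x in a..b, (deriv h x) ^ p) * (b - a) ^ (p - 1)
      ≤ C * (h b - h a) ^ p) (hD : ∀ x, |h x - x| ≤ D) : InG h := by
  have hdc : Continuous (deriv h) := hh.continuous_deriv (by norm_num)
  refine ⟨strictMono_of_deriv_pos hpos, hh.continuous, ?_, deriv h,
    ainfty_of_rh hh hpos hp hC rh, fun a b => ?_⟩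
  · apply hh.continuous.surjective
    · refine tendsto_atTop_mono (f := fun x => x - D) (fun x => ?_) ?_
      · have := hD x
        rw [abs_le] at this
        linarith [this.1]
      · exact tendsto_atTop_add_const_right _ _ tendsto_id
    · refine tendsto_atBot_mono (f := fun x => x + D) (fun x => ?_) ?_
      · have := hD x
        rw [abs_le] at this
        linarith [this.2]
      · exact tendsto_atBot_add_const_right _ _ tendsto_id
  · exact (intervalIntegral.integral_deriv_eq_sub
      (fun x _ => (hh.differentiable (by norm_num)).differentiableAt)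
      (hdc.intervalIntegrable _ _)).symm

theorem glue_inG {g p C : ℝ} {H : ℕ → ℝ → ℝ} {ty : ℤ → ℕ} (hH : ∀ j, Blk g p C (H j))
    (hg : 0 < g) (hp : 1 < p) (hC : 0 < C) : InG (glue H ty) := by
  have hc1 := c1_pos hg
  have hC3 : 0 < C3 g p C := by unfold C3; have := Real.pi_pos; positivity
  exact inG_of_rh (glue_smooth hH hg) (glue_pos hH hg) hp (C := C + C3 g p C / (c1 g) ^ p)
    (by positivity) (fun a b hab => glue_rh hH hg hp hC hab) (glue_sub hH hg)

end Pool.Agent.TH244.L
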