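import Mathlib

set_option autoImplicit false

/-!
# Integrals over the line of functions holomorphic in the upper half plane
-/

namespace Pool.Agent.TH244.L

open MeasureTheory Set Filter Topology Complex

/-- If `G` is continuous on the closed upper half plane, holomorphic inside, and
`‖G w‖ ≤ C / (1 + ‖w‖²)`, then the integral of `G` over the real line is zero. -/
theorem integral_line_eq_zero (G : ℂ → ℂ) (C : ℝ)
    (hc : ContinuousOn G {w | 0 ≤ w.im}) (hd : DifferentiableOn ℂ G {w | 0 < w.im})
    (hb : ∀ w : ℂ, 0 ≤ w.im → ‖G w‖ ≤ C / (1 + ‖w‖ ^ 2)) :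
    ∫ x : ℝ, G x = 0 := by
  have hC : 0 ≤ C := by
    have := hb 0 (by simp)
    simp at this
    exact (norm_nonneg _).trans this
  -- integrability on the line
  have hcont : Continuous fun x : ℝ => G x := by
    rw [← continuousOn_univ]
    refine hc.comp (by fun_prop) ?_
    intro x _
    simp
  have hint : Integrable fun x : ℝ => G x := by
    refine Integrable.mono' ((integrable_inv_one_add_sq).const_mul C)
      hcont.aestronglyMeasurable (Eventually.of_forall fun x => ?_)
    have := hb x (by simp)
    simpa [div_eq_mul_inv] using this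
  have hlim := intervalIntegral_tendsto_integral hint tendsto_neg_atTop_atBot tendsto_id
  -- the rectangle
  have hrect : ∀ R : ℝ, 0 < R → ‖∫ x in (-R)..R, G x‖ ≤ 4 * C / R := by
    intro R hR
    have h := Complex.integral_boundary_rect_eq_zero_of_continuousOn_of_differentiableOn G
      (⟨-R, 0⟩ : ℂ) (⟨R, R⟩ : ℂ) ?_ ?_
    · simp only at h
      have h1 : ‖∫ x in (-R)..R, G (x + R * I)‖ ≤ C / R ^ 2 * |R - (-R)| := by
        apply intervalIntegral.norm_integral_le_of_norm_le_const
        intro x _
        refine (hb _ (by simp [hR.le])).trans ?_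
        apply div_le_div_of_nonneg_left hC (by positivity)
        have : R ^ 2 ≤ ‖(x : ℂ) + R * I‖ ^ 2 := by
          rw [← Complex.normSq_eq_norm_sq, Complex.normSq_add_mul_I]
          nlinarith [sq_nonneg x]
        linarith
      have h2 : ∀ s : ℝ, |s| = R → ‖∫ y in (0:ℝ)..R, G (s + y * I)‖ ≤ C / R ^ 2 * |R - 0| := by
        intro s hs
        apply intervalIntegral.norm_integral_le_of_norm_le_const
        intro y hy
        rw [uIoc_of_le hR.le] at hy
        refine (hb _ (by simp [hy.1.le])).trans ?_
        apply div_le_div_of_nonneg_left hC (by positivity)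
        have : R ^ 2 ≤ ‖(s : ℂ) + y * I‖ ^ 2 := by
          rw [← Complex.normSq_eq_norm_sq, Complex.normSq_add_mul_I, ← hs, sq_abs]
          nlinarith [sq_nonneg y]
        linarith
      have h3 := h2 R (abs_of_pos hR)
      have h4 := h2 (-R) (by rw [abs_neg, abs_of_pos hR])
      have e0 : ∫ x in (-R)..R, G (x + (0:ℝ) * I) = ∫ x in (-R)..R, G x := by
        simp
      rw [e0] at h
      have e1 : ∫ x in (-R)..R, G x = (∫ x in (-R)..R, G (x + R * I))
          - I • (∫ y in (0:ℝ)..R, G (R + y * I)) + I • (∫ y in (0:ℝ)..R, G ((-R : ℝ) + y * I)) := by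
        linear_combination h
      rw [e1]
      have e2 : |R - 0| = R := by rw [sub_zero, abs_of_pos hR]
      have e3 : |R - (-R)| = 2 * R := by rw [sub_neg_eq_add, abs_of_pos (by linarith)]; ring
      rw [e2] at h3 h4
      rw [e3] at h1
      calc _ ≤ ‖(∫ x in (-R)..R, G (x + R * I)) - I • (∫ y in (0:ℝ)..R, G (R + y * I))‖
            + ‖I • (∫ y in (0:ℝ)..R, G ((-R : ℝ) + y * I))‖ := norm_add_le _ _
        _ ≤ ‖(∫ x in (-R)..R, G (x + R * I))‖ + ‖I • (∫ y in (0:ℝ)..R, G (R + y * I))‖
            + ‖I • (∫ y in (0:ℝ)..R, G ((-R : ℝ) + y * I))‖ := by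
              gcongr; exact norm_sub_le _ _
        _ ≤ C / R ^ 2 * (2 * R) + C / R ^ 2 * R + C / R ^ 2 * R := by
              rw [norm_smul, norm_smul, Complex.norm_I, one_mul, one_mul]
              gcongr
        _ = 4 * C / R := by field_simp; ring
    · refine hc.mono ?_
      intro w hw
      have := hw.2
      simp only [mem_preimage] at this
      rw [uIcc_of_le hR.le] at this
      exact this.1
    · refine hd.mono ?_
      intro w hw
      have := hw.2
      simp only [mem_preimage] at this
      rw [min_eq_left hR.le] at this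
      exact this.1
  have hlim2 : Tendsto (fun R : ℝ => ∫ x in (-R)..R, G x) atTop (𝓝 0) := by
    rw [tendsto_zero_iff_norm_tendsto_zero]
    refine squeeze_zero' (Eventually.of_forall fun _ => norm_nonneg _)
      ((eventually_gt_atTop 0).mono hrect) ?_
    exact tendsto_const_nhds.div_atTop tendsto_id
  exact tendsto_nhds_unique hlim hlim2

end Pool.Agent.TH244.L
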