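import Pool.Agent.TH244.L.Pv
import Pool.Agent.TH244.L.UHP

set_option autoImplicit false

/-!
# The Hilbert transform of boundary values of bounded analytic functions
-/

namespace Pool.Agent.TH244.L

open MeasureTheory Set Filter Topology Complex
open scoped Real ENNReal

/-- The Poisson integral converges. -/
theorem poisson_tendsto {f : ℝ → ℂ} (hf : AEStronglyMeasurable f) {B x : ℝ} (hB : ∀ t, ‖f t‖ ≤ B)
    (hL : LipAt f x) :
    Tendsto (fun y : ℝ => ((1 / π : ℝ) : ℂ) * ∫ t, f t * ((y / ((x - t) ^ 2 + y ^ 2) : ℝ) : ℂ))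
      (𝓝[>] 0) (𝓝 (f x)) := by
  have hcont : ContinuousAt f x := by
    obtain ⟨L, hL⟩ := hL
    rw [Metric.continuousAt_iff']
    intro ε hε
    have : ∀ᶠ t in 𝓝 x, |t - x| < ε / (|L| + 1) := by
      have h1 : Metric.ball x (ε / (|L| + 1)) ∈ 𝓝 x := Metric.ball_mem_nhds _ (by positivity)
      filter_upwards [h1] with t ht
      simpa [Real.dist_eq] using ht
    filter_upwards [this] with t ht
    rw [dist_eq_norm]
    calc ‖f t - f x‖ ≤ L * |t - x| := hL t
      _ ≤ (|L| + 1) * |t - x| := by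
          gcongr
          linarith [le_abs_self L]
      _ < (|L| + 1) * (ε / (|L| + 1)) := by gcongr
      _ = ε := by field_simp
  have key : ∀ y : ℝ, 0 < y → ∫ t, f t * ((y / ((x - t) ^ 2 + y ^ 2) : ℝ) : ℂ)
      = ∫ u, f (x - y * u) * (((1 + u ^ 2)⁻¹ : ℝ) : ℂ) := by
    intro y hy
    have h1 : ∫ t, f t * ((y / ((x - t) ^ 2 + y ^ 2) : ℝ) : ℂ)
        = ∫ s, f (x - s) * ((y / (s ^ 2 + y ^ 2) : ℝ) : ℂ) := by
      rw [← integral_sub_left_eq_self (fun s => f (x - s) * ((y / (s ^ 2 + y ^ 2) : ℝ) : ℂ)) volume x]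
      simp
    rw [h1]
    have h2 := Measure.integral_comp_mul_left
      (fun s : ℝ => f (x - s) * ((y / (s ^ 2 + y ^ 2) : ℝ) : ℂ)) y
    have h3 : ∫ s, f (x - s) * ((y / (s ^ 2 + y ^ 2) : ℝ) : ℂ)
        = y • ∫ u, f (x - y * u) * ((y / ((y * u) ^ 2 + y ^ 2) : ℝ) : ℂ) := by
      rw [h2, abs_of_pos (inv_pos.2 hy), smul_smul, mul_inv_cancel₀ hy.ne', one_smul]
    rw [h3, ← integral_smul]
    refine integral_congr_ae (Eventually.of_forall fun u => ?_)
    simp only
    rw [Complex.real_smul]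
    have : (1 + u ^ 2 : ℝ) ≠ 0 := by positivity
    have h5 : y * (y / ((y * u) ^ 2 + y ^ 2)) = (1 + u ^ 2)⁻¹ := by
      field_simp
      ring
    rw [← h5]
    push_cast
    ring
  have hlim : Tendsto (fun y : ℝ => ∫ u, f (x - y * u) * (((1 + u ^ 2)⁻¹ : ℝ) : ℂ)) (𝓝[>] 0)
      (𝓝 (∫ u : ℝ, f x * (((1 + u ^ 2)⁻¹ : ℝ) : ℂ))) := by
    refine tendsto_integral_filter_of_dominated_convergence
      (fun u => B * (1 + u ^ 2)⁻¹) ?_ ?_ (integrable_inv_one_add_sq.const_mul _) ?_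
    · have : ∀ᶠ ε in 𝓝[>] (0:ℝ), ε ∈ Ioo (0:ℝ) 1 := Ioo_mem_nhdsGT one_pos
      filter_upwards [this] with y hy
      refine AEStronglyMeasurable.mul ?_ (by fun_prop)
      have hq : Measure.QuasiMeasurePreserving (fun u : ℝ => x - y * u) volume volume := by
        refine ⟨by fun_prop, ?_⟩
        have h1 := (Measure.quasiMeasurePreserving_smul (volume : Measure ℝ) hy.1.ne')
        have h2 : Measure.QuasiMeasurePreserving (fun u : ℝ => x - u) volume volume :=
          (Measure.measurePreserving_sub_left volume x).quasiMeasurePreserving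
        exact (h2.comp h1).absolutelyContinuous
      exact hf.comp_quasiMeasurePreserving hq
    · refine Eventually.of_forall fun y => Eventually.of_forall fun u => ?_
      rw [norm_mul, Complex.norm_real, Real.norm_eq_abs, abs_of_pos (by positivity)]
      gcongr
      exact hB _
    · refine Eventually.of_forall fun u => ?_
      refine Tendsto.mul_const _ ?_
      have h1 : Tendsto (fun y : ℝ => x - y * u) (𝓝[>] 0) (𝓝 x) := by
        have : Tendsto (fun y : ℝ => x - y * u) (𝓝 0) (𝓝 (x - 0 * u)) := by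
          apply Continuous.tendsto; fun_prop
        simp only [zero_mul, sub_zero] at this
        exact this.mono_left nhdsWithin_le_nhds
      exact hcont.tendsto.comp h1
  have hval : ((1 / π : ℝ) : ℂ) * ∫ u : ℝ, f x * (((1 + u ^ 2)⁻¹ : ℝ) : ℂ) = f x := by
    have h1 : ∫ u : ℝ, (((1 + u ^ 2)⁻¹ : ℝ) : ℂ) = ((∫ u : ℝ, (1 + u ^ 2)⁻¹ : ℝ) : ℂ) := integral_ofReal
    rw [integral_const_mul, h1, integral_univ_inv_one_add_sq]
    have : (π : ℂ) ≠ 0 := by exact_mod_cast Real.pi_ne_zero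
    push_cast
    field_simp
  have h4 := hlim.const_mul (((1 / π : ℝ) : ℂ))
  rw [hval] at h4
  refine h4.congr' ?_
  have : ∀ᶠ ε in 𝓝[>] (0:ℝ), ε ∈ Ioo (0:ℝ) 1 := Ioo_mem_nhdsGT one_pos
  filter_upwards [this] with y hy
  rw [key y hy.1]

/-- `H f = -i f + c` for boundary values of bounded analytic functions in the upper half plane. -/
theorem pvH_analytic (F : ℂ → ℂ) (B : ℝ) (hc : ContinuousOn F {w | 0 ≤ w.im})
    (hd : DifferentiableOn ℂ F {w | 0 < w.im}) (hB : ∀ w : ℂ, 0 ≤ w.im → ‖F w‖ ≤ B)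
    {x : ℝ} (hL : LipAt (fun t : ℝ => F t) x) :
    pvH (fun t : ℝ => F t) x = -I * F x
      + ((1 / π : ℝ) : ℂ) * (I * ∫ t : ℝ, F t * (((1 + t ^ 2)⁻¹ : ℝ) : ℂ)) := by
  have hB0 : 0 ≤ B := (norm_nonneg _).trans (hB 0 (by simp))
  have hfc : Continuous fun t : ℝ => F t := by
    rw [← continuousOn_univ]
    refine hc.comp (by fun_prop) ?_
    intro t _
    simp
  have hfm := hfc.aestronglyMeasurable (μ := (volume : Measure ℝ))
  have hB' : ∀ t : ℝ, ‖F t‖ ≤ B := fun t => hB t (by simp)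
  have i1 : Integrable fun t : ℝ => F t * (((1 + t ^ 2)⁻¹ : ℝ) : ℂ) := by
    refine Integrable.mono' (integrable_inv_one_add_sq.const_mul B)
      (hfm.mul (by fun_prop)) (Eventually.of_forall fun t => ?_)
    rw [norm_mul, Complex.norm_real, Real.norm_eq_abs, abs_of_pos (by positivity)]
    gcongr
    exact hB' t
  have key : ∀ y : ℝ, 0 < y → y < 1 →
      ((1 / π : ℝ) : ℂ) * ∫ t : ℝ, F t * ((kS y (x - t) + t / (1 + t ^ 2) : ℝ) : ℂ)
      = -I * (((1 / π : ℝ) : ℂ) * ∫ t : ℝ, F t * ((y / ((x - t) ^ 2 + y ^ 2) : ℝ) : ℂ))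
        + ((1 / π : ℝ) : ℂ) * (I * ∫ t : ℝ, F t * (((1 + t ^ 2)⁻¹ : ℝ) : ℂ)) := by
    intro y hy hy1
    -- the contour integral
    have h0 : ∫ t : ℝ, F t * (1 / ((t : ℂ) - x + y * I) - 1 / ((t : ℂ) + I)) = 0 := by
      have hne : ∀ w : ℂ, 0 ≤ w.im → w - x + y * I ≠ 0 := by
        intro w hw h
        have := congrArg Complex.im h
        simp at this
        linarith
      have hne2 : ∀ w : ℂ, 0 ≤ w.im → w + I ≠ 0 := by
        intro w hw h
        have := congrArg Complex.im h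
        simp at this
        linarith
      have hcont : ContinuousOn (fun w : ℂ => 1 / (w - x + y * I) - 1 / (w + I)) {w | 0 ≤ w.im} := by
        refine ContinuousOn.sub ?_ ?_
        · exact ContinuousOn.div continuousOn_const (by fun_prop) fun w hw => hne w hw
        · exact ContinuousOn.div continuousOn_const (by fun_prop) fun w hw => hne2 w hw
      have hdiff : DifferentiableOn ℂ (fun w : ℂ => 1 / (w - x + y * I) - 1 / (w + I))
          {w | 0 < w.im} := by
        refine DifferentiableOn.sub ?_ ?_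
        · exact DifferentiableOn.div (by fun_prop) (by fun_prop) fun w hw => hne w (le_of_lt hw)
        · exact DifferentiableOn.div (by fun_prop) (by fun_prop) fun w hw => hne2 w (le_of_lt hw)
      -- bounds
      have hlow2 : ∀ w : ℂ, 0 ≤ w.im → 1 + ‖w‖ ^ 2 ≤ ‖w + I‖ ^ 2 := by
        intro w hw
        rw [← Complex.normSq_eq_norm_sq, ← Complex.normSq_eq_norm_sq, Complex.normSq_apply,
          Complex.normSq_apply]
        simp
        nlinarith
      have hlow1 : ∀ w : ℂ, 0 ≤ w.im →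
          y ^ 2 * (1 + ‖w‖ ^ 2) ≤ (3 + 2 * x ^ 2) * ‖w - x + y * I‖ ^ 2 := by
        intro w hw
        rw [← Complex.normSq_eq_norm_sq, ← Complex.normSq_eq_norm_sq, Complex.normSq_apply,
          Complex.normSq_apply]
        simp
        have e1 : w.re * w.re ≤ 2 * ((w.re - x) * (w.re - x)) + 2 * x ^ 2 := by
          nlinarith [sq_nonneg (w.re - 2 * x)]
        have hy2 : y ^ 2 ≤ 1 := by nlinarith
        have e2 : y ^ 2 * (w.re * w.re) ≤ 2 * ((w.re - x) * (w.re - x)) + 2 * x ^ 2 * y ^ 2 := by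
          have : y ^ 2 * (w.re * w.re) ≤ y ^ 2 * (2 * ((w.re - x) * (w.re - x)) + 2 * x ^ 2) :=
            mul_le_mul_of_nonneg_left e1 (sq_nonneg y)
          have h3 : y ^ 2 * (2 * ((w.re - x) * (w.re - x))) ≤ 1 * (2 * ((w.re - x) * (w.re - x))) :=
            mul_le_mul_of_nonneg_right hy2 (by nlinarith [mul_self_nonneg (w.re - x)])
          nlinarith
        have e3 : y ^ 2 * (w.im * w.im) ≤ w.im * w.im := by
          nlinarith [mul_self_nonneg w.im]
        have e4 : 0 ≤ x ^ 2 * ((w.re - x) * (w.re - x)) :=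
          mul_nonneg (sq_nonneg x) (mul_self_nonneg _)
        have e5 : (w.im + y) * (w.im + y) ≥ w.im * w.im + y ^ 2 := by nlinarith
        have e6 : x ^ 2 * ((w.im + y) * (w.im + y)) ≥ x ^ 2 * y ^ 2 := by
          have : (w.im + y) * (w.im + y) ≥ y ^ 2 := by nlinarith [mul_self_nonneg w.im]
          exact mul_le_mul_of_nonneg_left this (sq_nonneg x)
        nlinarith [mul_self_nonneg (w.re - x), mul_self_nonneg w.im]
      refine integral_line_eq_zero
        (fun w => F w * (1 / (w - x + y * I) - 1 / (w + I)))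
        (B * ((2 + |x|) * ((3 + 2 * x ^ 2) / y))) (hc.mul hcont) (hd.mul hdiff) ?_
      intro w hw
      have e : 1 / (w - x + y * I) - 1 / (w + I) = (I - (-x + y * I)) / ((w - x + y * I) * (w + I)) := by
        have := hne w hw
        have := hne2 w hw
        field_simp
        ring
      rw [e, norm_mul, norm_div, norm_mul, mul_div_assoc]
      refine mul_le_mul (hB w hw) ?_ (by positivity) hB0
      have hn1 : ‖I - (-(x:ℂ) + y * I)‖ ≤ 2 + |x| := by
        have e1 : I - (-(x:ℂ) + y * I) = (x : ℂ) + ((1 - y : ℝ) : ℂ) * I := by push_cast; ring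
        rw [e1]
        calc ‖(x : ℂ) + ((1 - y : ℝ) : ℂ) * I‖ ≤ ‖(x : ℂ)‖ + ‖((1 - y : ℝ) : ℂ) * I‖ := norm_add_le _ _
          _ = |x| + |1 - y| := by
              rw [norm_mul, Complex.norm_real, Complex.norm_real, Complex.norm_I, mul_one,
                Real.norm_eq_abs, Real.norm_eq_abs]
          _ ≤ 2 + |x| := by
              have : |1 - y| ≤ 2 := by rw [abs_le]; constructor <;> linarith
              linarith
      have ha : 0 < ‖w - x + y * I‖ := norm_pos_iff.2 (hne w hw)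
      have hb : 0 < ‖w + I‖ := norm_pos_iff.2 (hne2 w hw)
      have h1 := hlow1 w hw
      have h2 := hlow2 w hw
      -- (1+|w|²) y ≤ (3+2x²) |a| |b|
      have h3 : y * (1 + ‖w‖ ^ 2) ≤ (3 + 2 * x ^ 2) * (‖w - x + y * I‖ * ‖w + I‖) := by
        have hsq : (y * (1 + ‖w‖ ^ 2)) ^ 2 ≤ ((3 + 2 * x ^ 2) * (‖w - x + y * I‖ * ‖w + I‖)) ^ 2 := by
          have h5 : (y * (1 + ‖w‖ ^ 2)) ^ 2 = (y ^ 2 * (1 + ‖w‖ ^ 2)) * (1 + ‖w‖ ^ 2) := by ring
          have h6 : ((3 + 2 * x ^ 2) * (‖w - x + y * I‖ * ‖w + I‖)) ^ 2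
              = (3 + 2 * x ^ 2) * (((3 + 2 * x ^ 2) * ‖w - x + y * I‖ ^ 2) * ‖w + I‖ ^ 2) := by ring
          rw [h5, h6]
          calc (y ^ 2 * (1 + ‖w‖ ^ 2)) * (1 + ‖w‖ ^ 2)
              ≤ ((3 + 2 * x ^ 2) * ‖w - x + y * I‖ ^ 2) * ‖w + I‖ ^ 2 :=
                mul_le_mul h1 h2 (by positivity) (by positivity)
            _ ≤ (3 + 2 * x ^ 2) * (((3 + 2 * x ^ 2) * ‖w - x + y * I‖ ^ 2) * ‖w + I‖ ^ 2) := by
                apply le_mul_of_one_le_left (by positivity)
                nlinarith [sq_nonneg x]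
        exact le_of_sq_le_sq hsq (by positivity)
      rw [div_le_div_iff₀ (by positivity) (by positivity)]
      calc ‖I - (-(x:ℂ) + y * I)‖ * (1 + ‖w‖ ^ 2)
          ≤ (2 + |x|) * (1 + ‖w‖ ^ 2) := by gcongr
        _ = (2 + |x|) * ((y * (1 + ‖w‖ ^ 2)) / y) := by field_simp
        _ ≤ (2 + |x|) * (((3 + 2 * x ^ 2) * (‖w - x + y * I‖ * ‖w + I‖)) / y) := by gcongr
        _ = _ := by ring
    -- decomposition
    have i2 : Integrable fun t : ℝ => F t * ((kS y (x - t) + t / (1 + t ^ 2) : ℝ) : ℂ) :=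
      (dK_eq (ker_kS hy hy1) (kS_odd y) (kS_le hy) hfm hB' hL).1
    have i3 : Integrable fun t : ℝ => F t * ((y / ((x - t) ^ 2 + y ^ 2) : ℝ) : ℂ) := by
      have hmm : Measurable fun t : ℝ => y / ((x - t) ^ 2 + y ^ 2) := by fun_prop
      refine Integrable.mono' (((integrable_inv_one_add_sq).const_mul ((3 + 2 * x ^ 2) / y)).const_mul B)
        (hfm.mul (Complex.measurable_ofReal.comp hmm).aestronglyMeasurable)
        (Eventually.of_forall fun t => ?_)
      have hpos : 0 < (x - t) ^ 2 + y ^ 2 := by positivity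
      rw [norm_mul, Complex.norm_real, Real.norm_eq_abs, abs_of_pos (by positivity)]
      refine mul_le_mul (hB' t) ?_ (by positivity) hB0
      rw [← div_eq_mul_inv, div_div, div_le_div_iff₀ hpos (by positivity)]
      have hy2 : y ^ 2 ≤ 1 := by nlinarith
      have e1 : t ^ 2 ≤ 2 * (x - t) ^ 2 + 2 * x ^ 2 := by nlinarith [sq_nonneg (t - 2 * x)]
      have e2 : y ^ 2 * t ^ 2 ≤ 2 * (x - t) ^ 2 + 2 * x ^ 2 * y ^ 2 := by
        have h3 := mul_le_mul_of_nonneg_left e1 (sq_nonneg y)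
        have h4 : y ^ 2 * (2 * (x - t) ^ 2) ≤ 1 * (2 * (x - t) ^ 2) :=
          mul_le_mul_of_nonneg_right hy2 (by positivity)
        nlinarith
      have e4 : 0 ≤ x ^ 2 * (x - t) ^ 2 := by positivity
      nlinarith [sq_nonneg (x - t)]
    have e : ∀ t : ℝ, F t * (1 / ((t : ℂ) - x + y * I) - 1 / ((t : ℂ) + I))
        = -(F t * ((kS y (x - t) + t / (1 + t ^ 2) : ℝ) : ℂ))
          - I * (F t * ((y / ((x - t) ^ 2 + y ^ 2) : ℝ) : ℂ))
          + I * (F t * (((1 + t ^ 2)⁻¹ : ℝ) : ℂ)) := by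
      intro t
      have n1 : ((t : ℂ) - x + y * I) ≠ 0 := by
        intro h
        have := congrArg Complex.im h
        simp at this
        linarith
      have n2 : ((t : ℂ) + I) ≠ 0 := by
        intro h
        have := congrArg Complex.im h
        simp at this
      have r1 : 1 / ((t : ℂ) - x + y * I)
          = -((kS y (x - t) : ℝ) : ℂ) - I * ((y / ((x - t) ^ 2 + y ^ 2) : ℝ) : ℂ) := by
        have hpos : ((x - t) ^ 2 + y ^ 2 : ℝ) ≠ 0 := by positivity
        have hpos' : (((x : ℂ) - t) ^ 2 + y ^ 2) ≠ 0 := by exact_mod_cast hpos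
        unfold kS
        push_cast
        rw [div_eq_iff n1]
        field_simp
        linear_combination ((y:ℂ) ^ 2) * Complex.I_sq
      have r2 : 1 / ((t : ℂ) + I) = ((t / (1 + t ^ 2) : ℝ) : ℂ) - I * (((1 + t ^ 2)⁻¹ : ℝ) : ℂ) := by
        have hpos : (1 + t ^ 2 : ℝ) ≠ 0 := by positivity
        have hpos' : (1 + (t : ℂ) ^ 2) ≠ 0 := by exact_mod_cast hpos
        push_cast
        rw [div_eq_iff n2]
        field_simp
        linear_combination Complex.I_sq
      rw [r1, r2]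
      push_cast
      ring
    simp_rw [e] at h0
    have j2 : Integrable fun t : ℝ => -(F t * ((kS y (x - t) + t / (1 + t ^ 2) : ℝ) : ℂ)) := i2.neg
    have j3 := i3.const_mul I
    have j1 := i1.const_mul I
    have j23 : Integrable fun t : ℝ => -(F t * ((kS y (x - t) + t / (1 + t ^ 2) : ℝ) : ℂ))
          - I * (F t * ((y / ((x - t) ^ 2 + y ^ 2) : ℝ) : ℂ)) := j2.sub j3
    have h5 : ∫ t : ℝ, (-(F t * ((kS y (x - t) + t / (1 + t ^ 2) : ℝ) : ℂ))
          - I * (F t * ((y / ((x - t) ^ 2 + y ^ 2) : ℝ) : ℂ))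
          + I * (F t * (((1 + t ^ 2)⁻¹ : ℝ) : ℂ)))
        = -(∫ t : ℝ, F t * ((kS y (x - t) + t / (1 + t ^ 2) : ℝ) : ℂ))
          - I * (∫ t : ℝ, F t * ((y / ((x - t) ^ 2 + y ^ 2) : ℝ) : ℂ))
          + I * (∫ t : ℝ, F t * (((1 + t ^ 2)⁻¹ : ℝ) : ℂ)) := by
      rw [integral_add j23 j1]
      rw [show (∫ t : ℝ, (-(F t * ((kS y (x - t) + t / (1 + t ^ 2) : ℝ) : ℂ))
          - I * (F t * ((y / ((x - t) ^ 2 + y ^ 2) : ℝ) : ℂ)))) =
          (∫ t : ℝ, -(F t * ((kS y (x - t) + t / (1 + t ^ 2) : ℝ) : ℂ)))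
          - ∫ t : ℝ, I * (F t * ((y / ((x - t) ^ 2 + y ^ 2) : ℝ) : ℂ)) from integral_sub j2 j3]
      rw [integral_neg, integral_const_mul, integral_const_mul]
    rw [h5] at h0
    linear_combination -((1 / π : ℝ) : ℂ) * h0
  have l1 := kS_tendsto hfm hB' hL
  have l2 := ((poisson_tendsto hfm hB' hL).const_mul (-I)).add_const
    (((1 / π : ℝ) : ℂ) * (I * ∫ t : ℝ, F t * (((1 + t ^ 2)⁻¹ : ℝ) : ℂ)))
  refine tendsto_nhds_unique l1 (l2.congr' ?_)
  have : ∀ᶠ ε in 𝓝[>] (0:ℝ), ε ∈ Ioo (0:ℝ) 1 := Ioo_mem_nhdsGT one_pos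
  filter_upwards [this] with y hy
  rw [key y hy.1 hy.2]

end Pool.Agent.TH244.L
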