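import Pool.Agent.TH244.L.L2

set_option autoImplicit false

/-!
# The Hilbert transform maps bounded functions to BMO
-/

namespace Pool.Agent.TH244.L

open MeasureTheory Set Filter Topology Complex
open scoped Real ENNReal

theorem osc_le {g : ℝ → ℂ} {a b M : ℝ} (hab : a < b) (c : ℂ)
    (hg : IntervalIntegrable g volume a b) (h : ∫ x in a..b, ‖g x - c‖ ≤ M * (b - a)) :
    osc g a b ≤ 2 * M := by
  have hba : 0 < b - a := by linarith
  have hgc : IntervalIntegrable (fun x => g x - c) volume a b := hg.sub intervalIntegrable_const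
  have h1 : ‖mean g a b - c‖ ≤ M := by
    have e : mean g a b - c = ((b - a : ℝ) : ℂ)⁻¹ * ∫ x in a..b, (g x - c) := by
      unfold mean
      rw [intervalIntegral.integral_sub hg intervalIntegrable_const,
        intervalIntegral.integral_const, mul_sub]
      congr 1
      have : ((b - a : ℝ) : ℂ) ≠ 0 := by exact_mod_cast hba.ne'
      rw [Complex.real_smul]
      field_simp
    rw [e, norm_mul, norm_inv, Complex.norm_real, Real.norm_eq_abs, abs_of_pos hba,
      inv_mul_le_iff₀ hba]
    refine (intervalIntegral.norm_integral_le_integral_norm hab.le).trans ?_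
    linarith
  unfold osc
  rw [inv_mul_le_iff₀ hba]
  calc ∫ x in a..b, ‖g x - mean g a b‖ ≤ ∫ x in a..b, (‖g x - c‖ + ‖mean g a b - c‖) := by
        apply intervalIntegral.integral_mono_on hab.le
        · exact (hg.sub intervalIntegrable_const).norm
        · exact hgc.norm.add intervalIntegrable_const
        · intro x _
          have : g x - mean g a b = (g x - c) - (mean g a b - c) := by ring
          rw [this]
          exact norm_sub_le _ _
    _ = (∫ x in a..b, ‖g x - c‖) + (b - a) * ‖mean g a b - c‖ := by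
        rw [intervalIntegral.integral_add hgc.norm intervalIntegrable_const,
          intervalIntegral.integral_const, smul_eq_mul]
    _ ≤ M * (b - a) + (b - a) * M := by gcongr
    _ = (b - a) * (2 * M) := by ring

/-- The BMO norm is at most twice the sup norm. -/
theorem bmoNorm_le_of_bounded {g : ℝ → ℂ} (hg : AEStronglyMeasurable g) {M : ℝ}
    (h : ∀ x, ‖g x‖ ≤ M) : bmoNorm g ≤ ENNReal.ofReal (2 * M) := by
  unfold bmoNorm
  refine iSup_le fun a => iSup_le fun b => iSup_le fun hab => ?_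
  apply ENNReal.ofReal_le_ofReal
  have hi : IntervalIntegrable g volume a b := by
    rw [intervalIntegrable_iff_integrableOn_Ioc_of_le hab.le]
    exact Measure.integrableOn_of_bounded (by simp) hg (Eventually.of_forall h)
  refine osc_le hab 0 hi ?_
  have h2 : ∫ x in a..b, ‖g x - 0‖ ≤ ∫ x in a..b, M := by
    apply intervalIntegral.integral_mono_on hab.le
    · simpa using hi.norm
    · exact intervalIntegrable_const
    · intro x _; simpa using h x
  rw [intervalIntegral.integral_const, smul_eq_mul] at h2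
  linarith

theorem kS_sub_le {y s r ℓ : ℝ} (hy : 0 < y) (hℓ : 0 < ℓ) (hr : ℓ ≤ |r|) (hsr : |s - r| ≤ ℓ / 2) :
    |kS y s - kS y r| ≤ 2 * kP ℓ r := by
  unfold kS kP
  have hr2 : ℓ ^ 2 ≤ r ^ 2 := by rw [← sq_abs r]; exact pow_le_pow_left₀ hℓ.le hr 2
  have hs : |r| / 2 ≤ |s| := by
    have h1 : |r| ≤ |s| + |s - r| := by
      have : r = s - (s - r) := by ring
      calc |r| = |s - (s - r)| := by rw [← this]
        _ ≤ |s| + |s - r| := abs_sub _ _
    linarith
  have hspos : 0 < s ^ 2 + y ^ 2 := by positivity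
  have hrpos : 0 < r ^ 2 + y ^ 2 := by positivity
  have e : s / (s ^ 2 + y ^ 2) - r / (r ^ 2 + y ^ 2)
      = (r - s) * (r * s - y ^ 2) / ((s ^ 2 + y ^ 2) * (r ^ 2 + y ^ 2)) := by
    field_simp; ring
  rw [e, abs_div, abs_mul, abs_of_pos (mul_pos hspos hrpos),
    div_le_iff₀ (mul_pos hspos hrpos)]
  have h1 : |r * s - y ^ 2| ≤ |r| * |s| + y ^ 2 := by
    calc |r * s - y ^ 2| ≤ |r * s| + |y ^ 2| := abs_sub _ _
      _ = |r| * |s| + y ^ 2 := by rw [abs_mul, abs_of_nonneg (sq_nonneg y)]
  have h2 : |r - s| ≤ ℓ / 2 := by rw [abs_sub_comm]; exact hsr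
  -- (|r||s| + y²) (r²+ℓ²) ≤ 4 (s²+y²)(r²+y²)
  have h3 : (|r| * |s| + y ^ 2) * (r ^ 2 + ℓ ^ 2) ≤ 4 * ((s ^ 2 + y ^ 2) * (r ^ 2 + y ^ 2)) := by
    have h4 : r ^ 2 + ℓ ^ 2 ≤ 2 * r ^ 2 := by linarith
    have h5 : |r| * |s| ≤ 2 * s ^ 2 := by
      rw [← sq_abs s]; nlinarith [abs_nonneg s]
    have h6 : (|r| * |s| + y ^ 2) ≤ 2 * (s ^ 2 + y ^ 2) := by nlinarith [sq_nonneg y]
    calc (|r| * |s| + y ^ 2) * (r ^ 2 + ℓ ^ 2) ≤ (2 * (s ^ 2 + y ^ 2)) * (2 * r ^ 2) := by gcongr
      _ = 4 * ((s ^ 2 + y ^ 2) * r ^ 2) := by ring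
      _ ≤ 4 * ((s ^ 2 + y ^ 2) * (r ^ 2 + y ^ 2)) := by
          gcongr; nlinarith [sq_nonneg y]
  have h7 : 0 < r ^ 2 + ℓ ^ 2 := by positivity
  calc |r - s| * |r * s - y ^ 2| ≤ (ℓ / 2) * (|r| * |s| + y ^ 2) := by gcongr
    _ = (ℓ / 2) * ((|r| * |s| + y ^ 2) * (r ^ 2 + ℓ ^ 2)) / (r ^ 2 + ℓ ^ 2) := by field_simp
    _ ≤ (ℓ / 2) * (4 * ((s ^ 2 + y ^ 2) * (r ^ 2 + y ^ 2))) / (r ^ 2 + ℓ ^ 2) := by gcongr
    _ = 2 * (ℓ / (r ^ 2 + ℓ ^ 2)) * ((s ^ 2 + y ^ 2) * (r ^ 2 + y ^ 2)) := by ring

/-- The key oscillation estimate. -/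
theorem osc_pvH_le {f : ℝ → ℂ} (hf : Continuous f) {B : ℝ} (hB0 : 0 < B) (hB : ∀ t, ‖f t‖ ≤ B)
    (hL : ∀ x, LipAt f x) {a b : ℝ} (hab : a < b) :
    IntervalIntegrable (pvH f) volume a b ∧ osc (pvH f) a b ≤ 7 * B := by
  have hfm := hf.aestronglyMeasurable (μ := (volume : Measure ℝ))
  set m := (a + b) / 2 with hm
  set ℓ := b - a with hℓ
  have hℓ0 : 0 < ℓ := by rw [hℓ]; linarith
  set N : Set ℝ := Icc (m - ℓ) (m + ℓ) with hN
  have hNm : MeasurableSet N := measurableSet_Icc
  have hIN : Ioc a b ⊆ N := by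
    intro x hx
    constructor
    · rw [hm, hℓ]; linarith [hx.1]
    · rw [hm, hℓ]; linarith [hx.2]
  set S : ℝ → ℝ → ℂ := fun y x =>
    ((1 / π : ℝ) : ℂ) * ∫ t, f t * ((kS y (x - t) + t / (1 + t ^ 2) : ℝ) : ℂ) with hS
  set c : ℝ → ℂ := fun y => ((1 / π : ℝ) : ℂ) * (∫ t in N, f t * ((t / (1 + t ^ 2) : ℝ) : ℂ))
    + ((1 / π : ℝ) : ℂ) * ∫ t in Nᶜ, f t * ((kS y (m - t) + t / (1 + t ^ 2) : ℝ) : ℂ) with hc
  set T : ℝ → ℝ → ℂ := fun y x => ∫ t in N, f t * (kS y (x - t) : ℂ) with hT
  -- convergence of `c`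
  set f1 : ℝ → ℂ := indicator Nᶜ f with hf1
  have hf1m : AEStronglyMeasurable f1 := hfm.indicator hNm.compl
  have hf1B : ∀ t, ‖f1 t‖ ≤ B := by
    intro t
    refine (norm_indicator_le_norm_self _ _).trans (hB t)
  have hmN : m ∈ N := by constructor <;> linarith
  have hf1L : LipAt f1 m := by
    refine ⟨B / ℓ, fun t => ?_⟩
    have h0 : f1 m = 0 := indicator_of_notMem (by simpa using hmN) _
    rw [h0, sub_zero]
    by_cases ht : t ∈ N
    · have : f1 t = 0 := indicator_of_notMem (by simpa using ht) _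
      rw [this, norm_zero]; positivity
    · have h1 : ℓ < |t - m| := by
        by_contra hcon
        push Not at hcon
        rw [abs_le] at hcon
        exact ht ⟨by linarith [hcon.1], by linarith [hcon.2]⟩
      calc ‖f1 t‖ ≤ B := hf1B t
        _ = B / ℓ * ℓ := by field_simp
        _ ≤ B / ℓ * |t - m| := by gcongr
  have hclim : Tendsto c (𝓝[>] 0) (𝓝 (((1 / π : ℝ) : ℂ) *
      (∫ t in N, f t * ((t / (1 + t ^ 2) : ℝ) : ℂ)) + pvH f1 m)) := by
    refine Tendsto.const_add _ ?_
    refine (kS_tendsto hf1m hf1B hf1L).congr fun y => ?_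
    congr 1
    rw [← integral_indicator hNm.compl]
    refine integral_congr_ae (Eventually.of_forall fun t => ?_)
    simp only [hf1, indicator]
    split_ifs <;> simp
  set c0 := (((1 / π : ℝ) : ℂ) * (∫ t in N, f t * ((t / (1 + t ^ 2) : ℝ) : ℂ)) + pvH f1 m) with hc0
  -- the decomposition
  have hdec : ∀ y : ℝ, 0 < y → y < 1 → ∀ x ∈ Ioc a b,
      ‖S y x - c y‖ ≤ B / 2 + ‖T y x‖ ^ 2 / (2 * B * π ^ 2) + 2 * B := by
    intro y hy hy1 x hx
    have hi : ∀ x, Integrable (fun t => f t * ((kS y (x - t) + t / (1 + t ^ 2) : ℝ) : ℂ)) :=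
      fun x => (dK_eq (ker_kS hy hy1) (kS_odd y) (kS_le hy) hfm hB (hL x)).1
    have i1 : IntegrableOn (fun t => f t * (kS y (x - t) : ℂ)) N := by
      apply ContinuousOn.integrableOn_compact isCompact_Icc
      exact (hf.mul (Complex.continuous_ofReal.comp ((kS_cont hy).comp (by fun_prop)))).continuousOn
    have i2 : IntegrableOn (fun t => f t * ((t / (1 + t ^ 2) : ℝ) : ℂ)) N := by
      apply ContinuousOn.integrableOn_compact isCompact_Icc
      have : Continuous fun t : ℝ => t / (1 + t ^ 2) :=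
        continuous_id.div (by fun_prop) fun s => by positivity
      exact (hf.mul (Complex.continuous_ofReal.comp this)).continuousOn
    have e1 : S y x - c y = ((1 / π : ℝ) : ℂ) * T y x + ((1 / π : ℝ) : ℂ) *
        ∫ t in Nᶜ, f t * ((kS y (x - t) - kS y (m - t) : ℝ) : ℂ) := by
      rw [hS, hc, hT]
      simp only
      rw [← integral_add_compl hNm (hi x)]
      have e2 : ∫ t in N, f t * ((kS y (x - t) + t / (1 + t ^ 2) : ℝ) : ℂ)
          = (∫ t in N, f t * (kS y (x - t) : ℂ)) + ∫ t in N, f t * ((t / (1 + t ^ 2) : ℝ) : ℂ) := by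
        rw [← integral_add i1 i2]
        refine integral_congr_ae (Eventually.of_forall fun t => ?_)
        simp only
        push_cast; ring
      have e3 : ∫ t in Nᶜ, f t * ((kS y (x - t) - kS y (m - t) : ℝ) : ℂ)
          = (∫ t in Nᶜ, f t * ((kS y (x - t) + t / (1 + t ^ 2) : ℝ) : ℂ))
            - ∫ t in Nᶜ, f t * ((kS y (m - t) + t / (1 + t ^ 2) : ℝ) : ℂ) := by
        rw [← integral_sub (hi x).integrableOn (hi m).integrableOn]
        refine integral_congr_ae (Eventually.of_forall fun t => ?_)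
        simp only
        push_cast; ring
      rw [e2, e3]
      ring
    rw [e1]
    have h1 : ‖∫ t in Nᶜ, f t * ((kS y (x - t) - kS y (m - t) : ℝ) : ℂ)‖ ≤ 2 * B * π := by
      have hkPi : Integrable (fun t => 2 * B * kP ℓ (m - t)) :=
        ((kP_integrable hℓ0).comp_sub_left m).const_mul _
      calc ‖∫ t in Nᶜ, f t * ((kS y (x - t) - kS y (m - t) : ℝ) : ℂ)‖
          ≤ ∫ t in Nᶜ, 2 * B * kP ℓ (m - t) := by
            refine norm_integral_le_of_norm_le hkPi.integrableOn ?_
            filter_upwards [ae_restrict_mem hNm.compl] with t ht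
            have h1 : ℓ ≤ |m - t| := by
              by_contra hcon
              push Not at hcon
              rw [abs_lt] at hcon
              exact ht ⟨by linarith [hcon.1], by linarith [hcon.2]⟩
            have h2 : |x - t - (m - t)| ≤ ℓ / 2 := by
              rw [show x - t - (m - t) = x - m by ring, abs_le, hm, hℓ]
              constructor
              · linarith [hx.1]
              · linarith [hx.2]
            rw [norm_mul, Complex.norm_real, Real.norm_eq_abs]
            calc ‖f t‖ * |kS y (x - t) - kS y (m - t)| ≤ B * (2 * kP ℓ (m - t)) := by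
                  gcongr
                  · exact hB t
                  · exact kS_sub_le hy hℓ0 h1 h2
              _ = 2 * B * kP ℓ (m - t) := by ring
        _ ≤ ∫ t, 2 * B * kP ℓ (m - t) := by
            refine setIntegral_le_integral hkPi (Eventually.of_forall fun t => ?_)
            have := kP_nonneg hℓ0 (m - t)
            simp only [Pi.zero_apply]
            positivity
        _ = 2 * B * π := by
            rw [integral_const_mul, integral_sub_left_eq_self (kP ℓ) volume m, kP_integral hℓ0]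
    have hπ : 0 < π := Real.pi_pos
    calc _ ≤ ‖((1 / π : ℝ) : ℂ) * T y x‖ + ‖((1 / π : ℝ) : ℂ) *
          ∫ t in Nᶜ, f t * ((kS y (x - t) - kS y (m - t) : ℝ) : ℂ)‖ := norm_add_le _ _
      _ = (1 / π) * ‖T y x‖ + (1 / π) *
          ‖∫ t in Nᶜ, f t * ((kS y (x - t) - kS y (m - t) : ℝ) : ℂ)‖ := by
          rw [norm_mul, norm_mul, Complex.norm_real, Real.norm_eq_abs,
            abs_of_pos (by positivity : 0 < 1 / π)]
      _ ≤ (B / 2 + ‖T y x‖ ^ 2 / (2 * B * π ^ 2)) + (1 / π) * (2 * B * π) := by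
          gcongr
          have h3 : B / 2 + ‖T y x‖ ^ 2 / (2 * B * π ^ 2) - (1 / π) * ‖T y x‖
              = (B - ‖T y x‖ / π) ^ 2 / (2 * B) := by
            field_simp
            ring
          have h4 : 0 ≤ (B - ‖T y x‖ / π) ^ 2 / (2 * B) := by positivity
          linarith
      _ = _ := by field_simp
  -- measurability
  have hSm : ∀ y : ℝ, 0 < y → StronglyMeasurable (S y) := by
    intro y hy
    have hcts : Continuous (Function.uncurry fun x t : ℝ =>
        f t * ((kS y (x - t) + t / (1 + t ^ 2) : ℝ) : ℂ)) := by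
      have h1 : Continuous fun p : ℝ × ℝ => kS y (p.1 - p.2) := (kS_cont hy).comp (by fun_prop)
      have h2 : Continuous fun p : ℝ × ℝ => p.2 / (1 + p.2 ^ 2) :=
        continuous_snd.div (by fun_prop) fun s => by positivity
      exact (hf.comp continuous_snd).mul (Complex.continuous_ofReal.comp (h1.add h2))
    exact (hcts.stronglyMeasurable.integral_prod_right).const_mul _
  -- the integral bound for `S - c`
  have hint : ∀ y : ℝ, 0 < y → y < 1 →
      ∫⁻ x in Ioc a b, ‖S y x - c y‖ₑ ≤ ENNReal.ofReal (7 / 2 * B * ℓ) := by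
    intro y hy hy1
    obtain ⟨iT, hT2⟩ := l2_bound f hf (α := m - ℓ) (β := m + ℓ) (by linarith) hB hy hy1
    have iT' : Integrable (fun x => ‖T y x‖ ^ 2) := iT
    have hT2' : ∫ x, ‖T y x‖ ^ 2 ≤ π ^ 2 * B ^ 2 * (2 * ℓ) := by
      have : (m + ℓ - (m - ℓ)) = 2 * ℓ := by ring
      rw [this] at hT2
      exact hT2
    have hG : Integrable (fun x => B / 2 + ‖T y x‖ ^ 2 / (2 * B * π ^ 2) + 2 * B)
        (volume.restrict (Ioc a b)) :=
      ((integrable_const _).add (iT'.integrableOn.div_const _)).add (integrable_const _)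
    calc ∫⁻ x in Ioc a b, ‖S y x - c y‖ₑ
        ≤ ∫⁻ x in Ioc a b, ENNReal.ofReal (B / 2 + ‖T y x‖ ^ 2 / (2 * B * π ^ 2) + 2 * B) := by
          refine setLIntegral_mono' measurableSet_Ioc fun x hx => ?_
          rw [← ofReal_norm]
          exact ENNReal.ofReal_le_ofReal (hdec y hy hy1 x hx)
      _ = ENNReal.ofReal (∫ x in Ioc a b, (B / 2 + ‖T y x‖ ^ 2 / (2 * B * π ^ 2) + 2 * B)) := by
          rw [ofReal_integral_eq_lintegral_ofReal hG (Eventually.of_forall fun x => ?_)]
          simp only [Pi.zero_apply]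
          positivity
      _ ≤ _ := by
          apply ENNReal.ofReal_le_ofReal
          have j1 : Integrable (fun x => B / 2 + ‖T y x‖ ^ 2 / (2 * B * π ^ 2))
              (volume.restrict (Ioc a b)) :=
            (integrable_const _).add (iT'.integrableOn.div_const _)
          have j2 : Integrable (fun _ : ℝ => 2 * B) (volume.restrict (Ioc a b)) :=
            integrable_const _
          have j3 : Integrable (fun x => ‖T y x‖ ^ 2 / (2 * B * π ^ 2))
              (volume.restrict (Ioc a b)) := iT'.integrableOn.div_const _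
          have j4 : Integrable (fun _ : ℝ => B / 2) (volume.restrict (Ioc a b)) :=
            integrable_const _
          rw [integral_add j1 j2, integral_add j4 j3]
          have h1 : ∫ x in Ioc a b, ‖T y x‖ ^ 2 ≤ π ^ 2 * B ^ 2 * (2 * ℓ) :=
            (setIntegral_le_integral iT' (Eventually.of_forall fun x => by
              simp only [Pi.zero_apply]; positivity)).trans hT2'
          have h2 : (∫ x in Ioc a b, ‖T y x‖ ^ 2 / (2 * B * π ^ 2)) ≤ B * ℓ := by
            rw [integral_div, div_le_iff₀ (by positivity)]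
            refine h1.trans (le_of_eq ?_)
            ring
          have h3 : ∀ r : ℝ, ∫ _ in Ioc a b, r = ℓ * r := by
            intro r
            rw [setIntegral_const, measureReal_def, Real.volume_Ioc,
              ENNReal.toReal_ofReal (by linarith), smul_eq_mul]
          rw [h3, h3]
          linarith
  -- Fatou
  have hseq : Tendsto (fun n : ℕ => (1 / ((n : ℝ) + 2))) atTop (𝓝[>] 0) := by
    rw [tendsto_nhdsWithin_iff]
    constructor
    · have h1 := tendsto_one_div_add_atTop_nhds_zero_nat (𝕜 := ℝ)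
      have h2 := h1.comp (tendsto_add_atTop_nat 1)
      refine h2.congr fun n => ?_
      simp only [Function.comp_apply]
      push_cast
      ring_nf
    · exact Eventually.of_forall fun n => by
        simp only [mem_Ioi]; positivity
  have hyn : ∀ n : ℕ, 0 < 1 / ((n : ℝ) + 2) ∧ 1 / ((n : ℝ) + 2) < 1 := by
    intro n
    have : (0:ℝ) ≤ n := Nat.cast_nonneg n
    refine ⟨by positivity, ?_⟩
    rw [div_lt_one (by positivity)]
    linarith
  have hlimx : ∀ x, Tendsto (fun n : ℕ => S (1 / ((n : ℝ) + 2)) x - c (1 / ((n : ℝ) + 2))) atTop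
      (𝓝 (pvH f x - c0)) := fun x =>
    ((kS_tendsto hfm hB (hL x)).sub hclim).comp hseq
  have hmeas : ∀ n : ℕ, AEStronglyMeasurable
      (fun x => S (1 / ((n : ℝ) + 2)) x - c (1 / ((n : ℝ) + 2))) (volume.restrict (Ioc a b)) :=
    fun n => ((hSm _ (hyn n).1).sub stronglyMeasurable_const).aestronglyMeasurable
  have hfatou : ∫⁻ x in Ioc a b, ‖pvH f x - c0‖ₑ ≤ ENNReal.ofReal (7 / 2 * B * ℓ) := by
    have h1 : ∫⁻ x in Ioc a b, ‖pvH f x - c0‖ₑ
        = ∫⁻ x in Ioc a b, liminf (fun n : ℕ =>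
          ‖S (1 / ((n : ℝ) + 2)) x - c (1 / ((n : ℝ) + 2))‖ₑ) atTop := by
      refine lintegral_congr fun x => ?_
      exact (hlimx x).enorm.liminf_eq.symm
    rw [h1]
    refine (lintegral_liminf_le' fun n => (hmeas n).enorm).trans ?_
    refine (liminf_le_liminf (Eventually.of_forall fun n => hint _ (hyn n).1 (hyn n).2)).trans ?_
    simp
  have hpm : AEStronglyMeasurable (fun x => pvH f x - c0) (volume.restrict (Ioc a b)) :=
    aestronglyMeasurable_of_tendsto_ae atTop hmeas (Eventually.of_forall hlimx)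
  have hpi : Integrable (fun x => pvH f x - c0) (volume.restrict (Ioc a b)) :=
    ⟨hpm, lt_of_le_of_lt hfatou ENNReal.ofReal_lt_top⟩
  have hI : IntervalIntegrable (pvH f) volume a b := by
    rw [intervalIntegrable_iff_integrableOn_Ioc_of_le hab.le]
    have := hpi.add (integrable_const c0)
    refine this.congr (Eventually.of_forall fun x => ?_)
    simp
  refine ⟨hI, ?_⟩
  have hnorm : ∫ x in a..b, ‖pvH f x - c0‖ ≤ 7 / 2 * B * (b - a) := by
    rw [intervalIntegral.integral_of_le hab.le]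
    have h1 := ofReal_integral_norm_eq_lintegral_enorm hpi
    rw [← h1] at hfatou
    exact (ENNReal.ofReal_le_ofReal_iff (by positivity)).1 hfatou
  have := osc_le hab c0 hI hnorm
  linarith

/-- The Hilbert transform maps bounded functions to BMO. -/
theorem bmoNorm_pvH_le {f : ℝ → ℂ} (hf : Continuous f) {B : ℝ} (hB0 : 0 < B)
    (hB : ∀ t, ‖f t‖ ≤ B) (hL : ∀ x, LipAt f x) : bmoNorm (pvH f) ≤ ENNReal.ofReal (7 * B) := by
  unfold bmoNorm
  refine iSup_le fun a => iSup_le fun b => iSup_le fun hab => ?_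
  exact ENNReal.ofReal_le_ofReal (osc_pvH_le hf hB0 hB hL hab).2

end Pool.Agent.TH244.L
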