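import Mathlib
import Pool.Agent.TH244.L.LInf
import Pool.Agent.TH244.L.Analytic

set_option autoImplicit false

/-!
# Operations: sums, conjugates, BMO norms of sums
-/

namespace Pool.Agent.TH244.L

open MeasureTheory Set Filter Topology Complex
open scoped Real ENNReal ComplexConjugate

/-- A bounded function which is differentiable at `x` is Lipschitz at `x`. -/
theorem lipAt_of_diff {f : ℝ → ℂ} {B x : ℝ} (hB : ∀ t, ‖f t‖ ≤ B) (hd : DifferentiableAt ℝ f x) :
    LipAt f x := by
  have hB0 : 0 ≤ B := (norm_nonneg _).trans (hB x)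
  have h1 := hd.isBigO_sub
  obtain ⟨K, hK⟩ := h1.bound
  rw [Metric.eventually_nhds_iff] at hK
  obtain ⟨δ, hδ, hK⟩ := hK
  refine ⟨|K| + 2 * B / δ, fun t => ?_⟩
  rcases lt_or_ge |t - x| δ with h | h
  · have h2 := hK (y := t) (by rwa [Real.dist_eq])
    rw [Real.norm_eq_abs] at h2
    refine h2.trans ?_
    have h3 : 0 ≤ 2 * B / δ := by positivity
    have h4 := le_abs_self K
    have h5 := abs_nonneg (t - x)
    nlinarith
  · have h2 : ‖f t - f x‖ ≤ 2 * B := (norm_sub_le _ _).trans (by linarith [hB t, hB x])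
    refine h2.trans ?_
    have h3 : 2 * B ≤ 2 * B / δ * |t - x| := by
      rw [div_mul_eq_mul_div, le_div_iff₀ hδ]
      exact mul_le_mul_of_nonneg_left h (by positivity)
    have h4 : 0 ≤ |K| * |t - x| := by positivity
    nlinarith

theorem pvH_add {f g : ℝ → ℂ} (hf : AEStronglyMeasurable f) (hg : AEStronglyMeasurable g)
    {B B' x : ℝ} (hB : ∀ t, ‖f t‖ ≤ B) (hB' : ∀ t, ‖g t‖ ≤ B') (hL : LipAt f x)
    (hL' : LipAt g x) : pvH (fun t => f t + g t) x = pvH f x + pvH g x := by
  unfold pvH
  rw [← mul_add, ← integral_add (dK_integrable ker_inv hf hB hL) (dK_integrable ker_inv hg hB' hL')]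
  congr 1
  refine integral_congr_ae (Eventually.of_forall fun t => ?_)
  simp only [dK]
  split_ifs <;> ring

theorem pvH_conj (f : ℝ → ℂ) (x : ℝ) : pvH (fun t => conj (f t)) x = conj (pvH f x) := by
  unfold pvH
  rw [map_mul, Complex.conj_ofReal, ← integral_conj]
  congr 1
  refine integral_congr_ae (Eventually.of_forall fun t => ?_)
  simp only [dK]
  split_ifs <;> simp

/-- The mean of a sum. -/
theorem mean_add {f g : ℝ → ℂ} {a b : ℝ} (hf : IntervalIntegrable f volume a b)
    (hg : IntervalIntegrable g volume a b) :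
    mean (fun x => f x + g x) a b = mean f a b + mean g a b := by
  unfold mean
  rw [intervalIntegral.integral_add hf hg, mul_add]

theorem mean_smul (c : ℂ) (f : ℝ → ℂ) (a b : ℝ) :
    mean (fun x => c * f x) a b = c * mean f a b := by
  unfold mean
  rw [intervalIntegral.integral_const_mul]
  ring

theorem osc_add_le {f g : ℝ → ℂ} {a b : ℝ} (hab : a < b) (hf : IntervalIntegrable f volume a b)
    (hg : IntervalIntegrable g volume a b) :
    osc (fun x => f x + g x) a b ≤ osc f a b + osc g a b := by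
  unfold osc
  rw [← mul_add, mean_add hf hg]
  have hba : 0 < b - a := by linarith
  apply mul_le_mul_of_nonneg_left _ (by positivity)
  have i1 : IntervalIntegrable (fun x => ‖f x - mean f a b‖) volume a b :=
    (hf.sub intervalIntegrable_const).norm
  have i2 : IntervalIntegrable (fun x => ‖g x - mean g a b‖) volume a b :=
    (hg.sub intervalIntegrable_const).norm
  have i3 : IntervalIntegrable (fun x => ‖f x + g x - (mean f a b + mean g a b)‖) volume a b :=
    ((hf.add hg).sub intervalIntegrable_const).norm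
  rw [← intervalIntegral.integral_add i1 i2]
  refine intervalIntegral.integral_mono_on hab.le i3 (i1.add i2) fun x _ => ?_
  calc ‖f x + g x - (mean f a b + mean g a b)‖
      = ‖(f x - mean f a b) + (g x - mean g a b)‖ := by congr 1; ring
    _ ≤ _ := norm_add_le _ _

theorem osc_smul (c : ℂ) (f : ℝ → ℂ) (a b : ℝ) :
    osc (fun x => c * f x) a b = ‖c‖ * osc f a b := by
  unfold osc
  rw [mean_smul]
  have : (fun x => ‖c * f x - c * mean f a b‖) = fun x => ‖c‖ * ‖f x - mean f a b‖ := by
    funext x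
    rw [← mul_sub, norm_mul]
  rw [this, intervalIntegral.integral_const_mul]
  ring

theorem bmoNorm_smul (c : ℂ) (f : ℝ → ℂ) :
    bmoNorm (fun x => c * f x) = ENNReal.ofReal ‖c‖ * bmoNorm f := by
  unfold bmoNorm
  simp only [osc_smul, ENNReal.mul_iSup]
  congr 1; funext a; congr 1; funext b; congr 1; funext _
  rw [ENNReal.ofReal_mul (norm_nonneg _)]

theorem osc_nonneg (f : ℝ → ℂ) {a b : ℝ} (hab : a < b) : 0 ≤ osc f a b := by
  unfold osc
  have hba : 0 < b - a := by linarith
  exact mul_nonneg (by positivity) (intervalIntegral.integral_nonneg hab.le fun _ _ =>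
    norm_nonneg _)

/-- Bounded continuous functions are in BMO. -/
theorem inBMO_of_bounded {f : ℝ → ℂ} (hf : Continuous f) {B : ℝ} (hB : ∀ t, ‖f t‖ ≤ B) :
    InBMO f :=
  ⟨hf.locallyIntegrable, lt_of_le_of_lt (bmoNorm_le_of_bounded hf.aestronglyMeasurable hB)
    ENNReal.ofReal_lt_top⟩

/-- The BMO norm of the projection of a small function. -/
theorem bmoNorm_proj_le {e : ℝ → ℂ} (he : Continuous e) {B : ℝ} (hB0 : 0 < B)
    (hB : ∀ t, ‖e t‖ ≤ B) (hL : ∀ x, LipAt e x) :
    bmoNorm (fun x => (e x + I * pvH e x) / 2) ≤ ENNReal.ofReal (9 / 2 * B) := by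
  have h0 := bmoNorm_le_of_bounded he.aestronglyMeasurable hB
  unfold bmoNorm
  refine iSup_le fun a => iSup_le fun b => iSup_le fun hab => ?_
  apply ENNReal.ofReal_le_ofReal
  obtain ⟨i1, o1⟩ := osc_pvH_le he hB0 hB hL hab
  have i0 : IntervalIntegrable e volume a b := he.intervalIntegrable _ _
  have o0 : osc e a b ≤ 2 * B := by
    have h1 : ENNReal.ofReal (osc e a b) ≤ ENNReal.ofReal (2 * B) := by
      refine le_trans ?_ h0
      unfold bmoNorm
      exact le_iSup_of_le a (le_iSup_of_le b (le_iSup_of_le hab le_rfl))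
    exact (ENNReal.ofReal_le_ofReal_iff (by positivity)).1 h1
  have e1 : (fun x => (e x + I * pvH e x) / 2) = fun x => (1 / 2) * (e x + I * pvH e x) := by
    funext x; ring
  rw [e1, osc_smul]
  have e2 := osc_add_le hab i0 (i1.const_mul I)
  rw [osc_smul, Complex.norm_I, one_mul] at e2
  have e3 : ‖(1 / 2 : ℂ)‖ = 1 / 2 := by norm_num
  rw [e3]
  linarith

end Pool.Agent.TH244.L
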