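import Mathlib

set_option autoImplicit false

/-!
# The cutoff functions `q_ε(w) = ∫₀¹ e^{-iεsw} ds`
-/

namespace Pool.Agent.TH244.L

open MeasureTheory Set Filter Topology
open scoped Real

/-- `q_ε(w) = ∫₀¹ e^{-iεsw} ds`: an entire function with spectrum in `[-ε,0]`. -/
noncomputable def qf (ε : ℝ) (w : ℂ) : ℂ :=
  ∫ s in (0:ℝ)..1, Complex.exp ((-(Complex.I * ε * w)) * s)

theorem qf_zero (ε : ℝ) : qf ε 0 = 1 := by
  unfold qf; simp

theorem qf_ne {ε : ℝ} (hε : 0 < ε) {w : ℂ} (hw : w ≠ 0) :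
    qf ε w = (Complex.exp (-(Complex.I * ε * w)) - 1) / (-(Complex.I * ε * w)) := by
  unfold qf
  have hε' : (ε : ℂ) ≠ 0 := by exact_mod_cast hε.ne'
  have h : -(Complex.I * ε * w) ≠ 0 := neg_ne_zero.2 (mul_ne_zero (mul_ne_zero Complex.I_ne_zero hε') hw)
  rw [integral_exp_mul_complex h]
  simp

theorem qf_diff {ε : ℝ} (hε : 0 < ε) : Differentiable ℂ (qf ε) := by
  have hε' : (ε : ℂ) ≠ 0 := by exact_mod_cast hε.ne'
  set φ : ℂ → ℂ := fun w => Complex.exp (-(Complex.I * ε * w)) / (-(Complex.I * ε)) with hφ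
  have hd : ∀ w, HasDerivAt φ (Complex.exp (-(Complex.I * ε * w))) w := by
    intro w
    have h1 : HasDerivAt (fun w : ℂ => -(Complex.I * ε * w)) (-(Complex.I * ε)) w := by
      have := ((hasDerivAt_id w).const_mul (Complex.I * ε)).neg
      simp only [mul_one] at this
      exact this
    have h2 := h1.cexp.div_const (-(Complex.I * ε))
    refine h2.congr_deriv ?_
    have : -(Complex.I * (ε : ℂ)) ≠ 0 := neg_ne_zero.2 (mul_ne_zero Complex.I_ne_zero hε')
    field_simp
  have hq : qf ε = dslope φ 0 := by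
    funext w
    rcases eq_or_ne w 0 with rfl | hw
    · rw [dslope_same, (hd 0).deriv, qf_zero]; simp
    · rw [dslope_of_ne _ hw, slope_def_field, qf_ne hε hw, hφ]
      have h1 : -(Complex.I * (ε : ℂ)) ≠ 0 := neg_ne_zero.2 (mul_ne_zero Complex.I_ne_zero hε')
      simp only [mul_zero, neg_zero, Complex.exp_zero, sub_zero]
      field_simp
      ring
  have hφd : DifferentiableOn ℂ φ univ := fun w _ => (hd w).differentiableAt.differentiableWithinAt
  have := (Complex.differentiableOn_dslope (c := (0:ℂ)) (univ_mem (f := 𝓝 (0:ℂ)))).2 hφd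
  rw [← hq] at this
  exact differentiableOn_univ.1 this

theorem norm_exp_arg (ε : ℝ) (w : ℂ) (s : ℝ) :
    ‖Complex.exp ((-(Complex.I * ε * w)) * s)‖ = Real.exp (ε * s * w.im) := by
  rw [Complex.norm_exp]
  congr 1
  simp
  ring

theorem qf_le {ε : ℝ} (hε : 0 < ε) {w : ℂ} (hw : 0 ≤ w.im) : ‖qf ε w‖ ≤ Real.exp (ε * w.im) := by
  unfold qf
  have h := intervalIntegral.norm_integral_le_of_norm_le_const (a := (0:ℝ)) (b := 1)
    (f := fun s : ℝ => Complex.exp ((-(Complex.I * ε * w)) * s)) (C := Real.exp (ε * w.im))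
    (fun s hs => by
      rw [uIoc_of_le zero_le_one] at hs
      rw [norm_exp_arg]
      apply Real.exp_le_exp.2
      have h1 : 0 ≤ ε * w.im := by positivity
      nlinarith [hs.1, hs.2])
  simpa using h

theorem qf_le_one {ε : ℝ} (hε : 0 < ε) {w : ℂ} (hw : w.im ≤ 0) : ‖qf ε w‖ ≤ 1 := by
  unfold qf
  have h := intervalIntegral.norm_integral_le_of_norm_le_const (a := (0:ℝ)) (b := 1)
    (f := fun s : ℝ => Complex.exp ((-(Complex.I * ε * w)) * s)) (C := 1)
    (fun s hs => by
      rw [uIoc_of_le zero_le_one] at hs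
      rw [norm_exp_arg, Real.exp_le_one_iff]
      have h1 : 0 ≤ ε * s := mul_nonneg hε.le hs.1.le
      exact mul_nonpos_of_nonneg_of_nonpos h1 hw)
  simpa using h

theorem qf_far {ε : ℝ} (hε : 0 < ε) {x : ℝ} (hx : x ≠ 0) : ‖qf ε x‖ ≤ 2 / (ε * |x|) := by
  have hx' : (x : ℂ) ≠ 0 := by exact_mod_cast hx
  rw [qf_ne hε hx', norm_div]
  have e1 : ‖-(Complex.I * (ε : ℂ) * (x : ℂ))‖ = ε * |x| := by
    rw [norm_neg, norm_mul, norm_mul, Complex.norm_I, one_mul, Complex.norm_real,
      Complex.norm_real, Real.norm_eq_abs, Real.norm_eq_abs, abs_of_pos hε]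
  have e2 : ‖Complex.exp (-(Complex.I * (ε : ℂ) * (x : ℂ)))‖ = 1 := by
    have := norm_exp_arg ε x 1
    simpa using this
  rw [e1]
  have hx0 : 0 < |x| := abs_pos.2 hx
  apply div_le_div_of_nonneg_right _ (by positivity)
  calc ‖Complex.exp (-(Complex.I * (ε : ℂ) * (x : ℂ))) - 1‖
      ≤ ‖Complex.exp (-(Complex.I * (ε : ℂ) * (x : ℂ)))‖ + ‖(1:ℂ)‖ := norm_sub_le _ _
    _ = 2 := by rw [e2]; norm_num

theorem qf_lip {ε : ℝ} (hε : 0 < ε) (x y : ℝ) : ‖qf ε x - qf ε y‖ ≤ ε * |x - y| := by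
  unfold qf
  rw [← intervalIntegral.integral_sub (by apply Continuous.intervalIntegrable; fun_prop)
    (by apply Continuous.intervalIntegrable; fun_prop)]
  have h := intervalIntegral.norm_integral_le_of_norm_le_const (a := (0:ℝ)) (b := 1)
    (f := fun s : ℝ => Complex.exp ((-(Complex.I * ε * x)) * s)
      - Complex.exp ((-(Complex.I * ε * y)) * s)) (C := ε * |x - y|)
    (fun s hs => by
      rw [uIoc_of_le zero_le_one] at hs
      have e1 : Complex.exp ((-(Complex.I * ε * x)) * s) - Complex.exp ((-(Complex.I * ε * y)) * s)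
          = Complex.exp ((-(Complex.I * ε * y)) * s)
            * (Complex.exp (Complex.I * ((-(ε * (x - y) * s) : ℝ) : ℂ)) - 1) := by
        rw [mul_sub, ← Complex.exp_add, mul_one]
        congr 2
        push_cast
        ring
      rw [e1, norm_mul, norm_exp_arg]
      have e2 := Real.norm_exp_I_mul_ofReal_sub_one_le (x := -(ε * (x - y) * s))
      simp only [Complex.ofReal_im, mul_zero, Real.exp_zero, one_mul]
      refine e2.trans ?_
      rw [Real.norm_eq_abs, abs_neg, abs_mul, abs_mul, abs_of_pos hε, abs_of_pos hs.1]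
      have : 0 ≤ ε * |x - y| := by positivity
      nlinarith [hs.2])
  simpa using h

end Pool.Agent.TH244.L
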