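import Mathlib
import Pool.Agent.TH244.L.Oper
import Pool.Agent.TH244.L.QFun

set_option autoImplicit false

/-!
# The test function of a block
-/

namespace Pool.Agent.TH244.L

open MeasureTheory Set Filter Topology Complex
open scoped Real ENNReal ComplexConjugate ContDiff

theorem int_exp_shift (n : ℤ) (hn : n ≠ 0) (c : ℝ) :
    ∫ x in c..(c + 2 * π), Complex.exp ((I * n) * (x : ℂ)) = 0 := by
  have h : (I * n : ℂ) ≠ 0 := mul_ne_zero I_ne_zero (by exact_mod_cast hn)
  rw [integral_exp_mul_complex h]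
  have : Complex.exp ((I * n) * ((c + 2 * π : ℝ) : ℂ)) = Complex.exp ((I * n) * (c : ℂ)) := by
    have e : (I * n) * ((c + 2 * π : ℝ) : ℂ) = (I * n) * (c : ℂ) + n * (2 * π * I) := by
      push_cast; ring
    rw [e, Complex.exp_add, Complex.exp_int_mul_two_pi_mul_I, mul_one]
  rw [this, sub_self, zero_div]

theorem coeff_one (P : Polynomial ℂ) (c : ℝ) :
    ∫ x in c..(c + 2 * π), P.eval (Complex.exp (I * (x : ℂ))) * Complex.exp (-(I * (x : ℂ)))
      = 2 * π * P.coeff 1 := by
  have e1 : ∀ x : ℝ, P.eval (Complex.exp (I * (x : ℂ))) * Complex.exp (-(I * (x : ℂ)))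
      = ∑ j ∈ Finset.range (P.natDegree + 2),
        P.coeff j * Complex.exp ((I * ((j : ℤ) - 1 : ℤ)) * (x : ℂ)) := by
    intro x
    rw [Polynomial.eval_eq_sum_range' (n := P.natDegree + 2) (by omega), Finset.sum_mul]
    refine Finset.sum_congr rfl fun j _ => ?_
    rw [mul_assoc, ← Complex.exp_nat_mul, ← Complex.exp_add]
    congr 2
    push_cast
    ring
  simp_rw [e1]
  rw [intervalIntegral.integral_finsetSum (fun j _ => by
    apply Continuous.intervalIntegrable; fun_prop)]
  rw [Finset.sum_eq_single 1]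
  · rw [intervalIntegral.integral_const_mul]
    simp
    ring
  · intro j _ hj
    rw [intervalIntegral.integral_const_mul, int_exp_shift _ (by
      intro h
      apply hj
      have : (j : ℤ) = 1 := by linarith
      exact_mod_cast this), mul_zero]
  · intro h
    exfalso
    apply h
    rw [Finset.mem_range]
    omega

theorem poly_disc (F : Polynomial ℂ) : ∃ B : ℝ, 0 < B ∧ ∀ w : ℂ, ‖w‖ ≤ 1 → ‖F.eval w‖ ≤ B := by
  have h := (isCompact_closedBall (0:ℂ) 1).exists_bound_of_continuousOn (f := fun w => F.eval w)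
    F.continuous.continuousOn
  obtain ⟨B, hB⟩ := h
  refine ⟨|B| + 1, by positivity, fun w hw => ?_⟩
  have := hB w (by simpa using hw)
  linarith [le_abs_self B]

theorem norm_exp_I_mul (w : ℂ) : ‖Complex.exp (I * w)‖ = Real.exp (-w.im) := by
  rw [Complex.norm_exp]
  simp

theorem qf_conj (ε x : ℝ) : conj (qf ε x) = qf ε (-x) := by
  unfold qf
  rw [intervalIntegral.integral_of_le zero_le_one, intervalIntegral.integral_of_le zero_le_one,
    ← integral_conj]
  refine integral_congr_ae (Eventually.of_forall fun s => ?_)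
  simp only
  rw [← Complex.exp_conj]
  congr 1
  simp

/-- The analytic extension of the test function. -/
noncomputable def FF (ε c : ℝ) (P : Polynomial ℂ) (w : ℂ) : ℂ :=
  qf ε (w - c) * P.eval (Complex.exp (I * w))

/-- The analytic extension of the conjugate of the main part of `f ∘ h`. -/
noncomputable def FA (ε c : ℝ) (Q : Polynomial ℂ) (w : ℂ) : ℂ :=
  qf ε (-(w - c)) * (-1 - (Q.map (starRingEnd ℂ)).eval (Complex.exp (I * w)))

theorem FF_diff {ε : ℝ} (hε : 0 < ε) (c : ℝ) (P : Polynomial ℂ) : Differentiable ℂ (FF ε c P) := by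
  unfold FF
  refine ((qf_diff hε).comp (by fun_prop)).mul ?_
  exact P.differentiable.comp (by fun_prop)

theorem FA_diff {ε : ℝ} (hε : 0 < ε) (c : ℝ) (Q : Polynomial ℂ) : Differentiable ℂ (FA ε c Q) := by
  unfold FA
  refine ((qf_diff hε).comp (by fun_prop)).mul ((differentiable_const _).sub ?_)
  exact (Q.map (starRingEnd ℂ)).differentiable.comp (by fun_prop)

theorem FF_bdd {ε : ℝ} (hε : 0 < ε) (hε1 : ε ≤ 1) (c : ℝ) (P : Polynomial ℂ)
    (hP : P.coeff 0 = 0) : ∃ B : ℝ, 0 < B ∧ ∀ w : ℂ, 0 ≤ w.im → ‖FF ε c P w‖ ≤ B := by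
  obtain ⟨P', hP'⟩ := Polynomial.X_dvd_iff.2 hP
  obtain ⟨B, hB0, hB⟩ := poly_disc P'
  refine ⟨B, hB0, fun w hw => ?_⟩
  unfold FF
  rw [norm_mul, hP', Polynomial.eval_mul, Polynomial.eval_X, norm_mul, norm_exp_I_mul]
  have h1 : ‖qf ε (w - c)‖ ≤ Real.exp (ε * w.im) := by
    have := qf_le hε (w := w - c) (by simpa using hw)
    simpa using this
  have h2 : ‖P'.eval (Complex.exp (I * w))‖ ≤ B := by
    apply hB
    rw [norm_exp_I_mul, Real.exp_le_one_iff]
    linarith
  calc ‖qf ε (w - c)‖ * (Real.exp (-w.im) * ‖P'.eval (Complex.exp (I * w))‖)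
      ≤ Real.exp (ε * w.im) * (Real.exp (-w.im) * B) := by gcongr
    _ = Real.exp (-(1 - ε) * w.im) * B := by
        rw [← mul_assoc, ← Real.exp_add]
        congr 2
        ring
    _ ≤ 1 * B := by
        gcongr
        rw [Real.exp_le_one_iff]
        nlinarith
    _ = B := one_mul _

theorem FA_bdd {ε : ℝ} (hε : 0 < ε) (c : ℝ) (Q : Polynomial ℂ) :
    ∃ B : ℝ, 0 < B ∧ ∀ w : ℂ, 0 ≤ w.im → ‖FA ε c Q w‖ ≤ B := by
  obtain ⟨B, hB0, hB⟩ := poly_disc (Q.map (starRingEnd ℂ))
  refine ⟨1 + B, by positivity, fun w hw => ?_⟩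
  unfold FA
  rw [norm_mul]
  have h1 : ‖qf ε (-(w - c))‖ ≤ 1 := qf_le_one hε (by simpa using hw)
  have h2 : ‖(Q.map (starRingEnd ℂ)).eval (Complex.exp (I * w))‖ ≤ B := by
    apply hB
    rw [norm_exp_I_mul, Real.exp_le_one_iff]
    linarith
  have h3 : ‖-1 - (Q.map (starRingEnd ℂ)).eval (Complex.exp (I * w))‖ ≤ 1 + B := by
    refine (norm_sub_le _ _).trans ?_
    rw [norm_neg, norm_one]
    linarith
  calc _ ≤ 1 * (1 + B) := mul_le_mul h1 h3 (norm_nonneg _) zero_le_one
    _ = 1 + B := one_mul _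

/-- The restriction of an entire function which is bounded on the upper half-plane. -/
theorem real_diff {F : ℂ → ℂ} (hF : Differentiable ℂ F) :
    Differentiable ℝ (fun t : ℝ => F t) := by
  intro t
  have h1 : HasDerivAt F (deriv F t) (t : ℂ) := (hF t).hasDerivAt
  exact h1.comp_ofReal.differentiableAt

theorem poly_conj (P : Polynomial ℂ) (w : ℂ) :
    conj ((P.map (starRingEnd ℂ)).eval w) = P.eval (conj w) := by
  have h : ((P.map (starRingEnd ℂ)).map (starRingEnd ℂ)).eval (conj w)
      = conj ((P.map (starRingEnd ℂ)).eval w) := by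
    rw [Polynomial.eval_map]
    exact Polynomial.eval₂_at_apply (starRingEnd ℂ) w
  rw [← h, Polynomial.map_map]
  simp

theorem FA_conj (ε c : ℝ) (Q : Polynomial ℂ) (x : ℝ) :
    conj (FA ε c Q x) = qf ε (x - c) * (-1 - Q.eval (Complex.exp (-(I * (x : ℂ))))) := by
  unfold FA
  have e1 : conj (Complex.exp (I * (x : ℂ))) = Complex.exp (-(I * (x : ℂ))) := by
    rw [← Complex.exp_conj]; simp
  have e2 : conj (qf ε (-((x : ℂ) - c))) = qf ε (x - c) := by
    have := qf_conj ε (-(x - c))
    push_cast at this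
    rw [neg_neg] at this
    exact this
  rw [map_mul, map_sub, map_neg, map_one, poly_conj, e1, e2]

/-- The Hilbert transform of a conjugate analytic function. -/
theorem pvH_conj_analytic (F : ℂ → ℂ) (B : ℝ) (hF : Differentiable ℂ F)
    (hB : ∀ w : ℂ, 0 ≤ w.im → ‖F w‖ ≤ B) : ∃ κ : ℂ, ∀ x : ℝ,
    pvH (fun t : ℝ => conj (F t)) x = I * conj (F x) + κ := by
  refine ⟨conj (((1 / π : ℝ) : ℂ) * (I * ∫ t : ℝ, F t * (((1 + t ^ 2)⁻¹ : ℝ) : ℂ))), fun x => ?_⟩
  have hL : LipAt (fun t : ℝ => F t) x :=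
    lipAt_of_diff (B := B) (fun t => hB t (by simp)) (real_diff hF x)
  rw [pvH_conj (fun t : ℝ => F t) x, pvH_analytic F B hF.continuous.continuousOn
    hF.differentiableOn hB hL, map_add, map_mul, map_neg, conj_I, neg_neg]

/-- Bounded analytic functions are in BMOA. -/
theorem inBMOA_of_analytic (F : ℂ → ℂ) (B : ℝ) (hF : Differentiable ℂ F)
    (hB : ∀ w : ℂ, 0 ≤ w.im → ‖F w‖ ≤ B) : InBMOA (fun t : ℝ => F t) := by
  have hc : Continuous fun t : ℝ => F t := (real_diff hF).continuous
  have hBr : ∀ t : ℝ, ‖F t‖ ≤ B := fun t => hB t (by simp)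
  have hL : ∀ x, LipAt (fun t : ℝ => F t) x := fun x => lipAt_of_diff hBr (real_diff hF x)
  refine ⟨inBMO_of_bounded hc hBr, fun t : ℝ => F t, inBMO_of_bounded hc hBr,
    pvH (fun t : ℝ => F t), isHilbert_pvH hc.aestronglyMeasurable hBr hL,
    -(I * (((1 / π : ℝ) : ℂ) * (I * ∫ t : ℝ, F t * (((1 + t ^ 2)⁻¹ : ℝ) : ℂ))) / 2),
    Eventually.of_forall fun x => ?_⟩
  rw [pvH_analytic F B hF.continuous.continuousOn hF.differentiableOn hB (hL x)]
  linear_combination (F x / 2) * I_mul_I

/-- The lower bound for the BMO norm of the test function. -/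
theorem bmo_low {ε : ℝ} (hε : 0 < ε) (P : Polynomial ℂ) {BP c0 : ℝ}
    (hBP : ∀ w : ℂ, ‖w‖ = 1 → ‖P.eval w‖ ≤ BP) (hc0 : 0 < c0) (hP1 : c0 ≤ ‖P.coeff 1‖)
    (hsmall : 2 * π * ε * BP ≤ c0 / 2) (c : ℝ) :
    ENNReal.ofReal (c0 / 2) ≤ bmoNorm (fun t : ℝ => FF ε c P t) := by
  have hπ := Real.pi_pos
  have hBP0 : 0 ≤ BP := (norm_nonneg _).trans (hBP 1 (by simp))
  set f : ℝ → ℂ := fun t : ℝ => FF ε c P t with hf
  have hfc : Continuous f := (real_diff (FF_diff hε c P)).continuous
  have hlow : c0 / 2 ≤ osc f c (c + 2 * π) := by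
    set μ := mean f c (c + 2 * π) with hμ
    have hE1 : ∀ x : ℝ, ‖Complex.exp (-(I * (x : ℂ)))‖ = 1 := by
      intro x
      have : -(I * (x : ℂ)) = ((-x : ℝ) : ℂ) * I := by push_cast; ring
      rw [this, Complex.norm_exp_ofReal_mul_I]
    have hE1' : ∀ x : ℝ, ‖Complex.exp (I * (x : ℂ))‖ = 1 := by
      intro x
      rw [mul_comm, Complex.norm_exp_ofReal_mul_I]
    have hEint : ∫ x in c..(c + 2 * π), Complex.exp (-(I * (x : ℂ))) = 0 := by
      have := int_exp_shift (-1) (by norm_num) c
      simpa using this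
    have hPc : Continuous fun x : ℝ => P.eval (Complex.exp (I * (x : ℂ))) :=
      P.continuous.comp (by fun_prop)
    have hEc : Continuous fun x : ℝ => Complex.exp (-(I * (x : ℂ))) := by fun_prop
    have k1 : ∫ x in c..(c + 2 * π), (f x - μ) * Complex.exp (-(I * (x : ℂ)))
        = 2 * π * P.coeff 1 + ∫ x in c..(c + 2 * π),
          (f x - P.eval (Complex.exp (I * (x : ℂ)))) * Complex.exp (-(I * (x : ℂ))) := by
      rw [← coeff_one P c]
      have i1 : IntervalIntegrable (fun x : ℝ => P.eval (Complex.exp (I * (x : ℂ)))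
          * Complex.exp (-(I * (x : ℂ)))) volume c (c + 2 * π) :=
        (hPc.mul hEc).intervalIntegrable _ _
      have i2 : IntervalIntegrable (fun x : ℝ => (f x - P.eval (Complex.exp (I * (x : ℂ))))
          * Complex.exp (-(I * (x : ℂ)))) volume c (c + 2 * π) :=
        ((hfc.sub hPc).mul hEc).intervalIntegrable _ _
      have i3 : IntervalIntegrable (fun x : ℝ => f x * Complex.exp (-(I * (x : ℂ))))
          volume c (c + 2 * π) := (hfc.mul hEc).intervalIntegrable _ _
      have i4 : IntervalIntegrable (fun x : ℝ => μ * Complex.exp (-(I * (x : ℂ))))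
          volume c (c + 2 * π) := (continuous_const.mul hEc).intervalIntegrable _ _
      rw [← intervalIntegral.integral_add i1 i2]
      have e1 : (fun x : ℝ => (f x - μ) * Complex.exp (-(I * (x : ℂ))))
          = fun x : ℝ => f x * Complex.exp (-(I * (x : ℂ))) - μ * Complex.exp (-(I * (x : ℂ))) := by
        funext x; ring
      rw [e1, intervalIntegral.integral_sub i3 i4, intervalIntegral.integral_const_mul, hEint,
        mul_zero, sub_zero]
      apply intervalIntegral.integral_congr
      intro x _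
      simp only
      ring
    have k2 : ‖∫ x in c..(c + 2 * π),
        (f x - P.eval (Complex.exp (I * (x : ℂ)))) * Complex.exp (-(I * (x : ℂ)))‖
        ≤ 2 * π * (c0 / 2) := by
      have h1 := intervalIntegral.norm_integral_le_of_norm_le_const (a := c) (b := c + 2 * π)
        (f := fun x : ℝ => (f x - P.eval (Complex.exp (I * (x : ℂ))))
          * Complex.exp (-(I * (x : ℂ)))) (C := c0 / 2) (fun x hx => by
          rw [uIoc_of_le (by linarith)] at hx
          rw [norm_mul, hE1, mul_one]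
          have e1 : f x - P.eval (Complex.exp (I * (x : ℂ)))
              = (qf ε ((x : ℂ) - c) - 1) * P.eval (Complex.exp (I * (x : ℂ))) := by
            simp only [hf, FF]; ring
          rw [e1, norm_mul]
          have e2 : ‖qf ε ((x : ℂ) - c) - 1‖ ≤ ε * (2 * π) := by
            have := qf_lip hε (x - c) 0
            push_cast at this
            rw [qf_zero, sub_zero] at this
            refine this.trans ?_
            gcongr
            rw [abs_le]
            constructor <;> linarith [hx.1, hx.2]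
          calc _ ≤ ε * (2 * π) * BP :=
                mul_le_mul e2 (hBP _ (hE1' x)) (norm_nonneg _) (by positivity)
            _ = 2 * π * ε * BP := by ring
            _ ≤ c0 / 2 := hsmall)
      rw [add_sub_cancel_left, abs_of_pos (by positivity)] at h1
      linarith
    have k3 : ‖∫ x in c..(c + 2 * π), (f x - μ) * Complex.exp (-(I * (x : ℂ)))‖
        ≤ ∫ x in c..(c + 2 * π), ‖f x - μ‖ := by
      refine (intervalIntegral.norm_integral_le_integral_norm (by linarith)).trans
        (le_of_eq ?_)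
      apply intervalIntegral.integral_congr
      intro x _
      simp only
      rw [norm_mul, hE1, mul_one]
    have k4 : 2 * π * c0 ≤ ‖(2 * π * P.coeff 1 : ℂ)‖ := by
      rw [norm_mul]
      have : ‖(2 * π : ℂ)‖ = 2 * π := by
        have e : (2 * π : ℂ) = ((2 * π : ℝ) : ℂ) := by push_cast; ring
        rw [e, Complex.norm_real, Real.norm_eq_abs, abs_of_pos (by positivity)]
      rw [this]
      gcongr
    have k5 : 2 * π * (c0 / 2) ≤ ∫ x in c..(c + 2 * π), ‖f x - μ‖ := by
      rw [k1] at k3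
      have := norm_sub_le_norm_add (2 * π * P.coeff 1 : ℂ) (∫ x in c..(c + 2 * π),
        (f x - P.eval (Complex.exp (I * (x : ℂ)))) * Complex.exp (-(I * (x : ℂ))))
      linarith
    unfold osc
    rw [add_sub_cancel_left, inv_mul_eq_div, le_div_iff₀ (by positivity)]
    linarith
  refine (ENNReal.ofReal_le_ofReal hlow).trans ?_
  unfold bmoNorm
  exact le_iSup_of_le c (le_iSup_of_le (c + 2 * π) (le_iSup_of_le (by linarith) le_rfl))

end Pool.Agent.TH244.L
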