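import Mathlib
import Pool.Agent.TH244.L.Test

set_option autoImplicit false

/-!
# The test function of a block, II
-/

namespace Pool.Agent.TH244.L

open MeasureTheory Set Filter Topology Complex
open scoped Real ENNReal ComplexConjugate ContDiff

/-- The test function of a block: `P V_h f` is small while `f` is not. -/
theorem test {D c0 ε0 : ℝ} (hD : 0 < D) (hc0 : 0 < c0) (hε0 : 0 < ε0) (P Q : Polynomial ℂ)
    (hP0 : P.coeff 0 = 0) (hP1 : c0 ≤ ‖P.coeff 1‖) (H : ℝ → ℝ)
    (hPQ : ∀ x : ℝ, ‖P.eval (Complex.exp (I * (H x : ℂ))) + 1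
        + Q.eval (Complex.exp (-(I * (x : ℂ))))‖ ≤ ε0) :
    ∃ L : ℕ, ∀ (m : ℤ) (h : ℝ → ℝ), ContDiff ℝ ∞ h → (∀ x, |h x - x| ≤ D) →
      (∀ x, |x - m * (2 * π)| ≤ L * (2 * π) → h x = H x) →
      ∃ f q : ℝ → ℂ, InBMOA f ∧ IsProj (f ∘ h) q ∧ bmoNorm q ≤ ENNReal.ofReal (9 * ε0) ∧
        ENNReal.ofReal (c0 / 2) ≤ bmoNorm f := by
  have hπ := Real.pi_pos
  have hnorm1 : ∀ y : ℝ, ‖Complex.exp (I * (y : ℂ))‖ = 1 := by
    intro y
    rw [mul_comm, Complex.norm_exp_ofReal_mul_I]
  have hnorm2 : ∀ y : ℝ, ‖Complex.exp (-(I * (y : ℂ)))‖ = 1 := by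
    intro y
    have : -(I * (y : ℂ)) = ((-y : ℝ) : ℂ) * I := by push_cast; ring
    rw [this, Complex.norm_exp_ofReal_mul_I]
  obtain ⟨BP, hBP0, hBP'⟩ := poly_disc P
  obtain ⟨BQ, hBQ0, hBQ'⟩ := poly_disc Q
  have hBP : ∀ w : ℂ, ‖w‖ = 1 → ‖P.eval w‖ ≤ BP := fun w hw => hBP' w hw.le
  have hBQ : ∀ w : ℂ, ‖w‖ = 1 → ‖Q.eval w‖ ≤ BQ := fun w hw => hBQ' w hw.le
  -- the parameter of the cutoff
  set ε : ℝ := min 1 (min (ε0 / (D * (1 + BQ))) (c0 / 2 / (2 * π * BP))) with hε
  have hεpos : 0 < ε := by rw [hε]; positivity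
  have hε1 : ε ≤ 1 := min_le_left _ _
  have hε2 : ε * D * (1 + BQ) ≤ ε0 := by
    have h1 : ε ≤ ε0 / (D * (1 + BQ)) := (min_le_right _ _).trans (min_le_left _ _)
    rw [le_div_iff₀ (by positivity)] at h1
    linarith
  have hε3 : 2 * π * ε * BP ≤ c0 / 2 := by
    have h1 : ε ≤ c0 / 2 / (2 * π * BP) := (min_le_right _ _).trans (min_le_right _ _)
    rw [le_div_iff₀ (by positivity)] at h1
    linarith
  -- the length of the block
  set R : ℝ := D + 2 * (BP + 1 + BQ) / (ε * ε0) with hR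
  obtain ⟨L, hL⟩ := exists_nat_gt (R / (2 * π))
  rw [div_lt_iff₀ (by positivity)] at hL
  refine ⟨L, fun m h hh hhD hhH => ?_⟩
  set c : ℝ := m * (2 * π) with hc
  have hhc : Continuous h := hh.continuous
  have hhd : Differentiable ℝ h := hh.differentiable (by norm_num)
  obtain ⟨B1, hB10, hB1⟩ := FF_bdd hεpos hε1 c P hP0
  obtain ⟨B2, hB20, hB2⟩ := FA_bdd hεpos c Q
  set f : ℝ → ℂ := fun t : ℝ => FF ε c P t with hf
  set A : ℝ → ℂ := fun t : ℝ => conj (FA ε c Q t) with hA
  have hfd : Differentiable ℝ f := real_diff (FF_diff hεpos c P)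
  have hAd : Differentiable ℝ A := by
    have h1 : Differentiable ℝ (fun t : ℝ => FA ε c Q t) := real_diff (FA_diff hεpos c Q)
    exact Complex.conjCLE.differentiable.comp h1
  have hfhd : Differentiable ℝ (f ∘ h) := hfd.comp hhd
  set e : ℝ → ℂ := fun x => (f ∘ h) x - A x with he
  have hed : Differentiable ℝ e := hfhd.sub hAd
  have hfB : ∀ t, ‖f t‖ ≤ B1 := fun t => hB1 t (by simp)
  have hfhB : ∀ t, ‖(f ∘ h) t‖ ≤ B1 := fun t => hfB (h t)
  have hAB : ∀ t, ‖A t‖ ≤ B2 := fun t => by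
    simp only [hA, RCLike.norm_conj]
    exact hB2 t (by simp)
  -- the error is small
  have hsmall : ∀ x, ‖e x‖ ≤ 2 * ε0 := by
    intro x
    have e1 : e x = qf ε ((h x : ℂ) - c) * (P.eval (Complex.exp (I * (h x : ℂ))) + 1
          + Q.eval (Complex.exp (-(I * (x : ℂ)))))
        + (qf ε ((x : ℂ) - c) - qf ε ((h x : ℂ) - c))
          * (1 + Q.eval (Complex.exp (-(I * (x : ℂ))))) := by
      simp only [he, hA, hf, Function.comp_apply]
      rw [FA_conj]
      unfold FF
      ring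
    have t2 : ‖(qf ε ((x : ℂ) - c) - qf ε ((h x : ℂ) - c))
          * (1 + Q.eval (Complex.exp (-(I * (x : ℂ)))))‖ ≤ ε0 := by
      rw [norm_mul]
      have h1 : ‖qf ε ((x : ℂ) - c) - qf ε ((h x : ℂ) - c)‖ ≤ ε * D := by
        have h2 := qf_lip hεpos (x - c) (h x - c)
        push_cast at h2
        refine h2.trans ?_
        gcongr
        rw [show x - c - (h x - c) = -(h x - x) by ring, abs_neg]
        exact hhD x
      have h3 : ‖1 + Q.eval (Complex.exp (-(I * (x : ℂ))))‖ ≤ 1 + BQ := by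
        refine (norm_add_le _ _).trans ?_
        rw [norm_one]
        linarith [hBQ _ (hnorm2 x)]
      calc _ ≤ (ε * D) * (1 + BQ) := mul_le_mul h1 h3 (norm_nonneg _) (by positivity)
        _ ≤ ε0 := hε2
    have t1 : ‖qf ε ((h x : ℂ) - c) * (P.eval (Complex.exp (I * (h x : ℂ))) + 1
          + Q.eval (Complex.exp (-(I * (x : ℂ)))))‖ ≤ ε0 := by
      rw [norm_mul]
      rcases le_or_gt |x - c| (L * (2 * π)) with h1 | h1
      · have h2 : ‖qf ε ((h x : ℂ) - c)‖ ≤ 1 := qf_le_one hεpos (by simp)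
        have h3 := hPQ x
        rw [← hhH x h1] at h3
        calc _ ≤ 1 * ε0 := mul_le_mul h2 h3 (norm_nonneg _) zero_le_one
          _ = ε0 := one_mul _
      · have h2 : R - D ≤ |h x - c| := by
          have h3 := hhD x
          have h4 : |x - c| ≤ |h x - c| + |h x - x| := by
            have : x - c = (h x - c) - (h x - x) := by ring
            rw [this]; exact abs_sub _ _
          linarith
        have hRD : 0 < R - D := by rw [hR]; simp only [add_sub_cancel_left]; positivity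
        have h5 : h x - c ≠ 0 := by
          intro h6
          rw [h6, abs_zero] at h2
          linarith
        have h6 : ‖qf ε ((h x : ℂ) - c)‖ ≤ 2 / (ε * (R - D)) := by
          have h7 := qf_far hεpos h5
          push_cast at h7
          refine h7.trans ?_
          gcongr
        have h8 : ‖P.eval (Complex.exp (I * (h x : ℂ))) + 1
          + Q.eval (Complex.exp (-(I * (x : ℂ))))‖ ≤ BP + 1 + BQ := by
          refine (norm_add_le _ _).trans (add_le_add ((norm_add_le _ _).trans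
            (add_le_add (hBP _ (hnorm1 _)) (by rw [norm_one]))) (hBQ _ (hnorm2 _)))
        calc _ ≤ 2 / (ε * (R - D)) * (BP + 1 + BQ) :=
              mul_le_mul h6 h8 (norm_nonneg _) (by positivity)
          _ = ε0 := by
              rw [hR]
              simp only [add_sub_cancel_left]
              field_simp
    rw [e1]
    refine (norm_add_le _ _).trans ?_
    linarith
  -- the Hilbert transforms
  have hfhL : ∀ x, LipAt (f ∘ h) x := fun x => lipAt_of_diff hfhB (hfhd x)
  have hAL : ∀ x, LipAt A x := fun x => lipAt_of_diff hAB (hAd x)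
  have heL : ∀ x, LipAt e x := fun x => lipAt_of_diff hsmall (hed x)
  obtain ⟨κ, hκ⟩ := pvH_conj_analytic (FA ε c Q) B2 (FA_diff hεpos c Q) hB2
  have hsplit : ∀ x, pvH (f ∘ h) x = pvH e x + (I * A x + κ) := by
    intro x
    have h1 : f ∘ h = fun t => e t + A t := by
      funext t
      simp only [he]
      ring
    rw [h1, pvH_add hed.continuous.aestronglyMeasurable hAd.continuous.aestronglyMeasurable
      hsmall hAB (heL x) (hAL x)]
    have h2 := hκ x
    rw [hA, h2]
  refine ⟨f, fun x => (e x + I * pvH e x) / 2, inBMOA_of_analytic _ B1 (FF_diff hεpos c P) hB1,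
    ⟨pvH (f ∘ h), isHilbert_pvH hfhd.continuous.aestronglyMeasurable hfhB hfhL, -(I * κ / 2),
      Eventually.of_forall fun x => ?_⟩, ?_, ?_⟩
  · simp only
    rw [hsplit x]
    have h1 : (f ∘ h) x = e x + A x := by simp only [he]; ring
    rw [h1]
    linear_combination (-(A x) / 2) * I_mul_I
  · refine (bmoNorm_proj_le hed.continuous (B := 2 * ε0) (by positivity) hsmall heL).trans ?_
    apply ENNReal.ofReal_le_ofReal
    linarith
  · exact bmo_low hεpos P hBP hc0 hP1 hε3 c

end Pool.Agent.TH244.L
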