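import Mathlib
import Pool.Agent.TH244.L.AInf
import Pool.Agent.TH244.L.Test2

set_option autoImplicit false

/-!
# The arrangement of the blocks and the final homeomorphism
-/

namespace Pool.Agent.TH244.L

open MeasureTheory Set Filter Topology Complex
open scoped Real ENNReal ContDiff

/-- Consecutive blocks of prescribed lengths. -/
theorem exists_ty (L : ℕ → ℕ) : ∃ (m : ℕ → ℤ) (ty : ℤ → ℕ), ∀ (k : ℕ) (i : ℤ),
    |i - m k| ≤ L k → ty i = k := by
  classical
  set s : ℕ → ℤ := fun k => ∑ j ∈ Finset.range k, (2 * (L j : ℤ) + 1) with hs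
  have hs1 : ∀ k, s (k + 1) = s k + (2 * (L k : ℤ) + 1) := fun k => by
    simp only [hs, Finset.sum_range_succ]
  have hmono : Monotone s := by
    apply monotone_nat_of_le_succ
    intro k
    rw [hs1]
    have : (0:ℤ) ≤ L k := Int.natCast_nonneg _
    linarith
  set m : ℕ → ℤ := fun k => s k + L k with hm
  have hkey : ∀ k i, |i - m k| ≤ L k → s k ≤ i ∧ i < s (k + 1) := by
    intro k i hi
    rw [abs_le] at hi
    rw [hs1]
    simp only [hm] at hi
    constructor <;> linarith [hi.1, hi.2]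
  have huniq : ∀ k k' i, |i - m k| ≤ L k → |i - m k'| ≤ L k' → k = k' := by
    intro k k' i h1 h2
    obtain ⟨a1, a2⟩ := hkey k i h1
    obtain ⟨b1, b2⟩ := hkey k' i h2
    rcases lt_trichotomy k k' with h | h | h
    · have := hmono (Nat.succ_le_of_lt h)
      simp only [Nat.succ_eq_add_one] at this
      linarith
    · exact h
    · have := hmono (Nat.succ_le_of_lt h)
      simp only [Nat.succ_eq_add_one] at this
      linarith
  refine ⟨m, fun i => if h : ∃ k, |i - m k| ≤ L k then h.choose else 0, fun k i hi => ?_⟩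
  have hex : ∃ k, |i - m k| ≤ L k := ⟨k, hi⟩
  beta_reduce
  rw [dif_pos hex]
  exact huniq _ _ i hex.choose_spec hi

/-- The cells near the centre of a block. -/
theorem cell_near {m : ℤ} {L : ℕ} {x : ℝ} (hx : |x - m * (2 * π)| ≤ L * (2 * π)) :
    |cell x - m| ≤ L := by
  have hπ := Real.pi_pos
  have h2π : (0:ℝ) < 2 * π := by positivity
  rw [abs_le] at hx
  obtain ⟨h1, h2⟩ := (cell_eq (x := x)).1 rfl
  unfold zz at h1 h2
  push_cast at h1
  rw [abs_le]
  constructor
  · -- lower bound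
    by_contra hcon
    push Not at hcon
    have h3 : cell x + 1 ≤ m - L := by omega
    have h4 : ((cell x : ℝ) + 1) ≤ m - L := by exact_mod_cast h3
    nlinarith [hx.1]
  · by_contra hcon
    push Not at hcon
    have h3 : m + L + 1 ≤ cell x := by omega
    have h4 : (m : ℝ) + L + 1 ≤ cell x := by exact_mod_cast h3
    nlinarith [hx.2]

/-- The main construction. -/
theorem main_construction : ∃ (h : ℝ → ℝ) (c : ℝ), InG h ∧ ContDiff ℝ ∞ h ∧
    (∀ x, 0 < deriv h x) ∧ (∀ x, |h x - x| ≤ 2 * π) ∧ 0 < c ∧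
    ∀ k : ℕ, ∃ f q : ℝ → ℂ, InBMOA f ∧ IsProj (f ∘ h) q ∧
      bmoNorm q ≤ ENNReal.ofReal (9 * (1 / (k + 1))) ∧ ENNReal.ofReal c ≤ bmoNorm f := by
  obtain ⟨g, p, C, c0, hg, hp, hC, hc0, hblocks⟩ := blocks
  choose H P Q hH hP0 hP1 hPQ using fun k : ℕ => hblocks (1 / ((k : ℝ) + 1)) (by positivity)
  choose L hL using fun k : ℕ => test (D := 2 * π) (ε0 := 1 / ((k : ℝ) + 1)) (by positivity) hc0
    (by positivity) (P k) (Q k) (hP0 k) (hP1 k) (H k) (hPQ k)
  obtain ⟨m, ty, hty⟩ := exists_ty L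
  refine ⟨glue H ty, c0 / 2, glue_inG hH hg hp hC, glue_smooth hH hg, glue_pos hH hg,
    glue_sub hH hg, by positivity, fun k => ?_⟩
  refine hL k (m k) (glue H ty) (glue_smooth hH hg) (glue_sub hH hg) fun x hx => ?_
  unfold glue
  rw [hty k (cell x) (cell_near hx)]

/-- Scaling of projections. -/
theorem isProj_smul {f q : ℝ → ℂ} (h : IsProj f q) (c : ℂ) :
    IsProj (fun x => c * f x) (fun x => c * q x) := by
  obtain ⟨g, hg, d, hd⟩ := h
  refine ⟨fun x => c * g x, ?_, c * d, ?_⟩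
  · filter_upwards [hg] with x hx
    have h1 : ∀ ε, truncH (fun x => c * f x) ε x = c * truncH f ε x := by
      intro ε
      unfold truncH
      have e : ∀ t, c * f t * ((1 / (x - t) + t / (1 + t ^ 2) : ℝ) : ℂ)
          = c * (f t * ((1 / (x - t) + t / (1 + t ^ 2) : ℝ) : ℂ)) := fun t => by ring
      simp_rw [e]
      rw [integral_const_mul]
      ring
    simp_rw [h1]
    exact hx.const_mul c
  · filter_upwards [hd] with x hx
    rw [hx]
    ring

theorem inBMO_smul {f : ℝ → ℂ} (h : InBMO f) (c : ℂ) : InBMO (fun x => c * f x) := by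
  refine ⟨?_, ?_⟩
  · exact h.1.smul c
  · rw [bmoNorm_smul]
    exact ENNReal.mul_lt_top ENNReal.ofReal_lt_top h.2

theorem inBMOA_smul {f : ℝ → ℂ} (h : InBMOA f) (c : ℂ) : InBMOA (fun x => c * f x) := by
  obtain ⟨h1, v, h2, h3⟩ := h
  exact ⟨inBMO_smul h1 c, fun x => c * v x, inBMO_smul h2 c, isProj_smul h3 c⟩

end Pool.Agent.TH244.L
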