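import Pool.Agent.TH244.L.Analytic

set_option autoImplicit false

/-!
# The `L²` bound for the conjugate Poisson integral of a bounded function on an interval
-/

namespace Pool.Agent.TH244.L

open MeasureTheory Set Filter Topology Complex
open scoped Real ENNReal

theorem low1 (x : ℝ) {y : ℝ} (hy : 0 < y) (hy1 : y < 1) (w : ℂ) (hw : 0 ≤ w.im) :
    y ^ 2 * (1 + ‖w‖ ^ 2) ≤ (3 + 2 * x ^ 2) * ‖w - x + y * I‖ ^ 2 := by
  rw [← Complex.normSq_eq_norm_sq, ← Complex.normSq_eq_norm_sq, Complex.normSq_apply,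
    Complex.normSq_apply]
  simp
  have e1 : w.re * w.re ≤ 2 * ((w.re - x) * (w.re - x)) + 2 * x ^ 2 := by
    nlinarith [sq_nonneg (w.re - 2 * x)]
  have hy2 : y ^ 2 ≤ 1 := by nlinarith
  have e2 : y ^ 2 * (w.re * w.re) ≤ 2 * ((w.re - x) * (w.re - x)) + 2 * x ^ 2 * y ^ 2 := by
    have : y ^ 2 * (w.re * w.re) ≤ y ^ 2 * (2 * ((w.re - x) * (w.re - x)) + 2 * x ^ 2) :=
      mul_le_mul_of_nonneg_left e1 (sq_nonneg y)
    have h3 : y ^ 2 * (2 * ((w.re - x) * (w.re - x))) ≤ 1 * (2 * ((w.re - x) * (w.re - x))) :=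
      mul_le_mul_of_nonneg_right hy2 (by nlinarith [mul_self_nonneg (w.re - x)])
    nlinarith
  have e3 : y ^ 2 * (w.im * w.im) ≤ w.im * w.im := by
    nlinarith [mul_self_nonneg w.im]
  have e4 : 0 ≤ x ^ 2 * ((w.re - x) * (w.re - x)) :=
    mul_nonneg (sq_nonneg x) (mul_self_nonneg _)
  have e5 : (w.im + y) * (w.im + y) ≥ w.im * w.im + y ^ 2 := by nlinarith
  have e6 : x ^ 2 * ((w.im + y) * (w.im + y)) ≥ x ^ 2 * y ^ 2 := by
    have : (w.im + y) * (w.im + y) ≥ y ^ 2 := by nlinarith [mul_self_nonneg w.im]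
    exact mul_le_mul_of_nonneg_left this (sq_nonneg x)
  nlinarith [mul_self_nonneg (w.re - x), mul_self_nonneg w.im]

/-- Cauchy type integral of `g` on `[α, β]`. -/
noncomputable def W (g : ℝ → ℂ) (α β y : ℝ) (w : ℂ) : ℂ := ∫ t in Icc α β, g t / (w - t + y * I)

theorem W_ne {y : ℝ} (t : ℝ) {w : ℂ} (hw : -y < w.im) : w - t + y * I ≠ 0 := by
  intro h
  have := congrArg Complex.im h
  simp at this
  linarith

theorem W_diff (g : ℝ → ℂ) (hg : Continuous g) (α β y : ℝ) (w : ℂ)
    (hw : -y < w.im) : DifferentiableAt ℂ (W g α β y) w := by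
  obtain ⟨B, hB⟩ : ∃ B, ∀ t ∈ Icc α β, ‖g t‖ ≤ B :=
    isCompact_Icc.exists_bound_of_continuousOn hg.continuousOn
  set δ := (w.im + y) / 2 with hδ
  have hδ0 : 0 < δ := by rw [hδ]; linarith
  have hball : ∀ v ∈ Metric.ball w δ, δ ≤ v.im + y := by
    intro v hv
    have h1 : |(v - w).im| ≤ ‖v - w‖ := Complex.abs_im_le_norm _
    rw [Metric.mem_ball, dist_eq_norm] at hv
    have h2 := abs_le.1 (h1.trans hv.le)
    simp only [Complex.sub_im] at h2
    have := h2.1
    rw [hδ] at this ⊢
    linarith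
  have hnorm : ∀ v ∈ Metric.ball w δ, ∀ t : ℝ, δ ≤ ‖v - t + y * I‖ := by
    intro v hv t
    have h1 : |(v - t + y * I).im| ≤ ‖v - t + y * I‖ := Complex.abs_im_le_norm _
    simp only [Complex.add_im, Complex.sub_im, Complex.ofReal_im, Complex.mul_im,
      Complex.ofReal_re, Complex.I_im, Complex.I_re, mul_one, mul_zero, add_zero, sub_zero] at h1
    exact ((hball v hv).trans (le_abs_self _)).trans h1
  have hne : ∀ v ∈ Metric.ball w δ, ∀ t : ℝ, v - t + y * I ≠ 0 := by
    intro v hv t h
    have := hnorm v hv t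
    rw [h, norm_zero] at this
    linarith
  have key := hasDerivAt_integral_of_dominated_loc_of_deriv_le (μ := volume.restrict (Icc α β))
    (F := fun (v : ℂ) (t : ℝ) => g t / (v - t + y * I))
    (F' := fun (v : ℂ) (t : ℝ) => -(g t) / (v - t + y * I) ^ 2) (x₀ := w)
    (s := Metric.ball w δ) (bound := fun _ => B / δ ^ 2) (Metric.ball_mem_nhds _ hδ0) ?_ ?_ ?_ ?_ ?_ ?_
  · exact key.2.differentiableAt
  · filter_upwards [Metric.ball_mem_nhds w hδ0] with v hv
    refine Continuous.aestronglyMeasurable ?_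
    exact hg.div (by fun_prop) fun t => hne v hv t
  · have hc : Continuous fun t : ℝ => g t / (w - t + y * I) :=
      hg.div (by fun_prop) fun t => hne w (Metric.mem_ball_self hδ0) t
    exact (hc.continuousOn.integrableOn_compact isCompact_Icc)
  · refine Continuous.aestronglyMeasurable ?_
    exact hg.neg.div (by fun_prop) fun t => pow_ne_zero 2 (hne w (Metric.mem_ball_self hδ0) t)
  · filter_upwards [ae_restrict_mem measurableSet_Icc] with t ht
    intro v hv
    have hB0 : 0 ≤ B := (norm_nonneg _).trans (hB t ht)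
    rw [norm_div, norm_neg, norm_pow]
    have := hnorm v hv t
    gcongr
    exact hB t ht
  · exact integrable_const _
  · refine Eventually.of_forall fun t v hv => ?_
    have h1 : HasDerivAt (fun v : ℂ => v - t + y * I) 1 v :=
      ((hasDerivAt_id v).sub_const _).add_const _
    have h2 := (HasDerivAt.fun_inv h1 (hne v hv t)).const_mul (g t)
    have h4 : HasDerivAt (fun v : ℂ => g t / (v - t + y * I))
        (g t * (-1 / (v - t + y * I) ^ 2)) v := by
      simpa only [div_eq_mul_inv] using h2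
    have h5 : -(g t) / (v - t + y * I) ^ 2 = g t * (-1 / (v - t + y * I) ^ 2) := by ring
    rw [h5]
    exact h4

theorem W_le (g : ℝ → ℂ) {α β y B : ℝ} (hαβ : α ≤ β) (hB : ∀ t, ‖g t‖ ≤ B)
    (hy : 0 < y) (hy1 : y < 1) (w : ℂ) (hw : 0 ≤ w.im) :
    ‖W g α β y w‖ ≤ B * Real.sqrt ((3 + 2 * (|α| + |β|) ^ 2) / (y ^ 2 * (1 + ‖w‖ ^ 2))) * (β - α) := by
  have hB0 : 0 ≤ B := (norm_nonneg _).trans (hB 0)
  unfold W
  have h := norm_setIntegral_le_of_norm_le_const (μ := volume) (s := Icc α β)
      (f := fun t => g t / (w - t + y * I))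
      (C := B * Real.sqrt ((3 + 2 * (|α| + |β|) ^ 2) / (y ^ 2 * (1 + ‖w‖ ^ 2)))) (by simp) (by
        intro t ht
        rw [norm_div, div_eq_mul_inv]
        have hpos : 0 < ‖w - t + y * I‖ := norm_pos_iff.2 (W_ne t (by linarith))
        refine mul_le_mul (hB t) ?_ (by positivity) hB0
        apply Real.le_sqrt_of_sq_le
        rw [inv_pow, inv_eq_one_div, div_le_div_iff₀ (by positivity) (by positivity), one_mul]
        refine (low1 t hy hy1 w hw).trans ?_
        have h1 : |t| ≤ |α| + |β| := by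
          rw [abs_le]
          constructor
          · linarith [ht.1, neg_abs_le α, abs_nonneg β]
          · linarith [ht.2, le_abs_self β, abs_nonneg α]
        have h2 : t ^ 2 ≤ (|α| + |β|) ^ 2 := by
          rw [← sq_abs t]
          exact pow_le_pow_left₀ (abs_nonneg _) h1 2
        exact mul_le_mul_of_nonneg_right (by linarith) (by positivity))
  refine h.trans (le_of_eq ?_)
  rw [measureReal_def, Real.volume_Icc, ENNReal.toReal_ofReal (by linarith)]

/-- The Poisson kernel (times `π`). -/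
noncomputable def kP (y s : ℝ) : ℝ := y / (s ^ 2 + y ^ 2)

theorem inv_eq {y s : ℝ} (hy : 0 < y) : 1 / ((s : ℂ) + y * I) = (kS y s : ℂ) - I * (kP y s : ℂ) := by
  have n1 : ((s : ℂ) + y * I) ≠ 0 := by
    intro h
    have := congrArg Complex.im h
    simp at this
    linarith
  have hpos : (s ^ 2 + y ^ 2 : ℝ) ≠ 0 := by positivity
  have hpos' : ((s : ℂ) ^ 2 + y ^ 2) ≠ 0 := by exact_mod_cast hpos
  unfold kS kP
  push_cast
  rw [div_eq_iff n1]
  field_simp
  linear_combination ((y:ℂ) ^ 2) * Complex.I_sq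

theorem kS_cont {y : ℝ} (hy : 0 < y) : Continuous (kS y) := by
  unfold kS
  exact continuous_id.div (by fun_prop) fun s => by positivity

theorem kP_cont {y : ℝ} (hy : 0 < y) : Continuous (kP y) := by
  unfold kP
  exact continuous_const.div (by fun_prop) fun s => by positivity

theorem W_real (g : ℝ → ℂ) (hg : Continuous g) {α β y : ℝ} (hy : 0 < y) (x : ℝ) :
    W g α β y x = (∫ t in Icc α β, g t * (kS y (x - t) : ℂ))
      - I * ∫ t in Icc α β, g t * (kP y (x - t) : ℂ) := by
  unfold W
  have i1 : Integrable (fun t => g t * (kS y (x - t) : ℂ)) (volume.restrict (Icc α β)) := by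
    apply ContinuousOn.integrableOn_compact isCompact_Icc
    exact (hg.mul (Complex.continuous_ofReal.comp ((kS_cont hy).comp (by fun_prop)))).continuousOn
  have i2 : Integrable (fun t => g t * (kP y (x - t) : ℂ)) (volume.restrict (Icc α β)) := by
    apply ContinuousOn.integrableOn_compact isCompact_Icc
    exact (hg.mul (Complex.continuous_ofReal.comp ((kP_cont hy).comp (by fun_prop)))).continuousOn
  rw [← integral_const_mul, ← integral_sub i1 (i2.const_mul I)]
  refine integral_congr_ae (Eventually.of_forall fun t => ?_)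
  simp only
  have h := inv_eq (s := x - t) hy
  have e : (x : ℂ) - t + y * I = ((x - t : ℝ) : ℂ) + y * I := by push_cast; ring
  rw [e, div_eq_mul_one_div, h]
  ring

theorem kP_nonneg {y : ℝ} (hy : 0 < y) (s : ℝ) : 0 ≤ kP y s := by unfold kP; positivity

theorem kP_integrable {y : ℝ} (hy : 0 < y) : Integrable (kP y) := by
  have h := (integrable_inv_one_add_sq.comp_div hy.ne').const_mul (1 / y)
  refine h.congr (Eventually.of_forall fun s => ?_)
  simp only [kP]
  field_simp
  ring

theorem kP_integral {y : ℝ} (hy : 0 < y) : ∫ s, kP y s = π := by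
  have h1 : ∀ s, kP y s = (1 / y) * (1 + (s / y) ^ 2)⁻¹ := by
    intro s
    unfold kP
    field_simp
    ring
  simp_rw [h1]
  rw [integral_const_mul]
  have h2 := Measure.integral_comp_div (fun s : ℝ => (1 + s ^ 2)⁻¹) y
  rw [h2, integral_univ_inv_one_add_sq, abs_of_pos hy, smul_eq_mul]
  field_simp

/-- The `L²` bound. -/
theorem l2_bound (g : ℝ → ℂ) (hg : Continuous g) {α β y B : ℝ} (hαβ : α ≤ β) (hB : ∀ t, ‖g t‖ ≤ B)
    (hy : 0 < y) (hy1 : y < 1) :
    Integrable (fun x : ℝ => ‖∫ t in Icc α β, g t * (kS y (x - t) : ℂ)‖ ^ 2) ∧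
    ∫ x : ℝ, ‖∫ t in Icc α β, g t * (kS y (x - t) : ℂ)‖ ^ 2 ≤ π ^ 2 * B ^ 2 * (β - α) := by
  have hB0 : 0 ≤ B := (norm_nonneg _).trans (hB 0)
  set T : ℝ → ℂ := fun x => ∫ t in Icc α β, g t * (kS y (x - t) : ℂ) with hT
  set P : ℝ → ℂ := fun x => ∫ t in Icc α β, g t * (kP y (x - t) : ℂ) with hP
  set gb : ℝ → ℂ := fun t => (starRingEnd ℂ) (g t) with hgb
  have hgbc : Continuous gb := Complex.continuous_conj.comp hg
  have hgbB : ∀ t, ‖gb t‖ ≤ B := fun t => by simp only [hgb, RCLike.norm_conj]; exact hB t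
  have hW1 : ∀ x : ℝ, W g α β y x = T x - I * P x := fun x => W_real g hg hy x
  have hW2 : ∀ x : ℝ, W gb α β y x = (starRingEnd ℂ) (T x + I * P x) := by
    intro x
    rw [W_real gb hgbc hy x, map_add, map_mul, Complex.conj_I, hT, hP]
    simp only
    rw [← integral_conj, ← integral_conj]
    simp only [map_mul, Complex.conj_ofReal, hgb]
    ring
  have hprod : ∀ x : ℝ, (W g α β y x * W gb α β y x).re = ‖T x‖ ^ 2 - ‖P x‖ ^ 2 := by
    intro x
    rw [hW1, hW2, ← Complex.normSq_eq_norm_sq, ← Complex.normSq_eq_norm_sq, Complex.normSq_apply,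
      Complex.normSq_apply]
    simp
    ring
  -- the contour integral
  set K : ℝ := B * (β - α) with hK
  have hK0 : 0 ≤ K := mul_nonneg hB0 (by linarith)
  set A : ℝ := (3 + 2 * (|α| + |β|) ^ 2) / y ^ 2 with hA
  have hA0 : 0 ≤ A := by positivity
  have hwle : ∀ (g' : ℝ → ℂ), (∀ t, ‖g' t‖ ≤ B) → ∀ w : ℂ, 0 ≤ w.im →
      ‖W g' α β y w‖ ≤ K * Real.sqrt (A / (1 + ‖w‖ ^ 2)) := by
    intro g' hg' w hw
    refine (W_le g' hαβ hg' hy hy1 w hw).trans (le_of_eq ?_)
    rw [hK, hA, div_div]
    ring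
  have hcontour : ∫ x : ℝ, W g α β y x * W gb α β y x = 0 := by
    refine integral_line_eq_zero (fun w => W g α β y w * W gb α β y w) (K ^ 2 * A) ?_ ?_ ?_
    · intro w hw
      have hw' : -y < w.im := by
        have : 0 ≤ w.im := hw
        linarith
      exact ((W_diff g hg α β y w hw').mul (W_diff gb hgbc α β y w hw')).continuousAt.continuousWithinAt
    · intro w hw
      have hw' : -y < w.im := by
        have : 0 < w.im := hw
        linarith
      exact ((W_diff g hg α β y w hw').mul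
        (W_diff gb hgbc α β y w hw')).differentiableWithinAt
    · intro w hw
      rw [norm_mul]
      have h1 := hwle g hB w hw
      have h2 := hwle gb hgbB w hw
      calc ‖W g α β y w‖ * ‖W gb α β y w‖
          ≤ (K * Real.sqrt (A / (1 + ‖w‖ ^ 2))) * (K * Real.sqrt (A / (1 + ‖w‖ ^ 2))) := by gcongr
        _ = K ^ 2 * (Real.sqrt (A / (1 + ‖w‖ ^ 2)) * Real.sqrt (A / (1 + ‖w‖ ^ 2))) := by ring
        _ = K ^ 2 * A / (1 + ‖w‖ ^ 2) := by
            rw [Real.mul_self_sqrt (by positivity)]; ring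
  -- continuity of T, P through W
  have hWc : ∀ g' : ℝ → ℂ, Continuous g' → Continuous fun x : ℝ => W g' α β y x := by
    intro g' hg'
    rw [continuous_iff_continuousAt]
    intro x
    have h1 : ContinuousAt (W g' α β y) (x : ℂ) := (W_diff g' hg' α β y x (by simp [hy])).continuousAt
    exact h1.comp (f := fun x : ℝ => (x : ℂ)) Complex.continuous_ofReal.continuousAt
  have hc1 := hWc g hg
  have hc2 := hWc gb hgbc
  have hTe : ∀ x : ℝ, T x = (W g α β y x + (starRingEnd ℂ) (W gb α β y x)) / 2 := by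
    intro x
    rw [hW1, hW2]
    simp
  have hPe : ∀ x : ℝ, P x = ((starRingEnd ℂ) (W gb α β y x) - W g α β y x) / (2 * I) := by
    intro x
    rw [hW1, hW2, Complex.conj_conj]
    field_simp
    ring
  have hTc : Continuous T := by
    rw [show T = fun x : ℝ => (W g α β y x + (starRingEnd ℂ) (W gb α β y x)) / 2 from funext hTe]
    exact (hc1.add (Complex.continuous_conj.comp hc2)).div_const _
  have hPc : Continuous P := by
    rw [show P = fun x : ℝ => ((starRingEnd ℂ) (W gb α β y x) - W g α β y x) / (2 * I) from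
      funext hPe]
    exact ((Complex.continuous_conj.comp hc2).sub hc1).div_const _
  have hbnd : ∀ x : ℝ, ‖T x‖ ^ 2 ≤ K ^ 2 * A * (1 + x ^ 2)⁻¹ ∧
      ‖P x‖ ^ 2 ≤ K ^ 2 * A * (1 + x ^ 2)⁻¹ := by
    intro x
    have h1 := hwle g hB x (by simp)
    have h2 := hwle gb hgbB x (by simp)
    have hx : ‖(x : ℂ)‖ ^ 2 = x ^ 2 := by rw [Complex.norm_real, Real.norm_eq_abs, sq_abs]
    rw [hx] at h1 h2
    set S := K * Real.sqrt (A / (1 + x ^ 2)) with hS
    have hS2 : S ^ 2 = K ^ 2 * A * (1 + x ^ 2)⁻¹ := by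
      rw [hS, mul_pow, Real.sq_sqrt (by positivity)]; ring
    have e1 : ‖T x‖ ≤ S := by
      rw [hTe, norm_div]
      have : ‖W g α β y x + (starRingEnd ℂ) (W gb α β y x)‖ ≤ 2 * S := by
        refine (norm_add_le _ _).trans ?_
        rw [RCLike.norm_conj]; linarith
      have h3 : ‖(2:ℂ)‖ = 2 := by simp
      rw [h3, div_le_iff₀ (by norm_num)]
      linarith
    have e2 : ‖P x‖ ≤ S := by
      rw [hPe, norm_div]
      have : ‖(starRingEnd ℂ) (W gb α β y x) - W g α β y x‖ ≤ 2 * S := by
        refine (norm_sub_le _ _).trans ?_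
        rw [RCLike.norm_conj]; linarith
      have h3 : ‖(2 * I:ℂ)‖ = 2 := by simp
      rw [h3, div_le_iff₀ (by norm_num)]
      linarith
    rw [← hS2]
    exact ⟨pow_le_pow_left₀ (norm_nonneg _) e1 2, pow_le_pow_left₀ (norm_nonneg _) e2 2⟩
  have iT : Integrable fun x => ‖T x‖ ^ 2 := by
    refine Integrable.mono' (integrable_inv_one_add_sq.const_mul (K ^ 2 * A))
      (hTc.norm.pow 2).aestronglyMeasurable (Eventually.of_forall fun x => ?_)
    rw [Real.norm_eq_abs, abs_of_nonneg (by positivity)]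
    exact (hbnd x).1
  have iP : Integrable fun x => ‖P x‖ ^ 2 := by
    refine Integrable.mono' (integrable_inv_one_add_sq.const_mul (K ^ 2 * A))
      (hPc.norm.pow 2).aestronglyMeasurable (Eventually.of_forall fun x => ?_)
    rw [Real.norm_eq_abs, abs_of_nonneg (by positivity)]
    exact (hbnd x).2
  have iW : Integrable fun x : ℝ => W g α β y x * W gb α β y x := by
    refine Integrable.mono' (integrable_inv_one_add_sq.const_mul (K ^ 2 * A))
      (hc1.mul hc2).aestronglyMeasurable (Eventually.of_forall fun x => ?_)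
    rw [norm_mul]
    have h1 := hwle g hB x (by simp)
    have h2 := hwle gb hgbB x (by simp)
    have hx : ‖(x : ℂ)‖ ^ 2 = x ^ 2 := by rw [Complex.norm_real, Real.norm_eq_abs, sq_abs]
    rw [hx] at h1 h2
    calc ‖W g α β y x‖ * ‖W gb α β y x‖
          ≤ (K * Real.sqrt (A / (1 + x ^ 2))) * (K * Real.sqrt (A / (1 + x ^ 2))) := by gcongr
      _ = K ^ 2 * (Real.sqrt (A / (1 + x ^ 2)) * Real.sqrt (A / (1 + x ^ 2))) := by ring
      _ = K ^ 2 * A * (1 + x ^ 2)⁻¹ := by
          rw [Real.mul_self_sqrt (by positivity)]; ring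
  have heq : ∫ x, ‖T x‖ ^ 2 = ∫ x, ‖P x‖ ^ 2 := by
    have h1 : ∫ x : ℝ, (W g α β y x * W gb α β y x).re = 0 := by
      have h2 := integral_re iW
      rw [hcontour] at h2
      simpa using h2
    simp_rw [hprod] at h1
    rw [integral_sub iT iP] at h1
    linarith
  refine ⟨iT, ?_⟩
  show ∫ x, ‖T x‖ ^ 2 ≤ _
  rw [heq]
  -- the Poisson part
  set q : ℝ → ℝ := fun x => ∫ t in Icc α β, kP y (x - t) with hq
  have hkPi : ∀ x, Integrable (fun t => kP y (x - t)) := fun x => (kP_integrable hy).comp_sub_left x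
  have hPq : ∀ x, ‖P x‖ ≤ B * q x := by
    intro x
    rw [hP, hq]
    simp only
    rw [← integral_const_mul]
    refine norm_integral_le_of_norm_le (((hkPi x).integrableOn).const_mul B) ?_
    refine Eventually.of_forall fun t => ?_
    rw [norm_mul, Complex.norm_real, Real.norm_eq_abs, abs_of_nonneg (kP_nonneg hy _)]
    exact mul_le_mul_of_nonneg_right (hB t) (kP_nonneg hy _)
  have hq0 : ∀ x, 0 ≤ q x := fun x => integral_nonneg fun t => kP_nonneg hy _
  have hqπ : ∀ x, q x ≤ π := by
    intro x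
    have h1 : q x ≤ ∫ t, kP y (x - t) :=
      setIntegral_le_integral (hkPi x) (Eventually.of_forall fun t => kP_nonneg hy _)
    rwa [integral_sub_left_eq_self (kP y) volume x, kP_integral hy] at h1
  have hqint : Integrable q ∧ ∫ x, q x = (β - α) * π := by
    have hi1 : Integrable (indicator (Icc α β) (fun _ : ℝ => (1:ℝ))) :=
      (integrable_indicator_iff measurableSet_Icc).2 (integrableOn_const (by simp))
    have e1 : ∀ x, q x = convolution (indicator (Icc α β) (fun _ : ℝ => (1:ℝ))) (kP y)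
        (ContinuousLinearMap.mul ℝ ℝ) volume x := by
      intro x
      rw [hq]
      simp only [convolution, ContinuousLinearMap.mul_apply']
      rw [← integral_indicator measurableSet_Icc]
      refine integral_congr_ae (Eventually.of_forall fun t => ?_)
      simp only [indicator]
      split_ifs <;> simp
    constructor
    · rw [show q = _ from funext e1]
      exact hi1.integrable_convolution _ (kP_integrable hy)
    · simp_rw [e1]
      rw [integral_convolution _ hi1 (kP_integrable hy), kP_integral hy]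
      simp only [ContinuousLinearMap.mul_apply']
      rw [integral_indicator measurableSet_Icc]
      simp [hαβ]
  calc ∫ x, ‖P x‖ ^ 2 ≤ ∫ x, B ^ 2 * π * q x := by
        refine integral_mono iP (hqint.1.const_mul _) fun x => ?_
        simp only
        calc ‖P x‖ ^ 2 ≤ (B * q x) ^ 2 := pow_le_pow_left₀ (norm_nonneg _) (hPq x) 2
          _ = B ^ 2 * (q x * q x) := by ring
          _ ≤ B ^ 2 * (π * q x) := by
              have := hq0 x
              have := hqπ x
              gcongr
          _ = B ^ 2 * π * q x := by ring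
    _ = π ^ 2 * B ^ 2 * (β - α) := by
        rw [integral_const_mul, hqint.2]; ring

end Pool.Agent.TH244.L
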