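import Pool.Agent.TH244.L.Defs

set_option autoImplicit false

/-!
# Principal values
-/

namespace Pool.Agent.TH244.L

open MeasureTheory Set Filter Topology Complex
open scoped Real ENNReal

/-- `f` is Lipschitz at the point `x`. -/
def LipAt (f : ℝ → ℂ) (x : ℝ) : Prop := ∃ L : ℝ, ∀ t, ‖f t - f x‖ ≤ L * |t - x|

/-- The integrand with a general kernel `K`. -/
noncomputable def dK (K : ℝ → ℝ) (f : ℝ → ℂ) (x t : ℝ) : ℂ :=
  (f t - (if |x - t| ≤ 1 then f x else 0)) * (K (x - t) : ℂ) + f t * ((t / (1 + t ^ 2) : ℝ) : ℂ)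

/-- The Hilbert transform, pointwise. -/
noncomputable def pvH (f : ℝ → ℂ) (x : ℝ) : ℂ :=
  ((1 / π : ℝ) : ℂ) * ∫ t, dK (fun s => 1 / s) f x t

/-- The conditions on a kernel. -/
structure Ker (K : ℝ → ℝ) : Prop where
  meas : Measurable K
  le : ∀ s, |K s| ≤ 1 / |s|
  far : ∀ s, 1 ≤ |s| → |K s - 1 / s| ≤ 1 / s ^ 2

theorem ker_inv : Ker (fun s => 1 / s) where
  meas := by fun_prop
  le := by intro s; rw [abs_div, abs_one]
  far := by intro s _; simp; positivity

/-- Domination of the integrand. -/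
theorem dK_le {K : ℝ → ℝ} (hK : Ker K) {f : ℝ → ℂ} {B L x : ℝ} (hB : ∀ t, ‖f t‖ ≤ B)
    (hL : ∀ t, ‖f t - f x‖ ≤ L * |t - x|) (t : ℝ) :
    ‖dK K f x t‖ ≤ ((L + B) * (3 + 2 * x ^ 2) + B * (5 + 4 * x ^ 2)) * (1 + t ^ 2)⁻¹ := by
  have hB0 : 0 ≤ B := (norm_nonneg _).trans (hB x)
  have hL0 : 0 ≤ L := by
    have h1 := (norm_nonneg _).trans (hL (x + 1))
    simpa using h1
  have ht : 0 < 1 + t ^ 2 := by positivity
  unfold dK
  split_ifs with h
  · -- near
    have h1 : ‖(f t - f x) * (K (x - t) : ℂ)‖ ≤ L := by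
      rw [norm_mul, Complex.norm_real, Real.norm_eq_abs]
      rcases eq_or_ne t x with rfl | hne
      · simp [hL0]
      · have h2 := hK.le (x - t)
        have h3 : 0 < |x - t| := abs_pos.2 (sub_ne_zero.2 hne.symm)
        calc ‖f t - f x‖ * |K (x - t)| ≤ (L * |t - x|) * (1 / |x - t|) := by
              gcongr; exact hL t
          _ = L := by rw [abs_sub_comm t x]; field_simp
    have h2 : ‖f t * ((t / (1 + t ^ 2) : ℝ) : ℂ)‖ ≤ B := by
      rw [norm_mul, Complex.norm_real, Real.norm_eq_abs]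
      have : |t / (1 + t ^ 2)| ≤ 1 := by
        rw [abs_div, abs_of_pos ht, div_le_one ht]
        nlinarith [sq_abs t, sq_nonneg (|t| - 1)]
      calc ‖f t‖ * |t / (1 + t ^ 2)| ≤ B * 1 := by gcongr; exact hB t
        _ = B := mul_one _
    have h3 : 1 + t ^ 2 ≤ 3 + 2 * x ^ 2 := by
      have h4 : (x - t) ^ 2 ≤ 1 := by rw [← sq_abs]; nlinarith [abs_nonneg (x - t)]
      nlinarith [sq_nonneg (x - t), sq_nonneg (2 * x - t), sq_nonneg (x + (x - t))]
    have h5 : L + B ≤ (L + B) * (3 + 2 * x ^ 2) * (1 + t ^ 2)⁻¹ := by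
      rw [← div_eq_mul_inv, le_div_iff₀ ht]
      exact mul_le_mul_of_nonneg_left h3 (by linarith)
    have h6 : 0 ≤ B * (5 + 4 * x ^ 2) * (1 + t ^ 2)⁻¹ := by positivity
    calc _ ≤ L + B := (norm_add_le _ _).trans (add_le_add h1 h2)
      _ ≤ _ := by rw [add_mul]; linarith
  · -- far
    push Not at h
    have hne : x - t ≠ 0 := by
      intro h0; rw [h0] at h; simp at h; linarith
    have e1 : (f t - 0) * (K (x - t) : ℂ) + f t * ((t / (1 + t ^ 2) : ℝ) : ℂ)
        = f t * (((K (x - t) - 1 / (x - t)) + (1 / (x - t) + t / (1 + t ^ 2)) : ℝ) : ℂ) := by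
      push_cast; ring
    rw [e1, norm_mul, Complex.norm_real, Real.norm_eq_abs]
    have hs : 1 < (x - t) ^ 2 := by rw [← sq_abs]; nlinarith [abs_nonneg (x - t)]
    have h1 : |K (x - t) - 1 / (x - t)| ≤ (3 + 2 * x ^ 2) * (1 + t ^ 2)⁻¹ := by
      refine (hK.far _ h.le).trans ?_
      rw [← div_eq_mul_inv, div_le_div_iff₀ (by positivity) ht, one_mul]
      have h2 : t ^ 2 ≤ 2 * x ^ 2 + 2 * (x - t) ^ 2 := by
        nlinarith [sq_nonneg (2 * x - t)]
      nlinarith [mul_nonneg (sq_nonneg x) (by linarith : 0 ≤ (x - t) ^ 2 - 1)]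
    have h2 : |1 / (x - t) + t / (1 + t ^ 2)| ≤ (2 + 2 * x ^ 2) * (1 + t ^ 2)⁻¹ := by
      have e2 : 1 / (x - t) + t / (1 + t ^ 2) = ((1 + x ^ 2) / (x - t) - x) * (1 + t ^ 2)⁻¹ := by
        field_simp
        ring
      rw [e2, abs_mul, abs_of_pos (inv_pos.2 ht)]
      gcongr
      have h3 : |(1 + x ^ 2) / (x - t)| ≤ 1 + x ^ 2 := by
        rw [abs_div, abs_of_pos (by positivity : 0 < 1 + x ^ 2)]
        exact div_le_self (by positivity) h.le
      have h4 : |x| ≤ 1 + x ^ 2 := by nlinarith [sq_abs x, sq_nonneg (|x| - 1), abs_nonneg x]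
      calc |(1 + x ^ 2) / (x - t) - x| ≤ |(1 + x ^ 2) / (x - t)| + |x| := abs_sub _ _
        _ ≤ 2 + 2 * x ^ 2 := by linarith
    have h3 : |(K (x - t) - 1 / (x - t)) + (1 / (x - t) + t / (1 + t ^ 2))|
        ≤ (5 + 4 * x ^ 2) * (1 + t ^ 2)⁻¹ := by
      refine (abs_add_le _ _).trans ?_
      refine (add_le_add h1 h2).trans (le_of_eq ?_)
      ring
    have h6 : 0 ≤ (L + B) * (3 + 2 * x ^ 2) * (1 + t ^ 2)⁻¹ := by positivity
    calc _ ≤ B * ((5 + 4 * x ^ 2) * (1 + t ^ 2)⁻¹) := by gcongr; exact hB t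
      _ ≤ _ := by rw [add_mul]; linarith

theorem dK_meas {K : ℝ → ℝ} (hK : Measurable K) {f : ℝ → ℂ} (hf : AEStronglyMeasurable f) (x : ℝ) :
    AEStronglyMeasurable (dK K f x) := by
  unfold dK
  have h1 : Measurable fun t : ℝ => (if |x - t| ≤ 1 then f x else 0) := by
    refine Measurable.ite ?_ measurable_const measurable_const
    exact measurableSet_le (by fun_prop) measurable_const
  have h2 : Measurable fun t : ℝ => (K (x - t) : ℂ) :=
    Complex.measurable_ofReal.comp (hK.comp (by fun_prop))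
  have h3 : Measurable fun t : ℝ => ((t / (1 + t ^ 2) : ℝ) : ℂ) := by fun_prop
  exact ((hf.sub h1.aestronglyMeasurable).mul h2.aestronglyMeasurable).add
    (hf.mul h3.aestronglyMeasurable)

theorem dK_integrable {K : ℝ → ℝ} (hK : Ker K) {f : ℝ → ℂ} (hf : AEStronglyMeasurable f)
    {B x : ℝ} (hB : ∀ t, ‖f t‖ ≤ B) (hL : LipAt f x) : Integrable (dK K f x) := by
  obtain ⟨L, hL⟩ := hL
  refine Integrable.mono' (integrable_inv_one_add_sq.const_mul _) (dK_meas hK.meas hf x)
    (Eventually.of_forall fun t => dK_le hK hB hL t)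

/-- Convergence of the integrals for a family of kernels. -/
theorem dK_tendsto {ι : Type*} {l : Filter ι} [l.IsCountablyGenerated] (K : ι → ℝ → ℝ)
    (hK : ∀ᶠ i in l, Ker (K i)) (hlim : ∀ s : ℝ, s ≠ 0 → Tendsto (fun i => K i s) l (𝓝 (1 / s)))
    {f : ℝ → ℂ} (hf : AEStronglyMeasurable f) {B x : ℝ} (hB : ∀ t, ‖f t‖ ≤ B) (hL : LipAt f x) :
    Tendsto (fun i => ((1 / π : ℝ) : ℂ) * ∫ t, dK (K i) f x t) l (𝓝 (pvH f x)) := by
  obtain ⟨L, hL⟩ := hL
  refine Tendsto.const_mul _ ?_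
  refine tendsto_integral_filter_of_dominated_convergence
    (fun t => ((L + B) * (3 + 2 * x ^ 2) + B * (5 + 4 * x ^ 2)) * (1 + t ^ 2)⁻¹) ?_ ?_ ?_ ?_
  · filter_upwards [hK] with i hi
    exact dK_meas hi.meas hf x
  · filter_upwards [hK] with i hi
    exact Eventually.of_forall fun t => dK_le hi hB hL t
  · exact integrable_inv_one_add_sq.const_mul _
  · have : ∀ᵐ t : ℝ, t ≠ x := by
      rw [ae_iff]; simp
    filter_upwards [this] with t ht
    unfold dK
    have h1 := hlim (x - t) (sub_ne_zero.2 ht.symm)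
    exact ((Complex.continuous_ofReal.tendsto _).comp h1).const_mul _ |>.add_const _

/-- The integral of an odd function against a reflected variable vanishes. -/
theorem integral_odd (φ : ℝ → ℝ) (hφ : ∀ s, φ (-s) = - φ s) (x : ℝ) : ∫ t, φ (x - t) = 0 := by
  rw [integral_sub_left_eq_self φ volume x]
  have h1 := integral_neg_eq_self φ volume
  simp only [hφ] at h1
  rw [integral_neg] at h1
  linarith

/-- For an odd kernel bounded near `0` the subtraction of `f x` does not change the integral. -/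
theorem dK_eq {K : ℝ → ℝ} (hK : Ker K) (hodd : ∀ s, K (-s) = -K s) {M : ℝ} (hM : ∀ s, |K s| ≤ M)
    {f : ℝ → ℂ} (hf : AEStronglyMeasurable f) {B x : ℝ} (hB : ∀ t, ‖f t‖ ≤ B) (hL : LipAt f x) :
    Integrable (fun t => f t * ((K (x - t) + t / (1 + t ^ 2) : ℝ) : ℂ)) ∧
    ∫ t, dK K f x t = ∫ t, f t * ((K (x - t) + t / (1 + t ^ 2) : ℝ) : ℂ) := by
  have h1 : ∫ t, (if |x - t| ≤ 1 then K (x - t) else 0) = 0 := by
    have := integral_odd (fun s => if |s| ≤ 1 then K s else 0) (by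
      intro s
      simp only [abs_neg, hodd]
      split_ifs <;> simp) x
    exact this
  have hm : Measurable fun t : ℝ => (if |x - t| ≤ 1 then K (x - t) else 0) := by
    refine Measurable.ite ?_ (hK.meas.comp (by fun_prop)) measurable_const
    exact measurableSet_le (by fun_prop) measurable_const
  have hi : Integrable fun t : ℝ => (if |x - t| ≤ 1 then K (x - t) else 0) := by
    have hcomp : IntegrableOn (fun _ : ℝ => M) (Icc (x - 1) (x + 1)) := by
      exact integrableOn_const (by simp)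
    have h2 : Integrable (indicator (Icc (x - 1) (x + 1)) fun _ : ℝ => M) :=
      (integrable_indicator_iff measurableSet_Icc).2 hcomp
    refine h2.mono' hm.aestronglyMeasurable (Eventually.of_forall fun t => ?_)
    by_cases h : |x - t| ≤ 1
    · rw [if_pos h, indicator_of_mem]
      · exact hM _
      · rw [abs_le] at h; constructor <;> linarith
    · rw [if_neg h]
      simp only [norm_zero]
      have hM0 : 0 ≤ M := (abs_nonneg _).trans (hM 0)
      exact indicator_nonneg (fun _ _ => hM0) _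
  have hi' : Integrable fun t : ℝ => f x * ((if |x - t| ≤ 1 then K (x - t) else 0 : ℝ) : ℂ) :=
    (hi.ofReal).const_mul _
  have e : ∀ t, f t * ((K (x - t) + t / (1 + t ^ 2) : ℝ) : ℂ)
      = dK K f x t + f x * ((if |x - t| ≤ 1 then K (x - t) else 0 : ℝ) : ℂ) := by
    intro t
    unfold dK
    split_ifs <;> push_cast <;> ring
  have hd := dK_integrable hK hf hB hL
  constructor
  · rw [show (fun t => f t * ((K (x - t) + t / (1 + t ^ 2) : ℝ) : ℂ)) = fun t =>
      dK K f x t + f x * ((if |x - t| ≤ 1 then K (x - t) else 0 : ℝ) : ℂ) from funext e]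
    exact hd.add hi'
  · simp_rw [e]
    have h3 : ∫ t, ((if |x - t| ≤ 1 then K (x - t) else 0 : ℝ) : ℂ)
        = ((∫ t, (if |x - t| ≤ 1 then K (x - t) else 0) : ℝ) : ℂ) := integral_ofReal
    rw [integral_add hd hi', integral_const_mul, h3, h1]
    simp

/-- The truncated kernel. -/
noncomputable def kT (ε s : ℝ) : ℝ := if ε < |s| then 1 / s else 0

theorem ker_kT {ε : ℝ} (hε : 0 < ε) (hε1 : ε < 1) : Ker (kT ε) where
  meas := by
    unfold kT
    refine Measurable.ite ?_ (by fun_prop) measurable_const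
    exact measurableSet_lt measurable_const (by fun_prop)
  le := by
    intro s; unfold kT
    split_ifs
    · rw [abs_div, abs_one]
    · rw [abs_zero]; positivity
  far := by
    intro s hs; unfold kT
    rw [if_pos (by linarith)]
    simp; positivity

theorem kT_odd (ε s : ℝ) : kT ε (-s) = - kT ε s := by
  unfold kT
  rw [abs_neg]
  split_ifs
  · rw [div_neg]
  · simp

theorem kT_le {ε : ℝ} (hε : 0 < ε) (s : ℝ) : |kT ε s| ≤ 1 / ε := by
  unfold kT
  split_ifs with h
  · rw [abs_div, abs_one]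
    exact one_div_le_one_div_of_le hε h.le
  · rw [abs_zero]; positivity

/-- For a bounded function that is Lipschitz at `x` the truncated integrals converge. -/
theorem truncH_tendsto {f : ℝ → ℂ} (hf : AEStronglyMeasurable f) {B x : ℝ} (hB : ∀ t, ‖f t‖ ≤ B)
    (hL : LipAt f x) : Tendsto (fun ε => truncH f ε x) (𝓝[>] 0) (𝓝 (pvH f x)) := by
  have hB0 : 0 ≤ B := (norm_nonneg _).trans (hB x)
  have h0 := dK_tendsto (l := 𝓝[>] (0:ℝ)) kT (by
      have : ∀ᶠ ε in 𝓝[>] (0:ℝ), ε ∈ Ioo (0:ℝ) 1 := Ioo_mem_nhdsGT one_pos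
      filter_upwards [this] with ε hε
      exact ker_kT hε.1 hε.2) (by
      intro s hs
      refine tendsto_const_nhds.congr' ?_
      have : ∀ᶠ ε in 𝓝[>] (0:ℝ), ε ∈ Ioo (0:ℝ) |s| := Ioo_mem_nhdsGT (abs_pos.2 hs)
      filter_upwards [this] with ε hε
      unfold kT
      rw [if_pos hε.2]) hf hB hL
  -- the difference
  have hdiff : ∀ ε : ℝ, 0 < ε → ε < 1 → truncH f ε x - ((1 / π : ℝ) : ℂ) * ∫ t, dK (kT ε) f x t
      = -(((1 / π : ℝ) : ℂ) * ∫ t in {t : ℝ | ε < |x - t|}ᶜ, f t * ((t / (1 + t ^ 2) : ℝ) : ℂ)) := by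
    intro ε hε hε1
    obtain ⟨hi, he⟩ := dK_eq (ker_kT hε hε1) (kT_odd ε) (kT_le hε) hf hB hL
    have hms : MeasurableSet {t : ℝ | ε < |x - t|} := measurableSet_lt measurable_const (by fun_prop)
    rw [he, ← integral_add_compl hms hi]
    unfold truncH
    have e1 : ∫ t in {t : ℝ | ε < |x - t|}, f t * ((kT ε (x - t) + t / (1 + t ^ 2) : ℝ) : ℂ)
        = ∫ t in {t : ℝ | ε < |x - t|}, f t * ((1 / (x - t) + t / (1 + t ^ 2) : ℝ) : ℂ) := by
      refine setIntegral_congr_fun hms fun t ht => ?_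
      simp only [mem_ofPred_eq] at ht
      simp only [kT, if_pos ht]
    have e2 : ∫ t in {t : ℝ | ε < |x - t|}ᶜ, f t * ((kT ε (x - t) + t / (1 + t ^ 2) : ℝ) : ℂ)
        = ∫ t in {t : ℝ | ε < |x - t|}ᶜ, f t * ((t / (1 + t ^ 2) : ℝ) : ℂ) := by
      refine setIntegral_congr_fun hms.compl fun t ht => ?_
      simp only [mem_compl_iff, mem_ofPred_eq] at ht
      simp only [kT, if_neg ht, zero_add]
    rw [e1, e2]
    ring
  have hsmall : ∀ ε : ℝ, 0 < ε → ε < 1 →
      ‖truncH f ε x - ((1 / π : ℝ) : ℂ) * ∫ t, dK (kT ε) f x t‖ ≤ (1 / π) * (B * (2 * ε)) := by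
    intro ε hε hε1
    rw [hdiff ε hε hε1, norm_neg, norm_mul, Complex.norm_real, Real.norm_eq_abs,
      abs_of_pos (by positivity)]
    gcongr
    have hset : {t : ℝ | ε < |x - t|}ᶜ = Icc (x - ε) (x + ε) := by
      ext t
      simp only [mem_compl_iff, mem_ofPred_eq, not_lt, mem_Icc, abs_le]
      constructor
      · rintro ⟨h1, h2⟩; constructor <;> linarith
      · rintro ⟨h1, h2⟩; constructor <;> linarith
    rw [hset]
    have h2 := norm_setIntegral_le_of_norm_le_const (μ := volume) (s := Icc (x - ε) (x + ε))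
      (f := fun t => f t * ((t / (1 + t ^ 2) : ℝ) : ℂ)) (C := B) (by simp) (by
        intro t _
        rw [norm_mul, Complex.norm_real, Real.norm_eq_abs]
        have ht : 0 < 1 + t ^ 2 := by positivity
        have : |t / (1 + t ^ 2)| ≤ 1 := by
          rw [abs_div, abs_of_pos ht, div_le_one ht]
          nlinarith [sq_abs t, sq_nonneg (|t| - 1)]
        calc ‖f t‖ * |t / (1 + t ^ 2)| ≤ B * 1 := by gcongr; exact hB t
          _ = B := mul_one _)
    refine h2.trans (le_of_eq ?_)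
    rw [measureReal_def, Real.volume_Icc, ENNReal.toReal_ofReal (by linarith)]
    ring
  have hz : Tendsto (fun ε => truncH f ε x - ((1 / π : ℝ) : ℂ) * ∫ t, dK (kT ε) f x t)
      (𝓝[>] 0) (𝓝 0) := by
    rw [tendsto_zero_iff_norm_tendsto_zero]
    refine squeeze_zero' (Eventually.of_forall fun _ => norm_nonneg _) ?_
      (g := fun ε => (1 / π) * (B * (2 * ε))) ?_
    · have : ∀ᶠ ε in 𝓝[>] (0:ℝ), ε ∈ Ioo (0:ℝ) 1 := Ioo_mem_nhdsGT one_pos
      filter_upwards [this] with ε hε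
      exact hsmall ε hε.1 hε.2
    · have : Tendsto (fun ε : ℝ => (1 / π) * (B * (2 * ε))) (𝓝 0) (𝓝 ((1 / π) * (B * (2 * 0)))) := by
        apply Continuous.tendsto; fun_prop
      simp only [mul_zero] at this
      exact this.mono_left nhdsWithin_le_nhds
  have := hz.add h0
  simpa using this

/-- The conjugate Poisson kernel. -/
noncomputable def kS (y s : ℝ) : ℝ := s / (s ^ 2 + y ^ 2)

theorem ker_kS {y : ℝ} (hy : 0 < y) (hy1 : y < 1) : Ker (kS y) where
  meas := by unfold kS; fun_prop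
  le := by
    intro s; unfold kS
    rcases eq_or_ne s 0 with rfl | hs
    · simp
    · rw [abs_div, abs_of_pos (by positivity : 0 < s ^ 2 + y ^ 2),
        div_le_div_iff₀ (by positivity) (abs_pos.2 hs), ← sq, sq_abs]
      nlinarith [sq_nonneg y]
  far := by
    intro s hs; unfold kS
    have hs0 : s ≠ 0 := by rintro rfl; simp at hs; linarith
    have hs2 : 1 ≤ s ^ 2 := by rw [← sq_abs]; nlinarith
    have e : s / (s ^ 2 + y ^ 2) - 1 / s = - (y ^ 2 / (s * (s ^ 2 + y ^ 2))) := by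
      field_simp; ring
    rw [e, abs_neg, abs_div, abs_of_nonneg (sq_nonneg y), abs_mul,
      abs_of_pos (by positivity : 0 < s ^ 2 + y ^ 2),
      div_le_div_iff₀ (by positivity) (by positivity), one_mul]
    have h1 : y ^ 2 ≤ 1 := by nlinarith
    calc y ^ 2 * s ^ 2 ≤ 1 * s ^ 2 := by gcongr
      _ ≤ 1 * (s ^ 2 + y ^ 2) := by nlinarith [sq_nonneg y]
      _ ≤ |s| * (s ^ 2 + y ^ 2) := by gcongr

theorem kS_odd (y s : ℝ) : kS y (-s) = - kS y s := by
  unfold kS
  rw [neg_sq, neg_div]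

theorem kS_le {y : ℝ} (hy : 0 < y) (s : ℝ) : |kS y s| ≤ 1 / y := by
  unfold kS
  rw [abs_div, abs_of_pos (by positivity : 0 < s ^ 2 + y ^ 2),
    div_le_div_iff₀ (by positivity) hy]
  nlinarith [sq_abs s, sq_nonneg (|s| - y), abs_nonneg s]

/-- The conjugate Poisson integrals converge to the Hilbert transform. -/
theorem kS_tendsto {f : ℝ → ℂ} (hf : AEStronglyMeasurable f) {B x : ℝ} (hB : ∀ t, ‖f t‖ ≤ B)
    (hL : LipAt f x) :
    Tendsto (fun y => ((1 / π : ℝ) : ℂ) * ∫ t, f t * ((kS y (x - t) + t / (1 + t ^ 2) : ℝ) : ℂ))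
      (𝓝[>] 0) (𝓝 (pvH f x)) := by
  have h0 := dK_tendsto (l := 𝓝[>] (0:ℝ)) kS (by
      have : ∀ᶠ ε in 𝓝[>] (0:ℝ), ε ∈ Ioo (0:ℝ) 1 := Ioo_mem_nhdsGT one_pos
      filter_upwards [this] with ε hε
      exact ker_kS hε.1 hε.2) (by
      intro s hs
      have : Tendsto (fun y : ℝ => kS y s) (𝓝 0) (𝓝 (kS 0 s)) := by
        apply ContinuousAt.tendsto
        unfold kS
        refine ContinuousAt.div (by fun_prop) (by fun_prop) ?_
        positivity
      have e : kS 0 s = 1 / s := by unfold kS; field_simp; ring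
      rw [e] at this
      exact this.mono_left nhdsWithin_le_nhds) hf hB hL
  refine h0.congr' ?_
  have : ∀ᶠ ε in 𝓝[>] (0:ℝ), ε ∈ Ioo (0:ℝ) 1 := Ioo_mem_nhdsGT one_pos
  filter_upwards [this] with y hy
  rw [(dK_eq (ker_kS hy.1 hy.2) (kS_odd y) (kS_le hy.1) hf hB hL).2]

theorem isHilbert_pvH {f : ℝ → ℂ} (hf : AEStronglyMeasurable f) {B : ℝ} (hB : ∀ t, ‖f t‖ ≤ B)
    (hL : ∀ x, LipAt f x) : IsHilbert f (pvH f) :=
  Eventually.of_forall fun x => truncH_tendsto hf hB (hL x)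

end Pool.Agent.TH244.L
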